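import Mathlib

/-!
# Lifts of the heart of the permutation module modulo `ℓ`: definitions
-/

open scoped Classical

namespace Pool.Agent.Lib.MP_89bcae_ag.Ep

/-- The constant functions. -/
def Cst (ℓ : ℕ) (X : Type) : AddSubgroup (X → ZMod ℓ) where
  carrier := {f | ∃ c, ∀ x, f x = c}
  zero_mem' := ⟨0, fun _ => rfl⟩
  add_mem' := by
    rintro f g ⟨c, hc⟩ ⟨d, hd⟩
    exact ⟨c + d, fun x => by rw [Pi.add_apply, hc, hd]⟩
  neg_mem' := by
    rintro f ⟨c, hc⟩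
    exact ⟨-c, fun x => by rw [Pi.neg_apply, hc]⟩

/-- The class of a function modulo the constants. -/
def cl (ℓ : ℕ) (X : Type) : (X → ZMod ℓ) →+ (X → ZMod ℓ) ⧸ Cst ℓ X := QuotientAddGroup.mk' _

lemma cl_surjective (ℓ : ℕ) (X : Type) : Function.Surjective (cl ℓ X) := QuotientAddGroup.mk'_surjective _

lemma cl_eq {ℓ : ℕ} {X : Type} {f g : X → ZMod ℓ} : cl ℓ X f = cl ℓ X g ↔ ∃ c, ∀ x, f x = g x + c := by
  unfold cl
  rw [QuotientAddGroup.mk'_apply, QuotientAddGroup.mk'_apply, eq_comm, QuotientAddGroup.eq]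
  constructor
  · rintro ⟨c, hc⟩
    exact ⟨c, fun x => by rw [← hc x, Pi.add_apply, Pi.neg_apply, add_neg_cancel_left]⟩
  · rintro ⟨c, hc⟩
    exact ⟨c, fun x => by rw [Pi.add_apply, Pi.neg_apply, hc, neg_add_cancel_left]⟩

lemma cl_eq_zero {ℓ : ℕ} {X : Type} {f : X → ZMod ℓ} : cl ℓ X f = 0 ↔ ∃ c, ∀ x, f x = c := by
  rw [← map_zero (cl ℓ X), cl_eq]
  simp

/-- The product of two transpositions. -/
noncomputable def dt {X : Type} (i j k l : X) : Equiv.Perm X := Equiv.swap i j * Equiv.swap k l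

/-- The even permutations of order at most `2`. -/
def Inv2 (X : Type) [Fintype X] : Set (Equiv.Perm X) := {s | s ∈ alternatingGroup X ∧ s * s = 1}

/-- The data used in the main argument: a group `M` with an endomorphism `σ`, a homomorphism `p` to the functions modulo the
constants, the kernel of which is `(1 - σ) M` and the image of which consists of the classes of the functions of sum `0`, and
an action of the even involutions. -/
structure Sys (ℓ : ℕ) (X M : Type) [Fintype X] [AddCommGroup M] (σ : M →+ M) (p : M →+ (X → ZMod ℓ) ⧸ Cst ℓ X)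
    (C : Equiv.Perm X → M →+ M) : Prop where
  tf : ∀ (n : ℕ) (v : M), n ≠ 0 → n • v = 0 → v = 0
  half : ∀ v : M, ∃ w, v = w + w
  pi_inj : ∀ v : M, v - σ v = 0 → v = 0
  sep : ∀ N : AddSubgroup M, (∀ v ∈ N, ∃ w ∈ N, v = w - σ w) → N = ⊥
  ker : ∀ v, p v = 0 → ∃ w, v = w - σ w
  img : ∀ v, ∃ f : X → ZMod ℓ, ∑ x, f x = 0 ∧ p v = cl ℓ X f
  ran : ∀ f : X → ZMod ℓ, ∑ x, f x = 0 → ∃ v, p v = cl ℓ X f
  comm : ∀ s ∈ Inv2 X, ∀ v, C s (σ v) = σ (C s v)
  sq : ∀ s ∈ Inv2 X, ∀ v, C s (C s v) = v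
  mul : ∀ s ∈ Inv2 X, ∀ t ∈ Inv2 X, s * t = t * s → ∀ v, C s (C t v) = C (s * t) v
  conj : ∀ s ∈ Inv2 X, ∀ t ∈ Inv2 X, ∀ v, C s (C t (C s v)) = C (s * t * s) v
  act : ∀ s ∈ Inv2 X, ∀ v (f : X → ZMod ℓ), p v = cl ℓ X f → p (C s v) = cl ℓ X fun x => f (s x)

/-- The vectors fixed by the products of two disjoint transpositions of points different from `i` and `j`, and mapped to their
opposites by the products of the transposition of `i` and `j` and a disjoint one. -/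
def Ln {X M : Type} [AddCommGroup M] (C : Equiv.Perm X → M →+ M) (i j : X) : AddSubgroup M where
  carrier := {v | (∀ a b c d, [i, j, a, b, c, d].Nodup → C (dt a b c d) v = v) ∧
    ∀ a b, [i, j, a, b].Nodup → C (dt i j a b) v = -v}
  zero_mem' := ⟨fun a b c d _ => map_zero _, fun a b _ => by rw [map_zero, neg_zero]⟩
  add_mem' := by
    rintro v w ⟨hv, hv'⟩ ⟨hw, hw'⟩
    exact ⟨fun a b c d h => by rw [map_add, hv a b c d h, hw a b c d h],
      fun a b h => by rw [map_add, hv' a b h, hw' a b h, neg_add]⟩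
  neg_mem' := by
    rintro v ⟨hv, hv'⟩
    exact ⟨fun a b c d h => by rw [map_neg, hv a b c d h], fun a b h => by rw [map_neg, hv' a b h]⟩

/-- A lift of the heart: `M = ℤ_ℓ ^ r`, the endomorphism `σ` of `M`, a group `H` which acts on `M` by `a` and on `X` by `q`. -/
structure Lft {ℓ : ℕ} [Fact ℓ.Prime] {X : Type} [Fintype X] {H : Type} [Group H] {r : ℕ}
    (σ : Module.End ℤ_[ℓ] (Fin r → ℤ_[ℓ])) (a : H →* ((Fin r → ℤ_[ℓ]) ≃ₗ[ℤ_[ℓ]] (Fin r → ℤ_[ℓ])))
    (q : H →* alternatingGroup X) (p : (Fin r → ℤ_[ℓ]) →+ (X → ZMod ℓ) ⧸ Cst ℓ X) : Prop where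
  surj : Function.Surjective q
  inj : ∀ h, a h = 1 → q h = 1 → h = 1
  cyc : ∑ i ∈ Finset.range ℓ, σ ^ i = 0
  comm : ∀ h v, a h (σ v) = σ (a h v)
  ker : ∀ v, p v = 0 ↔ ∃ w, v = w - σ w
  ran : ∀ y, (∃ v, p v = y) ↔ ∃ f : X → ZMod ℓ, ∑ x, f x = 0 ∧ cl ℓ X f = y
  act : ∀ h v (f : X → ZMod ℓ), p v = cl ℓ X f →
    p (a h v) = cl ℓ X fun x => f (((q h : Equiv.Perm X)⁻¹ : Equiv.Perm X) x)

end Pool.Agent.Lib.MP_89bcae_ag.Ep
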