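import Mathlib
import Pool.Agent.Lib.MP_89bcae_ag.Ep.GDefs

/-!
# Groups of endomorphisms of the heart modulo `ℓ`: definitions
-/

open scoped Classical

namespace Pool.Agent.Lib.MP_89bcae_ag.Ep.Amp

section

variable {ℓ : ℕ} {X : Type}

/-- The functions of sum `0`. -/
def S0 (ℓ : ℕ) (X : Type) [Fintype X] : AddSubgroup (X → ZMod ℓ) where
  carrier := {f | ∑ x, f x = 0}
  zero_mem' := by simp
  add_mem' := by
    intro f g hf hg
    simp only [Set.mem_ofPred_eq, Pi.add_apply, Finset.sum_add_distrib] at *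
    rw [hf, hg, add_zero]
  neg_mem' := by
    intro f hf
    simp only [Set.mem_ofPred_eq, Pi.neg_apply, Finset.sum_neg_distrib] at *
    rw [hf, neg_zero]

lemma mem_S0 [Fintype X] {f : X → ZMod ℓ} : f ∈ S0 ℓ X ↔ ∑ x, f x = 0 := Iff.rfl

/-- The function `δ_i - δ_j`. -/
noncomputable def ee (ℓ : ℕ) {X : Type} (i j : X) : X → ZMod ℓ := Pi.single i 1 - Pi.single j 1

/-- The value of the matrix `t` on `δ_i - δ_j` and `δ_k - δ_l`. -/
def mm (t : X → X → ZMod ℓ) (i j k l : X) : ZMod ℓ := t i k - t i l - t j k + t j l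

/-- The matrix `a (δ_i - δ_j) ⊗ (δ_k - δ_l) + b (δ_k - δ_l) ⊗ (δ_i - δ_j)`. -/
noncomputable def E4 (a b : ZMod ℓ) (i j k l : X) : X → X → ZMod ℓ :=
  fun x y => a * (ee ℓ i j x * ee ℓ k l y) + b * (ee ℓ k l x * ee ℓ i j y)

/-- The group of matrices is stable under the even permutations. -/
def Stab [Fintype X] (T : AddSubgroup (X → X → ZMod ℓ)) : Prop :=
  ∀ τ ∈ alternatingGroup X, ∀ t ∈ T, (fun x y => t (τ x) (τ y)) ∈ T

end

end Pool.Agent.Lib.MP_89bcae_ag.Ep.Amp
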