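import Mathlib
import Pool.Agent.Lib.MP_89bcae_ag.Ep.AmD

/-!
# Matrices: three cycles
-/

open scoped Classical

namespace Pool.Agent.Lib.MP_89bcae_ag.Ep.Amp

variable {ℓ : ℕ} {X : Type} [Fintype X]

omit [Fintype X] in
private theorem ama_two {c c' : Equiv.Perm X} (h : ∀ x, c x = x ∨ c' x = x) (f : X → X → ZMod ℓ) (x y : X) :
    f x y - f (c x) (c y) - f (c' x) (c' y) + f (c (c' x)) (c (c' y)) =
      (f x y - f (c x) y - f x (c' y) + f (c x) (c' y)) +
      (f x y - f (c' x) y - f x (c y) + f (c' x) (c y)) := by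
  have hc : ∀ z, c z = z → c (c' z) = c' z := by
    intro z hz
    rcases h (c' z) with h1 | h1
    · exact h1
    · have h2 : c' z = z := c'.injective h1
      rw [h2, hz]
  rcases h x with hx | hx <;> rcases h y with hy | hy
  · rw [hc x hx, hc y hy, hx, hy]
    ring
  · rw [hc x hx, hx, hy]
    ring
  · rw [hc y hy, hx, hy]
    ring
  · rw [hx, hy]
    ring

omit [Fintype X] in
private theorem ama_swap (g : X → ZMod ℓ) {i j : X} (hij : i ≠ j) (x : X) :
    g x - g (Equiv.swap i j x) = ee ℓ i j x * (g i - g j) := by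
  unfold ee
  rw [Pi.sub_apply]
  by_cases h1 : x = i
  · subst h1
    rw [Equiv.swap_apply_left, Pi.single_eq_same, Pi.single_eq_of_ne hij]
    ring
  · by_cases h2 : x = j
    · subst h2
      rw [Equiv.swap_apply_right, Pi.single_eq_same, Pi.single_eq_of_ne h1]
      ring
    · rw [Equiv.swap_apply_of_ne_of_ne h1 h2, Pi.single_eq_of_ne h1, Pi.single_eq_of_ne h2]
      ring

omit [Fintype X] in
private theorem ama_fix {i a j x : X} (h1 : x ≠ i) (h2 : x ≠ a) (h3 : x ≠ j) :
    (Equiv.swap i a * Equiv.swap a j) x = x := by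
  rw [Equiv.Perm.mul_apply, Equiv.swap_apply_of_ne_of_ne h2 h3, Equiv.swap_apply_of_ne_of_ne h1 h2]

omit [Fintype X] in
private theorem ama_cyc {i a j : X} (hia : i ≠ a) (hij : i ≠ j) :
    (Equiv.swap i a * Equiv.swap a j) i = a ∧ (Equiv.swap i a * Equiv.swap a j) j = i := by
  constructor
  · rw [Equiv.Perm.mul_apply, Equiv.swap_apply_of_ne_of_ne hia hij, Equiv.swap_apply_left]
  · rw [Equiv.Perm.mul_apply, Equiv.swap_apply_right, Equiv.swap_apply_right]

private theorem ama_even {i j k l : X} (hij : i ≠ j) (hkl : k ≠ l) :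
    Equiv.swap i j * Equiv.swap k l ∈ alternatingGroup X := by
  rw [Equiv.Perm.mem_alternatingGroup, Equiv.Perm.sign_mul, Equiv.Perm.sign_swap hij,
    Equiv.Perm.sign_swap hkl]
  norm_num

omit [Fintype X] in
private theorem ama_sw {N : X → X → ZMod ℓ} {i j k l p q : X}
    (hij : i ≠ j) (hkl : k ≠ l) (hik : i ≠ k) (hil : i ≠ l) (hjk : j ≠ k) (hjl : j ≠ l)
    (hip : i ≠ p) (hiq : i ≠ q) (hjp : j ≠ p) (hjq : j ≠ q)
    (hkp : k ≠ p) (hkq : k ≠ q) (hlp : l ≠ p) (hlq : l ≠ q)
    (hNp : ∀ y, N p y = 0) (hNq : ∀ y, N q y = 0) (hNp' : ∀ x, N x p = 0) (hNq' : ∀ x, N x q = 0) (x y : X) :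
    N x y - N ((Equiv.swap i j * Equiv.swap p q) x) ((Equiv.swap i j * Equiv.swap p q) y) -
      N ((Equiv.swap k l * Equiv.swap p q) x) ((Equiv.swap k l * Equiv.swap p q) y) +
      N ((Equiv.swap i j * Equiv.swap k l) x) ((Equiv.swap i j * Equiv.swap k l) y) =
      E4 (mm N i j k l) (mm N k l i j) i j k l x y := by
  -- the swap of `p` and `q` can be left out
  have hpq : ∀ {u v : X}, u ≠ p → u ≠ q → v ≠ p → v ≠ q → ∀ x y,
      N ((Equiv.swap u v * Equiv.swap p q) x) ((Equiv.swap u v * Equiv.swap p q) y) =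
        N (Equiv.swap u v x) (Equiv.swap u v y) := by
    intro u v hup huq hvp hvq x y
    simp only [Equiv.Perm.mul_apply]
    by_cases hxp : x = p
    · subst hxp
      rw [Equiv.swap_apply_left, Equiv.swap_apply_of_ne_of_ne huq.symm hvq.symm,
        Equiv.swap_apply_of_ne_of_ne hup.symm hvp.symm, hNq, hNp]
    · by_cases hxq : x = q
      · subst hxq
        rw [Equiv.swap_apply_right, Equiv.swap_apply_of_ne_of_ne huq.symm hvq.symm,
          Equiv.swap_apply_of_ne_of_ne hup.symm hvp.symm, hNq, hNp]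
      · rw [Equiv.swap_apply_of_ne_of_ne hxp hxq]
        by_cases hyp : y = p
        · subst hyp
          rw [Equiv.swap_apply_left, Equiv.swap_apply_of_ne_of_ne huq.symm hvq.symm,
            Equiv.swap_apply_of_ne_of_ne hup.symm hvp.symm, hNq', hNp']
        · by_cases hyq : y = q
          · subst hyq
            rw [Equiv.swap_apply_right, Equiv.swap_apply_of_ne_of_ne huq.symm hvq.symm,
              Equiv.swap_apply_of_ne_of_ne hup.symm hvp.symm, hNq', hNp']
          · rw [Equiv.swap_apply_of_ne_of_ne hyp hyq]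
  rw [hpq hip hiq hjp hjq, hpq hkp hkq hlp hlq]
  simp only [Equiv.Perm.mul_apply]
  have hdis : ∀ z, Equiv.swap i j z = z ∨ Equiv.swap k l z = z := by
    intro z
    by_cases h1 : z = i
    · right
      subst h1
      exact Equiv.swap_apply_of_ne_of_ne hik hil
    · by_cases h2 : z = j
      · right
        subst h2
        exact Equiv.swap_apply_of_ne_of_ne hjk hjl
      · left
        exact Equiv.swap_apply_of_ne_of_ne h1 h2
  rw [ama_two hdis N x y]
  have e1 := ama_swap (fun z => N z y) hij x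
  have e2 := ama_swap (fun z => N z (Equiv.swap k l y)) hij x
  have e3 := ama_swap (fun z => N i z - N j z) hkl y
  have e4 := ama_swap (fun z => N z y) hkl x
  have e5 := ama_swap (fun z => N z (Equiv.swap i j y)) hkl x
  have e6 := ama_swap (fun z => N k z - N l z) hij y
  unfold E4 mm
  linear_combination e1 - e2 + ee ℓ i j x * e3 + e4 - e5 + ee ℓ k l x * e6

/-- Let `c` be the three-cycle `i ↦ a ↦ j ↦ i` and `c'` the three-cycle `k ↦ b ↦ l ↦ k`, and for a permutation `τ` let
`t ^ τ = fun x y => t (τ x) (τ y)`. The matrix `N = t - t ^ c - t ^ c' + t ^ (c c')` is in `T`. For `x ∈ {i, j, a}` and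
`y ∈ {k, l, b}` it is `N x y = mm t x (c x) y (c' y)`, for `x ∈ {k, l, b}` and `y ∈ {i, j, a}` it is
`N x y = mm t x (c' x) y (c y)`, and `N x y = 0` for the other `x`, `y`: if neither `c` nor `c'` moves `x` (or `y`), or both are moved
by `c` only, or both by `c'` only, then the four terms cancel in pairs.
Now let `s = (i j)(p q)`, `s' = (k l)(p q)`, `s s' = (i j)(k l)`. The matrix `P = N - N ^ s - N ^ s' + N ^ (s s')` is in `T`. `N` is `0`
on the rows and the columns of `p` and `q`, so as before `P x y = 0` unless `(x, y)` is in `{i, j} × {k, l}` or in `{k, l} × {i, j}`,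
and `P = E4 (mm N i j k l) (mm N k l i j) i j k l`. At last `mm N i j k l = N i k - N i l - N j k + N j l` is
`mm t i a k b - mm t i a l k - mm t j i k b + mm t j i l k`, which is the first coefficient of the statement (`mm` is additive and
antisymmetric in each of the two pairs), and in the same way for the second.
(All permutations used are even. In Lean: maybe prove `P = E4 ..` with `funext x y` and case distinctions on `x` and `y` being
one of the eight points, with `Equiv.swap_apply_of_ne_of_ne` or `Equiv.swap_apply_def` and the distinctness facts, or prove the two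
steps in the form of general lemmas: for commuting permutations `c`, `c'` with `c x = x ∨ c' x = x` for all `x`, the matrix
`t - t ^ c - t ^ c' + t ^ (c c')` is `0` at `(x, y)` unless (`c x ≠ x` and `c' y ≠ y`) or (`c' x ≠ x` and `c y ≠ y`), where it is
`t x y - t (c x) y - t x (c' y) + t (c x) (c' y)`, or `t x y - t (c' x) y - t x (c y) + t (c' x) (c y)`.) -/
theorem three {T : AddSubgroup (X → X → ZMod ℓ)} (hT : Stab T) {t : X → X → ZMod ℓ} (ht : t ∈ T)
    {i j a k l b p q : X} (h : [i, j, a, k, l, b, p, q].Nodup) :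
    E4 (mm t i j k l + mm t i a k l + mm t i j k b + mm t i a k b)
      (mm t k l i j + mm t k l i a + mm t k b i j + mm t k b i a) i j k l ∈ T := by
  simp only [List.nodup_cons, List.mem_cons, List.not_mem_nil, or_false, not_or, List.nodup_nil,
    and_true, not_false_eq_true] at h
  obtain ⟨⟨hij, hia, hik, hil, hib, hip, hiq⟩, ⟨hja, hjk, hjl, hjb, hjp, hjq⟩, ⟨hak, hal, hab, hap, haq⟩,
    ⟨hkl, hkb, hkp, hkq⟩, ⟨hlb, hlp, hlq⟩, ⟨hbp, hbq⟩, hpq⟩ := h
  obtain ⟨c, hc⟩ : ∃ c : Equiv.Perm X, c = Equiv.swap i a * Equiv.swap a j := ⟨_, rfl⟩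
  obtain ⟨c', hc'⟩ : ∃ c' : Equiv.Perm X, c' = Equiv.swap k b * Equiv.swap b l := ⟨_, rfl⟩
  have hce : c ∈ alternatingGroup X := by rw [hc]; exact ama_even hia (Ne.symm hja)
  have hce' : c' ∈ alternatingGroup X := by rw [hc']; exact ama_even hkb (Ne.symm hlb)
  have hci : c i = a ∧ c j = i := by rw [hc]; exact ama_cyc hia hij
  have hck : c' k = b ∧ c' l = k := by rw [hc']; exact ama_cyc hkb hkl
  have hcf : ∀ x, x ≠ i → x ≠ a → x ≠ j → c x = x := by
    intro x h1 h2 h3
    rw [hc]
    exact ama_fix h1 h2 h3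
  have hcf' : ∀ x, x ≠ k → x ≠ b → x ≠ l → c' x = x := by
    intro x h1 h2 h3
    rw [hc']
    exact ama_fix h1 h2 h3
  have hdis : ∀ z, c z = z ∨ c' z = z := by
    intro z
    by_cases h1 : z = i
    · right
      subst h1
      exact hcf' _ hik hib hil
    · by_cases h2 : z = a
      · right
        subst h2
        exact hcf' _ hak hab hal
      · by_cases h3 : z = j
        · right
          subst h3
          exact hcf' _ hjk hjb hjl
        · left
          exact hcf z h1 h2 h3
  obtain ⟨N, hN⟩ : ∃ N : X → X → ZMod ℓ, N = t - (fun x y => t (c x) (c y)) - (fun x y => t (c' x) (c' y)) +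
    (fun x y => t ((c * c') x) ((c * c') y)) := ⟨_, rfl⟩
  have hNT : N ∈ T := by
    rw [hN]
    exact T.add_mem (T.sub_mem (T.sub_mem ht (hT c hce t ht)) (hT c' hce' t ht))
      (hT (c * c') (mul_mem hce hce') t ht)
  have hNe : ∀ x y, N x y = (t x y - t (c x) y - t x (c' y) + t (c x) (c' y)) +
      (t x y - t (c' x) y - t x (c y) + t (c' x) (c y)) := by
    intro x y
    rw [← ama_two hdis t x y, hN]
    rfl
  have hcp : c p = p := hcf p (Ne.symm hip) (Ne.symm hap) (Ne.symm hjp)
  have hcq : c q = q := hcf q (Ne.symm hiq) (Ne.symm haq) (Ne.symm hjq)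
  have hcp' : c' p = p := hcf' p (Ne.symm hkp) (Ne.symm hbp) (Ne.symm hlp)
  have hcq' : c' q = q := hcf' q (Ne.symm hkq) (Ne.symm hbq) (Ne.symm hlq)
  have hNp : ∀ y, N p y = 0 := by
    intro y
    rw [hNe, hcp, hcp']
    ring
  have hNq : ∀ y, N q y = 0 := by
    intro y
    rw [hNe, hcq, hcq']
    ring
  have hNp' : ∀ x, N x p = 0 := by
    intro x
    rw [hNe, hcp, hcp']
    ring
  have hNq' : ∀ x, N x q = 0 := by
    intro x
    rw [hNe, hcq, hcq']
    ring
  have hP : (N - (fun x y => N ((Equiv.swap i j * Equiv.swap p q) x) ((Equiv.swap i j * Equiv.swap p q) y)) -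
      (fun x y => N ((Equiv.swap k l * Equiv.swap p q) x) ((Equiv.swap k l * Equiv.swap p q) y)) +
      (fun x y => N ((Equiv.swap i j * Equiv.swap k l) x) ((Equiv.swap i j * Equiv.swap k l) y))) ∈ T :=
    T.add_mem (T.sub_mem (T.sub_mem hNT (hT _ (ama_even hij hpq) N hNT))
      (hT _ (ama_even hkl hpq) N hNT)) (hT _ (ama_even hij hkl) N hNT)
  have hfin : E4 (mm t i j k l + mm t i a k l + mm t i j k b + mm t i a k b)
      (mm t k l i j + mm t k l i a + mm t k b i j + mm t k b i a) i j k l =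
      N - (fun x y => N ((Equiv.swap i j * Equiv.swap p q) x) ((Equiv.swap i j * Equiv.swap p q) y)) -
      (fun x y => N ((Equiv.swap k l * Equiv.swap p q) x) ((Equiv.swap k l * Equiv.swap p q) y)) +
      (fun x y => N ((Equiv.swap i j * Equiv.swap k l) x) ((Equiv.swap i j * Equiv.swap k l) y)) := by
    funext x y
    have h1 := ama_sw hij hkl hik hil hjk hjl hip hiq hjp hjq hkp hkq hlp hlq hNp hNq hNp' hNq' x y
    have hi' : c' i = i := hcf' i hik hib hil
    have hj' : c' j = j := hcf' j hjk hjb hjl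
    have hk' : c k = k := hcf k (Ne.symm hik) (Ne.symm hak) (Ne.symm hjk)
    have hl' : c l = l := hcf l (Ne.symm hil) (Ne.symm hal) (Ne.symm hjl)
    have e1 : mm N i j k l = mm t i j k l + mm t i a k l + mm t i j k b + mm t i a k b := by
      unfold mm
      rw [hNe i k, hNe i l, hNe j k, hNe j l, hci.1, hci.2, hck.1, hck.2, hi', hj', hk', hl']
      ring
    have e2 : mm N k l i j = mm t k l i j + mm t k l i a + mm t k b i j + mm t k b i a := by
      unfold mm
      rw [hNe k i, hNe k j, hNe l i, hNe l j, hci.1, hci.2, hck.1, hck.2, hi', hj', hk', hl']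
      ring
    rw [e1, e2] at h1
    rw [← h1]
    rfl
  rw [hfin]
  exact hP

end Pool.Agent.Lib.MP_89bcae_ag.Ep.Amp
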