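import Mathlib
import Pool.Agent.Lib.MP_89bcae_ag.Ep.AmA

/-!
# Matrices of rank two
-/

open scoped Classical

namespace Pool.Agent.Lib.MP_89bcae_ag.Ep.Amp

variable {ℓ : ℕ} {X : Type} [Fintype X]

omit [Fintype X] in
private lemma amb_ee (τ : Equiv.Perm X) (i j x : X) : ee ℓ (τ i) (τ j) (τ x) = ee ℓ i j x := by
  unfold ee
  simp only [Pi.sub_apply, Pi.single_apply, EmbeddingLike.apply_eq_iff_eq]

omit [Fintype X] in
private lemma amb_E4 (τ : Equiv.Perm X) (a b : ZMod ℓ) (i j k l : X) :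
    (fun x y => E4 a b (τ i) (τ j) (τ k) (τ l) (τ x) (τ y)) = E4 a b i j k l := by
  funext x y
  unfold E4
  simp only [amb_ee]

private lemma amb_perm (hX : 8 ≤ Fintype.card X) {i' j' k' l' i j k l : X}
    (h' : [i', j', k', l'].Nodup) (hn : [i, j, k, l].Nodup) :
    ∃ τ ∈ alternatingGroup X, τ i = i' ∧ τ j = j' ∧ τ k = k' ∧ τ l = l' := by
  have hc : Nat.card X = Fintype.card X := Nat.card_eq_fintype_card
  have h0 := alternatingGroup.isMultiplyPretransitive X
  have h4 : MulAction.IsMultiplyPretransitive (alternatingGroup X) X 4 :=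
    MulAction.isMultiplyPretransitive_of_le (n := Nat.card X - 2) (by omega) (by omega)
  have e1 : Function.Injective (fun n : Fin 4 => [i, j, k, l].get n) := List.nodup_iff_injective_get.1 hn
  have e2 : Function.Injective (fun n : Fin 4 => [i', j', k', l'].get n) := List.nodup_iff_injective_get.1 h'
  obtain ⟨g, hg⟩ := MulAction.exists_smul_eq (alternatingGroup X) (⟨_, e1⟩ : Fin 4 ↪ X) (⟨_, e2⟩ : Fin 4 ↪ X)
  have hv : ∀ n : Fin 4, (g : Equiv.Perm X) ([i, j, k, l].get n) = [i', j', k', l'].get n := by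
    intro n
    exact congrArg (fun f : Fin 4 ↪ X => f n) hg
  exact ⟨g, g.2, hv 0, hv 1, hv 2, hv 3⟩

/-- The even permutations are transitive on the quadruples of distinct points (there is a permutation `τ` with these values: for
instance as in `Mathlib`, `MulAction.IsMultiplyPretransitive (alternatingGroup X) X (card X - 2)`, or extend the bijection
`{i, j, k, l} → {i', j', k', l'}` to a permutation; if it is odd, multiply it by the transposition of two points outside of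
`{i, j, k, l}`). Then `fun x y => E4 a b i' j' k' l' (τ x) (τ y) = E4 a b i j k l`, as `ee ℓ (τ i) (τ j) (τ x) = ee ℓ i j x`. -/
theorem move {T : AddSubgroup (X → X → ZMod ℓ)} (hT : Stab T) (hX : 8 ≤ Fintype.card X) {a b : ZMod ℓ} {i' j' k' l' i j k l : X}
    (h' : [i', j', k', l'].Nodup) (h : E4 a b i' j' k' l' ∈ T) (hn : [i, j, k, l].Nodup) : E4 a b i j k l ∈ T := by
  obtain ⟨τ, hτ, rfl, rfl, rfl, rfl⟩ := amb_perm hX h' hn
  have := hT τ hτ _ h
  rwa [amb_E4] at this

private lemma amb_four (hX : 8 ≤ Fintype.card X) (i j k l : X) :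
    ∃ i₁ j₁ k₁ l₁ : X, [i₁, j₁, k₁, l₁].Nodup ∧ ∀ u ∈ [i₁, j₁, k₁, l₁], u ∉ [i, j, k, l] := by
  set s : Finset X := [i, j, k, l].toFinset
  have hs : s.card ≤ 4 := List.toFinset_card_le _
  have hc : 4 ≤ (sᶜ).card := by
    rw [Finset.card_compl]
    omega
  obtain ⟨t, hts, ht⟩ := Finset.exists_subset_card_eq hc
  have hl : t.toList.length = 4 := by rw [Finset.length_toList, ht]
  have hnd : t.toList.Nodup := t.nodup_toList
  have hm : ∀ u ∈ t.toList, u ∉ [i, j, k, l] := by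
    intro u hu
    have h1 : u ∈ sᶜ := hts (Finset.mem_toList.1 hu)
    rw [Finset.mem_compl] at h1
    intro h2
    exact h1 (List.mem_toFinset.2 h2)
  match htl : t.toList, hl with
  | [a, b, c, d], _ =>
    rw [htl] at hnd hm
    exact ⟨a, b, c, d, hnd, hm⟩

/-- Take four more points: `i₁, j₁, k₁, l₁` such that `i, j, k, l, i₁, j₁, k₁, l₁` are distinct. Let `M (u, v)` be the bilinear form
of `t` (`mm t i j k l = M (δ_i - δ_j, δ_k - δ_l)`) and `Q (a, b) = mm t i₁ j₁ k₁ l₁ + mm t i₁ a k₁ l₁ + mm t i₁ j₁ k₁ b + mm t i₁ a k₁ b`,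
for `a ∈ {i, j}` and `b ∈ {k, l}`. Then `mm t i j k l = Q (i, k) - Q (j, k) - Q (i, l) + Q (j, l)` (`unfold mm; ring`), so one of the four
is not `0`, and `three` (with `p`, `q` = the two points of `{i, j, k, l}` which are not used) gives
`E4 a b i₁ j₁ k₁ l₁ ∈ T` with `a ≠ 0`. By `move` this is true for all the quadruples. If `b ≠ 0` we are done. If `b = 0` then
`E4 a 0 i j k l + E4 a 0 k l i j = E4 a a i j k l` is in `T`. -/
theorem exists_pair (hX : 8 ≤ Fintype.card X) {T : AddSubgroup (X → X → ZMod ℓ)} (hT : Stab T) {t : X → X → ZMod ℓ} (ht : t ∈ T)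
    {i j k l : X} (hn : [i, j, k, l].Nodup) (hm : mm t i j k l ≠ 0) :
    ∃ a b : ZMod ℓ, a ≠ 0 ∧ b ≠ 0 ∧ ∀ i j k l : X, [i, j, k, l].Nodup → E4 a b i j k l ∈ T := by
  obtain ⟨i₁, j₁, k₁, l₁, hn1, hd⟩ := amb_four hX i j k l
  have hQ : mm t i j k l =
      (mm t i₁ j₁ k₁ l₁ + mm t i₁ i k₁ l₁ + mm t i₁ j₁ k₁ k + mm t i₁ i k₁ k)
      - (mm t i₁ j₁ k₁ l₁ + mm t i₁ j k₁ l₁ + mm t i₁ j₁ k₁ k + mm t i₁ j k₁ k)
      - (mm t i₁ j₁ k₁ l₁ + mm t i₁ i k₁ l₁ + mm t i₁ j₁ k₁ l + mm t i₁ i k₁ l)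
      + (mm t i₁ j₁ k₁ l₁ + mm t i₁ j k₁ l₁ + mm t i₁ j₁ k₁ l + mm t i₁ j k₁ l) := by
    unfold mm
    ring
  have key : ∃ a b p q : X, [i₁, j₁, a, k₁, l₁, b, p, q].Nodup ∧
      mm t i₁ j₁ k₁ l₁ + mm t i₁ a k₁ l₁ + mm t i₁ j₁ k₁ b + mm t i₁ a k₁ b ≠ 0 := by
    by_contra hno
    push Not at hno
    have hd' : ∀ u ∈ [i₁, j₁, k₁, l₁], u ≠ i ∧ u ≠ j ∧ u ≠ k ∧ u ≠ l := by
      intro u hu
      have := hd u hu
      simpa [not_or] using this
    have a1 := hd' i₁ (by simp)
    have a2 := hd' j₁ (by simp)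
    have a3 := hd' k₁ (by simp)
    have a4 := hd' l₁ (by simp)
    simp only [List.nodup_cons, List.mem_cons, List.not_mem_nil, or_false, not_or, not_false_eq_true, List.nodup_nil,
      and_true] at hn hn1
    have nd : ∀ a b p q : X, a ∈ [i, j, k, l] → b ∈ [i, j, k, l] → p ∈ [i, j, k, l] → q ∈ [i, j, k, l] →
        [a, b, p, q].Nodup → [i₁, j₁, a, k₁, l₁, b, p, q].Nodup := by
      intro a b p q ha hb hp hq h
      have c1 : ∀ u ∈ [i, j, k, l], i₁ ≠ u ∧ j₁ ≠ u ∧ k₁ ≠ u ∧ l₁ ≠ u := by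
        intro u hu
        simp only [List.mem_cons, List.not_mem_nil, or_false] at hu
        rcases hu with rfl | rfl | rfl | rfl <;> tauto
      have b1 := c1 a ha
      have b2 := c1 b hb
      have b3 := c1 p hp
      have b4 := c1 q hq
      simp only [List.nodup_cons, List.mem_cons, List.not_mem_nil, or_false, not_or, not_false_eq_true, List.nodup_nil,
        and_true] at h ⊢
      have := b1.2.2.1.symm
      have := b1.2.2.2.symm
      tauto
    apply hm
    rw [hQ, hno i k j l (nd i k j l (by simp) (by simp) (by simp) (by simp) (by simp; tauto)),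
      hno j k i l (nd j k i l (by simp) (by simp) (by simp) (by simp) (by simp; tauto)),
      hno i l j k (nd i l j k (by simp) (by simp) (by simp) (by simp) (by simp; tauto)),
      hno j l i k (nd j l i k (by simp) (by simp) (by simp) (by simp) (by simp; tauto))]
    ring
  obtain ⟨a, b, p, q, hnd, hne⟩ := key
  have h3 := three hT ht hnd
  set A := mm t i₁ j₁ k₁ l₁ + mm t i₁ a k₁ l₁ + mm t i₁ j₁ k₁ b + mm t i₁ a k₁ b
  set B := mm t k₁ l₁ i₁ j₁ + mm t k₁ l₁ i₁ a + mm t k₁ b i₁ j₁ + mm t k₁ b i₁ a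
  have hall : ∀ i j k l : X, [i, j, k, l].Nodup → E4 A B i j k l ∈ T := fun i j k l h =>
    move hT hX hn1 h3 h
  by_cases hB : B = 0
  · refine ⟨A, A, hne, hne, fun i j k l h => ?_⟩
    have h1 := hall i j k l h
    have h2 := hall k l i j (by
      simp only [List.nodup_cons, List.mem_cons, List.not_mem_nil, or_false, not_or, not_false_eq_true, List.nodup_nil,
        and_true] at h ⊢
      tauto)
    rw [hB] at h1 h2
    have h4 := T.add_mem h1 h2
    have : E4 A 0 i j k l + E4 A 0 k l i j = E4 A A i j k l := by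
      funext x y
      simp only [E4, Pi.add_apply]
      ring
    rwa [this] at h4
  · exact ⟨A, B, hne, hB, hall⟩

end Pool.Agent.Lib.MP_89bcae_ag.Ep.Amp
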