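import Mathlib
import Pool.Agent.Lib.MP_89bcae_ag.Ep.AmD

/-!
# The scalar matrices
-/

open scoped Classical

namespace Pool.Agent.Lib.MP_89bcae_ag.Ep.Amp

variable {ℓ : ℕ} {X : Type} [Fintype X]

private lemma amc_exists_notMem {s : Finset X} (h : s.card < Fintype.card X) : ∃ x, x ∉ s := by
  by_contra hcon
  push Not at hcon
  have : s = Finset.univ := Finset.eq_univ_iff_forall.2 hcon
  rw [this, Finset.card_univ] at h
  exact lt_irrefl _ h

omit [Fintype X] in
private lemma amc_ee (i j y : X) :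
    ee ℓ i j y = (if y = i then 1 else 0) - (if y = j then 1 else 0) := by
  unfold ee
  rw [Pi.sub_apply, Pi.single_apply, Pi.single_apply]

private lemma amc_step (hX : 8 ≤ Fintype.card X) (hd : ℓ ∣ Fintype.card X) {t : X → X → ZMod ℓ}
    (hr : ∀ x, t x ∈ S0 ℓ X) (hm : ∀ i j k l : X, [i, j, k, l].Nodup → mm t i j k l = 0) {i j : X}
    (hij : i ≠ j) : ∃ μ c : ZMod ℓ, ∀ y, t i y - t j y = μ * ee ℓ i j y + c := by
  obtain ⟨k0, hk0⟩ := amc_exists_notMem (s := ({i, j} : Finset X)) (by
    have := Finset.card_le_two (a := i) (b := j)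
    omega)
  simp only [Finset.mem_insert, Finset.mem_singleton, not_or] at hk0
  obtain ⟨c, hc⟩ : ∃ c, c = t i k0 - t j k0 := ⟨_, rfl⟩
  have hout : ∀ y, y ≠ i → y ≠ j → t i y - t j y - c = 0 := by
    intro y hyi hyj
    by_cases hy : y = k0
    · rw [hy, hc, sub_self]
    · have h1 := hm i j y k0 (by
        simp only [List.nodup_cons, List.mem_cons, List.not_mem_nil, or_false, not_or,
          not_false_eq_true, List.nodup_nil, and_true]
        exact ⟨⟨hij, Ne.symm hyi, Ne.symm hk0.1⟩, ⟨Ne.symm hyj, Ne.symm hk0.2⟩, hy⟩)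
      unfold mm at h1
      rw [hc, ← h1]
      ring
  have hsum : ∑ y, (t i y - t j y - c) = 0 := by
    have h1 : ∑ y, t i y = 0 := mem_S0.1 (hr i)
    have h2 : ∑ y, t j y = 0 := mem_S0.1 (hr j)
    rw [Finset.sum_sub_distrib, Finset.sum_sub_distrib, h1, h2, Finset.sum_const,
      Finset.card_univ, nsmul_eq_mul, (ZMod.natCast_eq_zero_iff _ _).2 hd]
    ring
  have hsum2 : ∑ y, (t i y - t j y - c) = (t i i - t j i - c) + (t i j - t j j - c) := by
    rw [← Finset.sum_pair hij (f := fun y => t i y - t j y - c)]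
    symm
    apply Finset.sum_subset (Finset.subset_univ _)
    intro y _ hy
    simp only [Finset.mem_insert, Finset.mem_singleton, not_or] at hy
    exact hout y hy.1 hy.2
  rw [hsum] at hsum2
  refine ⟨t i i - t j i - c, c, fun y => ?_⟩
  rw [amc_ee]
  by_cases hyi : y = i
  · rw [hyi, if_pos rfl, if_neg hij]
    ring
  by_cases hyj : y = j
  · rw [hyj, if_pos rfl, if_neg (Ne.symm hij)]
    linear_combination -hsum2
  · rw [if_neg hyi, if_neg hyj]
    linear_combination hout y hyi hyj

/-- Let `i ≠ j` and `g = t i - t j` (a function of `y`). By `hm` it has the same value `c` at all the points different from `i` and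
`j`, and its sum is `0`; `g - c` has sum `0` too (as `ℓ` divides the number of the points) and is `0` outside of `{i, j}`, so
`t i y - t j y = μ (i, j) * ee ℓ i j y + c (i, j)` for all `y`. For distinct `i`, `j`, `k` the sum of these formulas for `(i, j)` and
`(j, k)` is the formula for `(i, k)`: at a fourth point: `c (i, j) + c (j, k) = c (i, k)`; so at `i`: `μ (i, j) = μ (i, k)`, and at
`k`: `μ (j, k) = μ (i, k)`. Hence `μ (i, j)` does not depend on the pair `i ≠ j` (for instance `μ (i, j) = μ (i, k) = μ (j, k)` for all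
distinct `i`, `j`, `k`; fix two points `o ≠ o'` and compare with them). So for `f` of sum `0`, with a fixed point `o`:
`∑ x, f x * t x y = ∑ x, f x * (t x y - t o y) = ∑ x ≠ o, f x * (μ * ee ℓ x o y + c (x, o))
= μ * f y + ∑ x ≠ o, f x * c (x, o)` (for `y = o` use `∑ x ≠ o, f x = - f o`). -/
theorem scalar (hX : 8 ≤ Fintype.card X) (hd : ℓ ∣ Fintype.card X) {t : X → X → ZMod ℓ} (hr : ∀ x, t x ∈ S0 ℓ X)
    (hm : ∀ i j k l : X, [i, j, k, l].Nodup → mm t i j k l = 0) :
    ∃ μ : ZMod ℓ, ∀ f ∈ S0 ℓ X, ∃ c, ∀ y, ∑ x, f x * t x y = μ * f y + c := by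
  have hne : Nonempty X := Fintype.card_pos_iff.1 (by omega)
  obtain ⟨o⟩ := hne
  obtain ⟨o', ho'⟩ := amc_exists_notMem (s := ({o} : Finset X)) (by
    rw [Finset.card_singleton]
    omega)
  rw [Finset.mem_singleton] at ho'
  have hstep : ∀ i j : X, ∃ μ c : ZMod ℓ, i ≠ j → ∀ y, t i y - t j y = μ * ee ℓ i j y + c := by
    intro i j
    by_cases hij : i = j
    · exact ⟨0, 0, fun h => absurd hij h⟩
    · obtain ⟨μ, c, h⟩ := amc_step hX hd hr hm hij
      exact ⟨μ, c, fun _ => h⟩
  choose μ c hμ using hstep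
  -- comparison
  have hcmp : ∀ i j k : X, i ≠ j → i ≠ k → j ≠ k → μ j k = μ i k := by
    intro i j k hij hik hjk
    obtain ⟨z, hz⟩ := amc_exists_notMem (s := ({i, j, k} : Finset X)) (by
      have := Finset.card_le_three (a := i) (b := j) (c := k)
      omega)
    simp only [Finset.mem_insert, Finset.mem_singleton, not_or] at hz
    obtain ⟨hzi, hzj, hzk⟩ := hz
    have a1 := hμ i j hij z
    have a2 := hμ j k hjk z
    have a3 := hμ i k hik z
    rw [amc_ee, if_neg hzi, if_neg hzj] at a1
    rw [amc_ee, if_neg hzj, if_neg hzk] at a2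
    rw [amc_ee, if_neg hzi, if_neg hzk] at a3
    have b1 := hμ i j hij k
    have b2 := hμ j k hjk k
    have b3 := hμ i k hik k
    rw [amc_ee, if_neg (Ne.symm hik), if_neg (Ne.symm hjk)] at b1
    rw [amc_ee, if_neg (Ne.symm hjk), if_pos rfl] at b2
    rw [amc_ee, if_neg (Ne.symm hik), if_pos rfl] at b3
    linear_combination b1 + b2 - b3 - a1 - a2 + a3
  have hconst : ∀ x, x ≠ o → μ x o = μ o' o := by
    intro x hx
    by_cases hxo : x = o'
    · rw [hxo]
    · exact hcmp o' x o (Ne.symm hxo) ho' hx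
  have hall : ∀ x y, t x y - t o y = μ o' o * ee ℓ x o y + (if x = o then 0 else c x o) := by
    intro x y
    by_cases hx : x = o
    · rw [hx, if_pos rfl, amc_ee, sub_self, sub_self, mul_zero, add_zero]
    · rw [if_neg hx, hμ x o hx y, hconst x hx]
  refine ⟨μ o' o, fun f hf => ⟨∑ x, f x * (if x = o then 0 else c x o), fun y => ?_⟩⟩
  have hf0 : ∑ x, f x = 0 := mem_S0.1 hf
  have e1 : ∀ x, f x * t x y = f x * t o y + (μ o' o * (if y = x then f x else 0) -
      μ o' o * (if y = o then 1 else 0) * f x) + f x * (if x = o then 0 else c x o) := by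
    intro x
    have h1 := hall x y
    rw [amc_ee] at h1
    have h2 : (if y = x then f x else 0) = f x * (if y = x then (1 : ZMod ℓ) else 0) := by
      rw [mul_ite, mul_one, mul_zero]
    rw [h2]
    linear_combination f x * h1
  rw [Finset.sum_congr rfl (fun x _ => e1 x), Finset.sum_add_distrib, Finset.sum_add_distrib,
    ← Finset.sum_mul, hf0, zero_mul, zero_add, Finset.sum_sub_distrib, ← Finset.mul_sum,
    ← Finset.mul_sum, hf0, mul_zero, sub_zero, Finset.sum_ite_eq, if_pos (Finset.mem_univ y)]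

end Pool.Agent.Lib.MP_89bcae_ag.Ep.Amp
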