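import Mathlib
import Pool.Agent.Lib.MP_89bcae_ag.Ep.AmD

/-!
# An injective matrix
-/

open scoped Classical

namespace Pool.Agent.Lib.MP_89bcae_ag.Ep.Amp

variable {ℓ : ℕ} [Fact ℓ.Prime] {X : Type} [Fintype X]

omit [Fintype X] in
private lemma ame_apply (i j y : X) : ee ℓ i j y = (if y = i then 1 else 0) - (if y = j then 1 else 0) := by
  simp [ee, Pi.single_apply]

private lemma ame_sum (f : X → ZMod ℓ) (i j : X) : ∑ x, f x * ee ℓ i j x = f i - f j := by
  simp only [ame_apply, mul_sub, Finset.sum_sub_distrib, mul_ite, mul_one, mul_zero,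
    Finset.sum_ite_eq', Finset.mem_univ, if_true]

private lemma ame_E4 (f : X → ZMod ℓ) (a b : ZMod ℓ) (i j k l y : X) :
    ∑ x, f x * E4 a b i j k l x y = a * (f i - f j) * ee ℓ k l y + b * (f k - f l) * ee ℓ i j y := by
  rw [← ame_sum f i j, ← ame_sum f k l]
  simp only [E4, Finset.mul_sum, Finset.sum_mul]
  rw [← Finset.sum_add_distrib]
  exact Finset.sum_congr rfl fun x _ => by ring

/-- Numbers of the points. -/
private lemma ame_num {n : ℕ} (hn : Fintype.card X = n) (hn0 : 0 < n) :
    ∃ z : ℕ → X, (∀ i < n, ∀ j < n, z i = z j → i = j) ∧ ∀ x, ∃ i < n, z i = x := by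
  let e : X ≃ Fin n := Fintype.equivFinOfCardEq hn
  refine ⟨fun m => if h : m < n then e.symm ⟨m, h⟩ else e.symm ⟨0, hn0⟩, ?_, ?_⟩
  · intro i hi j hj hij
    simp only [dif_pos hi, dif_pos hj] at hij
    have := e.symm.injective hij
    exact congrArg Fin.val this
  · intro x
    refine ⟨(e x : ℕ), (e x).2, ?_⟩
    simp only [dif_pos (e x).2]
    exact e.symm_apply_apply x

/-- Let the number of the points be `2 h + 2`, `h ≥ 3`, and number them: `z 0, ..., z (2 h + 1)` (`Fintype.equivFin`; a function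
`z : ℕ → X` injective on the numbers `< 2 h + 2` and surjective may be handy). Take
`t = ∑ m ∈ range h, E4 a b (z m) (z (m + 1)) (z (m + h)) (z (m + h + 1))`; the four points are distinct as `h ≥ 2`. For all `f`, with
`d m = f (z m) - f (z (m + 1))`:
`∑ x, f x * t x y = ∑ m ∈ range h, (a * d m * ee (z (m + h)) (z (m + h + 1)) y + b * d (m + h) * ee (z m) (z (m + 1)) y)
= ∑ m ∈ range (2 h), g m * ee (z m) (z (m + 1)) y`, with `g m = b * d (m + h)` for `m < h` and `g m = a * d (m - h)` for `h ≤ m < 2 h`.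
If this is the constant `c` then `c = 0` (take `y = z (2 h + 1)`), so `g 0 = 0` (`y = z 0`), and `g m = g (m - 1)`
(`y = z m`, `1 ≤ m < 2 h`), so all the `g m` are `0`, so `d m = 0` for all `m < 2 h`, so
`f (z 0) = ... = f (z (2 h))`; the sum of `f` is `0` and `ℓ` divides `2 h + 2`, so `f (z (2 h + 1)) = - (2 h + 1) f (z 0) = f (z 0)`. -/
theorem inj_sum (hX : 8 ≤ Fintype.card X) (hX' : Even (Fintype.card X)) (hd : ℓ ∣ Fintype.card X)
    {T : AddSubgroup (X → X → ZMod ℓ)} {a b : ZMod ℓ} (ha : a ≠ 0) (hb : b ≠ 0)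
    (hT : ∀ i j k l : X, [i, j, k, l].Nodup → E4 a b i j k l ∈ T) :
    ∃ t ∈ T, ∀ f ∈ S0 ℓ X, (∃ c, ∀ y, ∑ x, f x * t x y = c) → f ∈ Cst ℓ X := by
  obtain ⟨h, hh3, hh⟩ : ∃ h : ℕ, 3 ≤ h ∧ Fintype.card X = 2 * h + 2 := by
    obtain ⟨k, hk⟩ := hX'
    exact ⟨k - 1, by omega, by omega⟩
  obtain ⟨z, hzi, hzs⟩ := ame_num hh (by omega)
  have hzne : ∀ {i j : ℕ}, i < 2 * h + 2 → j < 2 * h + 2 → i ≠ j → z i ≠ z j :=
    fun hi hj hij he => hij (hzi _ hi _ hj he)
  have hzero : ∀ {m k : ℕ}, m + 1 < 2 * h + 2 → k < 2 * h + 2 → m ≠ k → m + 1 ≠ k →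
      ee ℓ (z m) (z (m + 1)) (z k) = 0 := by
    intro m k hm hk h1 h2
    rw [ame_apply, if_neg (hzne hk (by omega) (Ne.symm h1)), if_neg (hzne hk hm (Ne.symm h2)), sub_zero]
  refine ⟨∑ m ∈ Finset.range h, E4 a b (z m) (z (m + 1)) (z (m + h)) (z (m + h + 1)), ?_, ?_⟩
  · refine sum_mem fun m hm => hT _ _ _ _ ?_
    have hm' := Finset.mem_range.1 hm
    simp only [List.nodup_cons, List.mem_cons, List.not_mem_nil, or_false, not_or, not_false_eq_true,
      List.nodup_nil, and_true]
    refine ⟨⟨hzne (by omega) (by omega) (by omega), hzne (by omega) (by omega) (by omega),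
      hzne (by omega) (by omega) (by omega)⟩, ⟨hzne (by omega) (by omega) (by omega),
      hzne (by omega) (by omega) (by omega)⟩, hzne (by omega) (by omega) (by omega)⟩
  · rintro f hf ⟨c, hc⟩
    obtain ⟨d, hd'⟩ : ∃ d : ℕ → ZMod ℓ, ∀ m, d m = f (z m) - f (z (m + 1)) := ⟨_, fun _ => rfl⟩
    obtain ⟨g, hg⟩ : ∃ g : ℕ → ZMod ℓ, ∀ m, g m = if m < h then b * d (m + h) else a * d (m - h) :=
      ⟨_, fun _ => rfl⟩
    have hsum : ∀ y, ∑ m ∈ Finset.range (h + h), g m * ee ℓ (z m) (z (m + 1)) y = c := by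
      intro y
      rw [← hc y, Finset.sum_range_add]
      have h1 : ∑ x, f x * (∑ m ∈ Finset.range h,
          E4 a b (z m) (z (m + 1)) (z (m + h)) (z (m + h + 1))) x y =
          ∑ m ∈ Finset.range h, ∑ x, f x * E4 a b (z m) (z (m + 1)) (z (m + h)) (z (m + h + 1)) x y := by
        rw [Finset.sum_comm]
        refine Finset.sum_congr rfl fun x _ => ?_
        rw [Finset.sum_apply, Finset.sum_apply, Finset.mul_sum]
      rw [h1, ← Finset.sum_add_distrib]
      refine Finset.sum_congr rfl fun m hm => ?_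
      have hm' := Finset.mem_range.1 hm
      rw [ame_E4, hg m, if_pos hm', hg (h + m), if_neg (by omega), show h + m - h = m by omega,
        show h + m + 1 = m + h + 1 by omega, show h + m = m + h by omega, hd', hd']
      ring
    have hc0 : c = 0 := by
      rw [← hsum (z (2 * h + 1))]
      refine Finset.sum_eq_zero fun m hm => ?_
      have hm' := Finset.mem_range.1 hm
      rw [hzero (by omega) (by omega) (by omega) (by omega), mul_zero]
    have hg0 : ∀ k, k < h + h → g k = 0 := by
      intro k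
      induction k using Nat.strong_induction_on with
      | _ k ih =>
        intro hk
        have h1 := hsum (z k)
        rw [hc0, Finset.sum_eq_single k] at h1
        · rw [ame_apply, if_pos rfl, if_neg (hzne (by omega) (by omega) (by omega)), sub_zero,
            mul_one] at h1
          exact h1
        · intro m hm hmk
          have hm' := Finset.mem_range.1 hm
          rcases Nat.lt_or_gt_of_ne hmk with hlt | hgt
          · rw [ih m hlt hm', zero_mul]
          · rw [hzero (by omega) (by omega) (by omega) (by omega), mul_zero]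
        · intro hk'
          exact absurd (Finset.mem_range.2 hk) hk'
    have hd0 : ∀ m, m < h + h → d m = 0 := by
      intro m hm
      by_cases hmh : m < h
      · have h1 := hg0 (m + h) (by omega)
        rw [hg, if_neg (by omega), show m + h - h = m by omega] at h1
        exact (mul_eq_zero.1 h1).resolve_left ha
      · have h1 := hg0 (m - h) (by omega)
        rw [hg, if_pos (by omega), show m - h + h = m by omega] at h1
        exact (mul_eq_zero.1 h1).resolve_left hb
    have hf0 : ∀ m, m ≤ h + h → f (z m) = f (z 0) := by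
      intro m
      induction m with
      | zero => intro _; rfl
      | succ m ih =>
        intro hm
        have h1 := hd0 m (by omega)
        rw [hd', sub_eq_zero] at h1
        rw [← h1]
        exact ih (by omega)
    have hlast : f (z (2 * h + 1)) = f (z 0) := by
      have h1 : ∑ x, (f x - f (z 0)) = f (z (2 * h + 1)) - f (z 0) := by
        refine Finset.sum_eq_single_of_mem _ (Finset.mem_univ _) fun x _ hx => ?_
        obtain ⟨i, hi, rfl⟩ := hzs x
        have hi' : i ≠ 2 * h + 1 := fun he => hx (by rw [he])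
        rw [hf0 i (by omega), sub_self]
      have h2 : ((Fintype.card X : ℕ) : ZMod ℓ) = 0 := (ZMod.natCast_eq_zero_iff _ _).2 hd
      rw [Finset.sum_sub_distrib, mem_S0.1 hf, Finset.sum_const, Finset.card_univ, nsmul_eq_mul, h2,
        zero_mul, sub_zero] at h1
      exact (sub_eq_zero.1 h1.symm)
    refine ⟨f (z 0), fun x => ?_⟩
    obtain ⟨i, hi, rfl⟩ := hzs x
    by_cases hi' : i = 2 * h + 1
    · rw [hi', hlast]
    · exact hf0 i (by omega)

end Pool.Agent.Lib.MP_89bcae_ag.Ep.Amp
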