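import Mathlib
import Pool.Agent.Lib.MP_89bcae_ag.Ep.AmB
import Pool.Agent.Lib.MP_89bcae_ag.Ep.AmC
import Pool.Agent.Lib.MP_89bcae_ag.Ep.AmE

/-!
# The groups of endomorphisms of the heart contain injective ones
-/

open scoped Classical

namespace Pool.Agent.Lib.MP_89bcae_ag.Ep.Amp

variable {ℓ : ℕ} [Fact ℓ.Prime] {X : Type} [Fintype X]

private theorem amf_row {t : X → X → ZMod ℓ} (ht : ∀ x, t x ∈ S0 ℓ X) (f : X → ZMod ℓ) :
    (fun y => ∑ x, f x * t x y) ∈ S0 ℓ X := by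
  rw [mem_S0, Finset.sum_comm]
  refine Finset.sum_eq_zero fun x _ => ?_
  rw [← Finset.mul_sum]
  have h := ht x
  rw [mem_S0] at h
  rw [h, mul_zero]

private theorem amf_ee (x o : X) : ee ℓ x o ∈ S0 ℓ X := by
  rw [mem_S0]
  unfold ee
  simp only [Pi.sub_apply, Finset.sum_sub_distrib, Finset.sum_pi_single', Finset.mem_univ, if_true]
  exact sub_self 1

private theorem amf_comp (τ : Equiv.Perm X) {f : X → ZMod ℓ} (hf : f ∈ S0 ℓ X) : f ∘ τ ∈ S0 ℓ X := by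
  rw [mem_S0] at hf ⊢
  rw [← hf]
  exact Equiv.sum_comp τ f

/-- all the homomorphisms have matrices -/
private theorem amf_mat {V : Type*} [AddCommGroup V] (φ : (X → ZMod ℓ) → V)
    (hadd : ∀ f ∈ S0 ℓ X, ∀ g ∈ S0 ℓ X, φ (f + g) = φ f + φ g) (hsurj : ∀ v, ∃ f ∈ S0 ℓ X, φ f = v)
    (o : X) (K : V →+ V) : ∃ t : X → X → ZMod ℓ, (∀ x, t x ∈ S0 ℓ X) ∧
      ∀ f ∈ S0 ℓ X, K (φ f) = φ (fun y => ∑ x, f x * t x y) := by
  have hℓ : NeZero ℓ := ⟨(Fact.out : ℓ.Prime).ne_zero⟩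
  choose t ht hφ using fun x : X => hsurj (K (φ (ee ℓ x o)))
  refine ⟨t, ht, fun f hf => ?_⟩
  let φ' : S0 ℓ X →+ V := AddMonoidHom.mk' (fun f => φ f) (fun f g => hadd f f.2 g g.2)
  have hφ' : ∀ g : S0 ℓ X, φ' g = φ (g : X → ZMod ℓ) := fun _ => rfl
  have hval : ∀ (c : ZMod ℓ) (g : X → ZMod ℓ), c.val • g = fun y => c * g y := by
    intro c g
    funext y
    rw [Pi.smul_apply, nsmul_eq_mul, ZMod.natCast_zmod_val]
  have e1 : f = ((∑ x, (f x).val • (⟨ee ℓ x o, amf_ee x o⟩ : S0 ℓ X) : S0 ℓ X) : X → ZMod ℓ) := by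
    rw [AddSubgroup.val_finsetSum]
    funext y
    rw [Finset.sum_apply]
    have h1 : ∀ x ∈ Finset.univ, (((f x).val • (⟨ee ℓ x o, amf_ee x o⟩ : S0 ℓ X) : S0 ℓ X) :
        X → ZMod ℓ) y = f x * (Pi.single x 1 : X → ZMod ℓ) y - f x * (Pi.single o 1 : X → ZMod ℓ) y := by
      intro x _
      show ((f x).val • ee ℓ x o) y = _
      rw [hval]
      show f x * ((Pi.single x 1 : X → ZMod ℓ) - (Pi.single o 1 : X → ZMod ℓ)) y = _
      rw [Pi.sub_apply, mul_sub]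
    rw [Finset.sum_congr rfl h1, Finset.sum_sub_distrib, ← Finset.sum_mul]
    rw [mem_S0] at hf
    rw [hf, zero_mul, sub_zero, Finset.sum_eq_single y]
    · rw [Pi.single_eq_same, mul_one]
    · intro x _ hx
      rw [Pi.single_eq_of_ne hx.symm, mul_zero]
    · intro h
      exact absurd (Finset.mem_univ y) h
  have e2 : (fun y => ∑ x, f x * t x y) =
      ((∑ x, (f x).val • (⟨t x, ht x⟩ : S0 ℓ X) : S0 ℓ X) : X → ZMod ℓ) := by
    rw [AddSubgroup.val_finsetSum]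
    funext y
    rw [Finset.sum_apply]
    refine Finset.sum_congr rfl fun x _ => ?_
    show _ = ((f x).val • t x) y
    rw [hval]
  rw [e2]
  conv_lhs => rw [e1]
  rw [← hφ', ← hφ', map_sum, map_sum, map_sum]
  refine Finset.sum_congr rfl fun x _ => ?_
  rw [map_nsmul, map_nsmul, map_nsmul, hφ', hφ', hφ x]

/-- `V` is the group of the functions of sum `0` modulo the constants. Call `t : X → X → ZMod ℓ` a matrix of `K : V →+ V` if all the rows
`t x` are in `S0 ℓ X` and `K (φ f) = φ (fun y => ∑ x, f x * t x y)` for all `f ∈ S0 ℓ X`.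
(1) All `K` have matrices: fix a point `o` and choose `t x ∈ S0 ℓ X` with `φ (t x) = K (φ (ee ℓ x o))`; for `f` of sum `0`
`f = ∑ x, f x • ee ℓ x o` (`φ` and `K` are additive, and multiples by elements of `ZMod ℓ` are sums).
(2) Let `T` be the group of the matrices of the elements of `A` (an `AddSubgroup (X → X → ZMod ℓ)`). It is stable (`Stab T`) by `hA`:
for `τ` even and `K'` given by `hA`, `K' (φ (f ∘ τ)) = φ (fun y => ∑ x, f x * t x (τ y)) = φ (fun y => ∑ x, f (τ x) * t (τ x) (τ y))`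
for all `f ∈ S0 ℓ X`, and every element of `S0 ℓ X` is `f ∘ τ` for an `f ∈ S0 ℓ X`.
(3) If for some `t ∈ T` and distinct `i`, `j`, `k`, `l` `mm t i j k l ≠ 0` then by `exists_pair` and `inj_sum` there is a matrix `t ∈ T`
of a `K ∈ A` such that: `K (φ f) = 0` implies (`hker`) that `fun y => ∑ x, f x * t x y` is constant, and so `f ∈ Cst ℓ X`, `φ f = 0`.
(4) If not, take `K ∈ A`, `K ≠ 0`, and a matrix `t` of it. By `scalar` there is a `μ` with
`K (φ f) = φ (fun y => μ * f y + c) = φ (fun y => μ * f y)` for all `f` (`hker` for the constant functions). `μ ≠ 0` as `K ≠ 0`,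
so `K (φ f) = 0` implies `μ f ∈ Cst ℓ X`, `f ∈ Cst ℓ X`, `φ f = 0`. -/
theorem exists_inj (hX : 8 ≤ Fintype.card X) (hX' : Even (Fintype.card X)) (hd : ℓ ∣ Fintype.card X) {V : Type*} [AddCommGroup V]
    (φ : (X → ZMod ℓ) → V) (hadd : ∀ f ∈ S0 ℓ X, ∀ g ∈ S0 ℓ X, φ (f + g) = φ f + φ g) (hsurj : ∀ v, ∃ f ∈ S0 ℓ X, φ f = v)
    (hker : ∀ f ∈ S0 ℓ X, φ f = 0 ↔ f ∈ Cst ℓ X) (A : AddSubgroup (V →+ V)) (hne : A ≠ ⊥)
    (hA : ∀ τ ∈ alternatingGroup X, ∀ K ∈ A, ∃ K' ∈ A, ∀ f ∈ S0 ℓ X, ∀ g ∈ S0 ℓ X, K (φ f) = φ g →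
      K' (φ (f ∘ τ)) = φ (g ∘ τ)) : ∃ K ∈ A, Function.Injective K := by
  have hne' : Nonempty X := Fintype.card_pos_iff.1 (by omega)
  obtain ⟨o⟩ := hne'
  let φ' : S0 ℓ X →+ V := AddMonoidHom.mk' (fun f => φ f) (fun f g => hadd f f.2 g g.2)
  have hφ' : ∀ g : S0 ℓ X, φ' g = φ (g : X → ZMod ℓ) := fun _ => rfl
  have hzero : φ 0 = 0 := map_zero φ'
  have hneg : ∀ f ∈ S0 ℓ X, φ (-f) = - φ f := fun f hf => map_neg φ' ⟨f, hf⟩
  let T : AddSubgroup (X → X → ZMod ℓ) :=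
    { carrier := {t | (∀ x, t x ∈ S0 ℓ X) ∧
        ∃ K ∈ A, ∀ f ∈ S0 ℓ X, K (φ f) = φ (fun y => ∑ x, f x * t x y)}
      zero_mem' := by
        refine ⟨fun x => (S0 ℓ X).zero_mem, 0, A.zero_mem, fun f _ => ?_⟩
        have h1 : (fun y => ∑ x, f x * (0 : X → X → ZMod ℓ) x y) = 0 := by
          funext y
          simp
        rw [h1, hzero, AddMonoidHom.zero_apply]
      add_mem' := by
        rintro t t' ⟨ht, K, hK, h⟩ ⟨ht', K', hK', h'⟩
        refine ⟨fun x => (S0 ℓ X).add_mem (ht x) (ht' x), K + K', A.add_mem hK hK', fun f hf => ?_⟩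
        have h1 : (fun y => ∑ x, f x * (t + t') x y) =
            (fun y => ∑ x, f x * t x y) + fun y => ∑ x, f x * t' x y := by
          funext y
          rw [Pi.add_apply, ← Finset.sum_add_distrib]
          refine Finset.sum_congr rfl fun x _ => ?_
          rw [Pi.add_apply, Pi.add_apply, mul_add]
        rw [h1, hadd _ (amf_row ht f) _ (amf_row ht' f), AddMonoidHom.add_apply, h f hf, h' f hf]
      neg_mem' := by
        rintro t ⟨ht, K, hK, h⟩
        refine ⟨fun x => (S0 ℓ X).neg_mem (ht x), -K, A.neg_mem hK, fun f hf => ?_⟩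
        have h1 : (fun y => ∑ x, f x * (-t) x y) = - fun y => ∑ x, f x * t x y := by
          funext y
          rw [Pi.neg_apply, ← Finset.sum_neg_distrib]
          refine Finset.sum_congr rfl fun x _ => ?_
          rw [Pi.neg_apply, Pi.neg_apply, mul_neg]
        rw [h1, hneg _ (amf_row ht f), AddMonoidHom.neg_apply, h f hf] }
  have hTmem : ∀ t, t ∈ T ↔ (∀ x, t x ∈ S0 ℓ X) ∧
      ∃ K ∈ A, ∀ f ∈ S0 ℓ X, K (φ f) = φ (fun y => ∑ x, f x * t x y) := fun t => Iff.rfl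
  have hStab : Stab T := by
    intro τ hτ t ht
    obtain ⟨hr, K, hK, hKt⟩ := (hTmem t).1 ht
    obtain ⟨K', hK', h⟩ := hA τ hτ K hK
    refine (hTmem _).2 ⟨fun x => ?_, K', hK', fun f hf => ?_⟩
    · exact amf_comp τ (hr (τ x))
    · have hf0 : f ∘ τ.symm ∈ S0 ℓ X := amf_comp τ.symm hf
      have h1 := h _ hf0 _ (amf_row hr (f ∘ τ.symm)) (hKt _ hf0)
      have h2 : (f ∘ τ.symm) ∘ τ = f := by
        funext x
        simp
      have h3 : (fun y => ∑ x, (f ∘ τ.symm) x * t x y) ∘ τ =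
          fun y => ∑ x, f x * t (τ x) (τ y) := by
        funext y
        show ∑ x, (f ∘ τ.symm) x * t x (τ y) = _
        rw [← Equiv.sum_comp τ]
        refine Finset.sum_congr rfl fun x _ => ?_
        rw [Function.comp_apply, Equiv.symm_apply_apply]
      rw [h2, h3] at h1
      exact h1
  by_cases hex : ∃ t ∈ T, ∃ i j k l : X, [i, j, k, l].Nodup ∧ mm t i j k l ≠ 0
  · obtain ⟨t, ht, i, j, k, l, hn, hm⟩ := hex
    obtain ⟨a, b, ha, hb, hE⟩ := exists_pair hX hStab ht hn hm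
    obtain ⟨t1, ht1, hinj⟩ := inj_sum hX hX' hd ha hb hE
    obtain ⟨hr, K, hK, hKt⟩ := (hTmem t1).1 ht1
    refine ⟨K, hK, (injective_iff_map_eq_zero K).2 fun v hv => ?_⟩
    obtain ⟨f, hf, rfl⟩ := hsurj v
    rw [hKt f hf, hker _ (amf_row hr f)] at hv
    rw [hker f hf]
    exact hinj f hf hv
  · push Not at hex
    rcases AddSubgroup.bot_or_exists_ne_zero A with h | ⟨K, hK, hK0⟩
    · exact absurd h hne
    obtain ⟨t, hr, hKt⟩ := amf_mat φ hadd hsurj o K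
    have ht : t ∈ T := (hTmem t).2 ⟨hr, K, hK, hKt⟩
    obtain ⟨μ, hμ⟩ := scalar hX hd hr (hex t ht)
    have hμ0 : μ ≠ 0 := by
      rintro rfl
      apply hK0
      ext v
      obtain ⟨f, hf, rfl⟩ := hsurj v
      rw [AddMonoidHom.zero_apply, hKt f hf, hker _ (amf_row hr f)]
      obtain ⟨c, hc⟩ := hμ f hf
      exact ⟨c, fun y => by
        have h1 := hc y
        rw [zero_mul, zero_add] at h1
        exact h1⟩
    refine ⟨K, hK, (injective_iff_map_eq_zero K).2 fun v hv => ?_⟩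
    obtain ⟨f, hf, rfl⟩ := hsurj v
    rw [hKt f hf, hker _ (amf_row hr f)] at hv
    obtain ⟨c, hc⟩ := hv
    obtain ⟨c', hc'⟩ := hμ f hf
    rw [hker f hf]
    refine ⟨μ⁻¹ * (c - c'), fun y => ?_⟩
    have h1 : μ * f y + c' = c := by
      rw [← hc' y]
      exact hc y
    rw [eq_inv_mul_iff_mul_eq₀ hμ0, ← h1, add_sub_cancel_right]

end Pool.Agent.Lib.MP_89bcae_ag.Ep.Amp
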