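import Mathlib
import Pool.Agent.Lib.MP_89bcae_ag.Ep.GDefs

/-!
# The heart of the permutation module modulo `ℓ` is irreducible
-/

open scoped Classical

namespace Pool.Agent.Lib.MP_89bcae_ag.Ep

variable {ℓ : ℕ} [Fact ℓ.Prime] {X : Type} [Fintype X]

private lemma hrt_exists_notMem {s : Finset X} (h : s.card < Fintype.card X) : ∃ x, x ∉ s := by
  by_contra hcon
  push Not at hcon
  have : s = Finset.univ := Finset.eq_univ_iff_forall.2 hcon
  rw [this, Finset.card_univ] at h
  exact lt_irrefl _ h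

private lemma hrt_perm {a b c : X} (h1 : a ≠ b) (h2 : a ≠ c) :
    Equiv.swap a b * Equiv.swap a c ∈ alternatingGroup X := by
  rw [Equiv.Perm.mem_alternatingGroup, Equiv.Perm.sign_mul, Equiv.Perm.sign_swap h1,
    Equiv.Perm.sign_swap h2]
  decide

omit [Fintype X] in
/-- The inverse of the three-cycle `swap a b * swap a c`. -/
private lemma hrt_cyc {a b c : X} (hab : a ≠ b) (hac : a ≠ c) (hbc : b ≠ c) :
    (Equiv.swap a b * Equiv.swap a c)⁻¹ a = b ∧ (Equiv.swap a b * Equiv.swap a c)⁻¹ b = c ∧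
      (Equiv.swap a b * Equiv.swap a c)⁻¹ c = a ∧
        ∀ x, x ≠ a → x ≠ b → x ≠ c → (Equiv.swap a b * Equiv.swap a c)⁻¹ x = x := by
  refine ⟨?_, ?_, ?_, ?_⟩
  · rw [Equiv.Perm.inv_eq_iff_eq, Equiv.Perm.mul_apply,
      Equiv.swap_apply_of_ne_of_ne hab.symm hbc, Equiv.swap_apply_right]
  · rw [Equiv.Perm.inv_eq_iff_eq, Equiv.Perm.mul_apply, Equiv.swap_apply_right,
      Equiv.swap_apply_left]
  · rw [Equiv.Perm.inv_eq_iff_eq, Equiv.Perm.mul_apply, Equiv.swap_apply_left,
      Equiv.swap_apply_of_ne_of_ne hac.symm hbc.symm]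
  · intro x h1 h2 h3
    rw [Equiv.Perm.inv_eq_iff_eq, Equiv.Perm.mul_apply,
      Equiv.swap_apply_of_ne_of_ne h1 h3, Equiv.swap_apply_of_ne_of_ne h1 h2]

/-- `δ_y - δ_x` -/
private noncomputable def hrt_pair (ℓ : ℕ) (x y : X) : X → ZMod ℓ :=
  fun z => (if z = y then 1 else 0) - (if z = x then 1 else 0)

omit [Fintype X] in
/-- multiples -/
private lemma hrt_smul {M : AddSubgroup (X → ZMod ℓ)} {f : X → ZMod ℓ} (hf : f ∈ M) (r : ZMod ℓ) :
    (fun x => r * f x) ∈ M := by
  have e : (fun x => r * f x) = r.val • f := by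
    funext x
    have hne : NeZero ℓ := ⟨(Fact.out : ℓ.Prime).ne_zero⟩
    rw [Pi.smul_apply, nsmul_eq_mul, ZMod.natCast_zmod_val]
  rw [e]
  exact M.nsmul_mem hf _

/-- transport of a pair -/
private lemma hrt_transport {M : AddSubgroup (X → ZMod ℓ)}
    (hst : ∀ g ∈ alternatingGroup X, ∀ f ∈ M, (fun x => f (g⁻¹ x)) ∈ M)
    {u v w z : X} (huw : u ≠ w) (hvw : v ≠ w) (huz : u ≠ z) (hvz : v ≠ z) (hwz : w ≠ z)
    (huv : u ≠ v) (h : hrt_pair ℓ u v ∈ M) : hrt_pair ℓ u w ∈ M := by
  have hg : Equiv.swap v z * Equiv.swap v w ∈ alternatingGroup X := hrt_perm hvz hvw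
  have := hst _ hg _ h
  have e : (fun x => hrt_pair ℓ u v ((Equiv.swap v z * Equiv.swap v w)⁻¹ x)) = hrt_pair ℓ u w := by
    funext x
    unfold hrt_pair
    have h1 : ((Equiv.swap v z * Equiv.swap v w)⁻¹ x = u) ↔ x = u := by
      rw [Equiv.Perm.inv_eq_iff_eq]
      constructor
      · rintro rfl
        rw [Equiv.Perm.mul_apply, Equiv.swap_apply_of_ne_of_ne huv huw,
          Equiv.swap_apply_of_ne_of_ne huv huz]
      · rintro rfl
        rw [Equiv.Perm.mul_apply, Equiv.swap_apply_of_ne_of_ne huv huw,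
          Equiv.swap_apply_of_ne_of_ne huv huz]
    have h2 : ((Equiv.swap v z * Equiv.swap v w)⁻¹ x = v) ↔ x = w := by
      rw [Equiv.Perm.inv_eq_iff_eq, Equiv.Perm.mul_apply, Equiv.swap_apply_left,
        Equiv.swap_apply_of_ne_of_ne hvw.symm hwz]
    simp only [h1, h2]
  rw [e] at this
  exact this

/-- A group of functions of sum `0`, stable under the even permutations, which contains a nonconstant function contains all the
functions of sum `0`. Proof: let `f ∈ M`, `f a ≠ f b`, let `c` be another point. The difference `h` of `x ↦ f (g x)`, for `g` the cycle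
`swap a b * swap b c` (or its inverse), and `f` is in `M`, is `0` outside `{a, b, c}` and is not `0`; let `h x ≠ 0`,
with `x ∈ {a, b, c}`. Let `d`, `e` be two points outside `{a, b, c}` and `g'` the cycle of length `3` of `x`, `d`, `e`: the difference of
`y ↦ h (g' y)` and `h` is `h x (δ_d - δ_x)` or `h x (δ_e - δ_x)`, so by multiples (`ZMod ℓ` is generated by `h x`) `δ_d - δ_x ∈ M` (or with `e`).
By the even permutations (`2`-transitive, `card ≥ 4`) all the `δ_i - δ_j` are in `M`, and they generate the functions of sum `0`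
(`f = ∑ x, f x (δ_x - δ_j)`). Compare `heart_irreducible` in `Xs/Hrt.lean` (the case `ℓ = 2`). -/
theorem heart_irreducible (hX : 5 ≤ Fintype.card X) (M : AddSubgroup (X → ZMod ℓ))
    (hM : ∀ g ∈ alternatingGroup X, ∀ f ∈ M, (fun x => f (g⁻¹ x)) ∈ M) {f : X → ZMod ℓ} (hf : f ∈ M)
    (hf' : f ∉ Cst ℓ X) (f' : X → ZMod ℓ) (hf0 : ∑ x, f' x = 0) : f' ∈ M := by
  -- two points with different values
  have hab : ∃ a b, f a ≠ f b := by
    by_contra hcon
    push Not at hcon
    have hne : Nonempty X := Fintype.card_pos_iff.1 (by omega)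
    obtain ⟨x0⟩ := hne
    exact hf' ⟨f x0, fun x => hcon x x0⟩
  obtain ⟨a, b, hab⟩ := hab
  have hne : a ≠ b := fun h => hab (by rw [h])
  obtain ⟨c, hc⟩ := hrt_exists_notMem (s := ({a, b} : Finset X)) (by
    have := Finset.card_le_two (a := a) (b := b)
    omega)
  simp only [Finset.mem_insert, Finset.mem_singleton, not_or] at hc
  obtain ⟨hca, hcb⟩ := hc
  obtain ⟨ia, ib, ic, ix⟩ := hrt_cyc hne (Ne.symm hca) (Ne.symm hcb)
  have hmem := M.sub_mem (hM _ (hrt_perm hne (Ne.symm hca)) _ hf) hf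
  obtain ⟨h, hh⟩ : ∃ h : X → ZMod ℓ, h = (fun x => f ((Equiv.swap a b * Equiv.swap a c)⁻¹ x)) - f := ⟨_, rfl⟩
  rw [← hh] at hmem
  have ha0 : h a ≠ 0 := by
    rw [hh, Pi.sub_apply]
    show f ((Equiv.swap a b * Equiv.swap a c)⁻¹ a) - f a ≠ 0
    rw [ia]
    intro h0
    exact hab (sub_eq_zero.1 h0).symm
  have hout : ∀ x, x ≠ a → x ≠ b → x ≠ c → h x = 0 := by
    intro x h1 h2 h3
    rw [hh, Pi.sub_apply]
    show f ((Equiv.swap a b * Equiv.swap a c)⁻¹ x) - f x = 0
    rw [ix x h1 h2 h3, sub_self]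
  -- two more points
  obtain ⟨d, hd⟩ := hrt_exists_notMem (s := ({a, b, c} : Finset X)) (by
    have := Finset.card_le_three (a := a) (b := b) (c := c)
    omega)
  simp only [Finset.mem_insert, Finset.mem_singleton, not_or] at hd
  obtain ⟨hda, hdb, hdc⟩ := hd
  obtain ⟨e, he⟩ := hrt_exists_notMem (s := ({a, b, c, d} : Finset X)) (by
    have := Finset.card_le_four (a := a) (b := b) (c := c) (d := d)
    omega)
  simp only [Finset.mem_insert, Finset.mem_singleton, not_or] at he
  obtain ⟨hea, heb, hec, hed⟩ := he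
  have hd0 : h d = 0 := hout d hda hdb hdc
  have he0 : h e = 0 := hout e hea heb hec
  obtain ⟨ja, jd, je, jx⟩ := hrt_cyc (Ne.symm hda) (Ne.symm hea) (Ne.symm hed)
  have hmem2 := M.sub_mem (hM _ (hrt_perm (Ne.symm hda) (Ne.symm hea)) _ hmem) hmem
  have hp : hrt_pair ℓ a e ∈ M := by
    have e1 := hrt_smul hmem2 (h a)⁻¹
    have e2 : (fun x => (h a)⁻¹ * ((fun x => h ((Equiv.swap a d * Equiv.swap a e)⁻¹ x)) - h) x) =
        hrt_pair ℓ a e := by
      funext x
      rw [Pi.sub_apply]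
      show (h a)⁻¹ * (h ((Equiv.swap a d * Equiv.swap a e)⁻¹ x) - h x) = _
      unfold hrt_pair
      by_cases k1 : x = a
      · rw [k1, ja, hd0, if_neg (Ne.symm hea), if_pos rfl, zero_sub, zero_sub, mul_neg,
          inv_mul_cancel₀ ha0]
      by_cases k2 : x = d
      · rw [k2, jd, he0, hd0, if_neg (Ne.symm hed), if_neg hda, sub_zero, mul_zero]
      by_cases k3 : x = e
      · rw [k3, je, he0, if_pos rfl, if_neg hea, sub_zero, sub_zero, inv_mul_cancel₀ ha0]
      · rw [jx x k1 k2 k3, sub_self, mul_zero, if_neg k3, if_neg k1, sub_zero]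
    rw [e2] at e1
    exact e1
  -- all pairs with `a`
  have hall : ∀ w, hrt_pair ℓ a w ∈ M := by
    intro w
    by_cases h1 : a = w
    · have e1 : hrt_pair ℓ a w = 0 := by
        funext z
        unfold hrt_pair
        rw [h1, sub_self]
        rfl
      rw [e1]
      exact M.zero_mem
    by_cases h2 : e = w
    · rw [← h2]
      exact hp
    obtain ⟨z, hz⟩ := hrt_exists_notMem (s := ({a, e, w} : Finset X)) (by
      have := Finset.card_le_three (a := a) (b := e) (c := w)
      omega)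
    simp only [Finset.mem_insert, Finset.mem_singleton, not_or] at hz
    exact hrt_transport hM h1 h2 (Ne.symm hz.1) (Ne.symm hz.2.1) (Ne.symm hz.2.2) (Ne.symm hea) hp
  have e : f' = ∑ x, fun y => f' x * hrt_pair ℓ a x y := by
    funext y
    rw [Finset.sum_apply]
    have e1 : ∀ x, f' x * hrt_pair ℓ a x y =
        (if y = x then f' x else 0) - f' x * (if y = a then 1 else 0) := by
      intro x
      unfold hrt_pair
      rw [mul_sub, mul_ite, mul_one, mul_zero]
    rw [Finset.sum_congr rfl (fun x _ => e1 x), Finset.sum_sub_distrib, ← Finset.sum_mul, hf0,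
      zero_mul, sub_zero, Finset.sum_ite_eq, if_pos (Finset.mem_univ y)]
  rw [e]
  exact M.sum_mem fun x _ => hrt_smul (hall x) (f' x)

end Pool.Agent.Lib.MP_89bcae_ag.Ep
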