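import Mathlib
import Pool.Agent.Lib.MP_89bcae_ag.Ep.AmF
import Pool.Agent.Lib.MP_89bcae_ag.Ep.Hrt
import Pool.Agent.Lib.MP_89bcae_ag.Zt.Rich

/-!
# The heart is ample
-/

open scoped Classical

namespace Pool.Agent.Lib.MP_89bcae_ag.Ep.Amp

variable {ℓ : ℕ} [Fact ℓ.Prime] {X : Type} [Fintype X] {Γ W : Type*} [Group Γ] [AddCommGroup W] [DistribMulAction Γ W]

/-- As `ample_of_perm` in `Xs/Amp.lean` (the case `ℓ = 2` and all permutations), with `heart_irreducible` (`Ep/Hrt.lean`) in place of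
`irr`: (1) `U` is finite; (2) a stable subgroup `N ≤ U`, which contains `φ f` for an `f ∈ S0 ℓ X` which is not constant, is `U` (apply
`heart_irreducible` to `{f ∈ S0 ℓ X | φ f ∈ N}`); so a nonzero stable subgroup `N ≤ U` is `U`, and the kernel of `φ` in `S0 ℓ X` is
`Cst ℓ X` (the constants are in `S0 ℓ X`, as `ℓ` divides the number of the points); (3) apply `exists_inj` to `V = N = U`, with
`φ` with values in `N` (outside of `S0 ℓ X` define it to be `0`); its last hypothesis follows from the hypothesis `hA` of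
`ZInj.Ample` and `hact`. -/
theorem ample_of_perm (hX : 8 ≤ Fintype.card X) (hX' : Even (Fintype.card X)) (hd : ℓ ∣ Fintype.card X) (U : AddSubgroup W)
    (φ : (X → ZMod ℓ) → W) (hadd : ∀ f ∈ S0 ℓ X, ∀ g ∈ S0 ℓ X, φ (f + g) = φ f + φ g)
    (hmem : ∀ f ∈ S0 ℓ X, φ f ∈ U) (hsurj : ∀ u ∈ U, ∃ f ∈ S0 ℓ X, φ f = u) (hcst : ∀ f ∈ Cst ℓ X, φ f = 0)
    (hact : ∀ τ ∈ alternatingGroup X, ∃ γ : Γ, ∀ f ∈ S0 ℓ X, γ • φ f = φ (f ∘ τ)) : ZInj.Ample Γ U := by
  have hzero : φ 0 = 0 := by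
    have h1 := hadd 0 (zero_mem _) 0 (zero_mem _)
    rw [add_zero] at h1
    exact left_eq_add.1 h1
  have hneg : ∀ f ∈ S0 ℓ X, φ (-f) = -φ f := by
    intro f hf
    have h1 := hadd f hf (-f) (neg_mem hf)
    rw [add_neg_cancel, hzero] at h1
    exact (neg_eq_of_add_eq_zero_right h1.symm).symm
  have hst0 : ∀ τ : Equiv.Perm X, ∀ f ∈ S0 ℓ X, f ∘ τ ∈ S0 ℓ X := by
    intro τ f hf
    rw [mem_S0] at hf ⊢
    rw [← hf]
    exact Equiv.sum_comp τ f
  have hfin : Finite U := by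
    have h1 : (U : Set W) ⊆ Set.range φ := by
      intro u hu
      obtain ⟨f, _, hf⟩ := hsurj u hu
      exact ⟨f, hf⟩
    have : NeZero ℓ := ⟨(Fact.out : ℓ.Prime).ne_zero⟩
    exact (Set.finite_range φ).subset h1
  refine ⟨hfin, fun N hNU hN A hne hA => ?_⟩
  have key : ∀ N' : AddSubgroup W, (∀ g : Γ, ∀ v ∈ N', g • v ∈ N') → ∀ f ∈ S0 ℓ X, φ f ∈ N' → f ∉ Cst ℓ X →
      U ≤ N' := by
    intro N' hN' f hf hfN hfc
    let M : AddSubgroup (X → ZMod ℓ) :=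
      { carrier := {f | f ∈ S0 ℓ X ∧ φ f ∈ N'}
        zero_mem' := ⟨zero_mem _, by rw [hzero]; exact zero_mem _⟩
        add_mem' := by
          rintro a b ⟨ha, ha'⟩ ⟨hb, hb'⟩
          exact ⟨add_mem ha hb, by rw [hadd a ha b hb]; exact add_mem ha' hb'⟩
        neg_mem' := by
          rintro a ⟨ha, ha'⟩
          exact ⟨neg_mem ha, by rw [hneg a ha]; exact neg_mem ha'⟩ }
    have h1 : ∀ f' : X → ZMod ℓ, ∑ x, f' x = 0 → f' ∈ M := heart_irreducible (by omega) M (by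
      intro g hg f hfM
      obtain ⟨γ, hγ⟩ := hact g⁻¹ (inv_mem hg)
      refine ⟨hst0 g⁻¹ f hfM.1, ?_⟩
      have h2 := hN' γ _ hfM.2
      rw [hγ f hfM.1] at h2
      exact h2) (f := f) ⟨hf, hfN⟩ hfc
    intro u hu
    obtain ⟨g, hg, rfl⟩ := hsurj u hu
    exact (h1 g hg).2
  have hcS : ∀ f ∈ Cst ℓ X, f ∈ S0 ℓ X := by
    rintro f ⟨c, hc⟩
    rw [mem_S0]
    simp only [hc, Finset.sum_const, Finset.card_univ, nsmul_eq_mul]
    rw [(ZMod.natCast_eq_zero_iff _ _).2 hd, zero_mul]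
  have hNne := ZInj.ne_bot_of N A hne
  have hNU' : N = U := by
    obtain ⟨⟨u, hu⟩, hu0⟩ := AddSubgroup.ne_bot_iff_exists_ne_zero.1 hNne
    obtain ⟨f, hf, hfu⟩ := hsurj u (hNU hu)
    by_cases hc : f ∈ Cst ℓ X
    · rw [hcst f hc] at hfu
      exact absurd (Subtype.ext hfu.symm) hu0
    · exact le_antisymm hNU (key N hN f hf (by rwa [hfu]) hc)
  subst hNU'
  have hker : ∀ f ∈ S0 ℓ X, φ f = 0 → f ∈ Cst ℓ X := by
    intro f hf hf0
    by_contra hc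
    refine hNne (le_bot_iff.1 (key ⊥ ?_ f hf (by rw [hf0]; exact zero_mem _) hc))
    intro g v hv
    rw [AddSubgroup.mem_bot] at hv ⊢
    rw [hv, smul_zero]
  let φ' : (X → ZMod ℓ) → N := fun f => if h : f ∈ S0 ℓ X then ⟨φ f, hmem f h⟩ else 0
  have hφ' : ∀ f ∈ S0 ℓ X, ((φ' f : N) : W) = φ f := by
    intro f hf
    simp only [φ', dif_pos hf]
  refine exists_inj hX hX' hd φ' ?_ ?_ ?_ A hne ?_
  · intro f hf g hg
    apply Subtype.ext
    rw [hφ' _ (add_mem hf hg), hadd f hf g hg, AddSubgroup.coe_add, hφ' f hf, hφ' g hg]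
  · intro v
    obtain ⟨f, hf, hfv⟩ := hsurj v v.2
    exact ⟨f, hf, Subtype.ext ((hφ' f hf).trans hfv)⟩
  · intro f hf
    constructor
    · intro h
      refine hker f hf ?_
      rw [← hφ' f hf, h]
      rfl
    · intro h
      apply Subtype.ext
      rw [hφ' f hf, hcst f h]
      rfl
  · intro τ hτ K hK
    obtain ⟨γ, hγ⟩ := hact τ hτ
    obtain ⟨K', hK', h⟩ := hA γ K hK
    refine ⟨K', hK', fun f hf g hg hfg => ?_⟩
    apply Subtype.ext
    rw [h (φ' f) (φ' (f ∘ τ)) (by rw [hφ' _ (hst0 τ f hf), hφ' f hf, hγ f hf]), hfg, hφ' g hg, hγ g hg,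
      hφ' _ (hst0 τ g hg)]

end Pool.Agent.Lib.MP_89bcae_ag.Ep.Amp
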