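import Mathlib
import Pool.Agent.Lib.MP_89bcae_ag.El.RootB

/-!
# The branch curve
-/

open Polynomial IsDedekindDomain

open scoped Classical

namespace Pool.Agent.Lib.MP_89bcae_ag.Ep

open Pool.Agent.Lib.MP_89bcae_ag.Ze Pool.Agent.Lib.MP_89bcae_ag.El

variable {ℓ : ℕ} {k F L : Type} [Field k] [Field F] [Algebra k F] [Field L] [Algebra F[X] L] [IsFractionRing F[X] L]
  {p q : k[X]} {g : k[X][X]}

/-- Proof: as `isBranch_surf` in `El/RootB.lean` (the case `ℓ = 2`). -/
theorem isBranch_surf [NeZero q.natDegree] (h : IsLine p q g) (hd : derivative q ≠ 0) (hm : (q.natDegree + 1).Coprime ℓ)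
    (hp : p ≠ 0) : IsBranch ℓ F L (surf g) := by
  have hsep : (gL F L g).Separable := by
    rw [← separable_map (algebraMap L (AlgebraicClosure L))]
    have hm : ((gL F L g).map (algebraMap L (AlgebraicClosure L))).Monic := (gL_monic h).map _
    rw [← nodup_roots_iff_of_splits hm.ne_zero (IsAlgClosed.splits _)]
    rw [gL_map (F := F) (ι := algebraMap L (AlgebraicClosure L)) h hd]
    have e : ((RS F (algebraMap L (AlgebraicClosure L)) q).map
        fun σ => X - C ((pF F p).eval₂ (kap F (algebraMap L (AlgebraicClosure L))) σ)) =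
        ((RS F (algebraMap L (AlgebraicClosure L)) q).map
          fun σ => (pF F p).eval₂ (kap F (algebraMap L (AlgebraicClosure L))) σ).map
          fun a => X - C a := by
      rw [Multiset.map_map]
      rfl
    rw [e, roots_multiset_prod_X_sub_C]
    exact Multiset.Nodup.map_on (fun σ hσ σ' hσ' he => root_inj h hσ hσ' he) (RS_nodup hd)
  refine ⟨?_, ?_, ?_⟩
  · exact monic_X.mul h.monic
  · unfold surf
    rw [monic_X.natDegree_mul h.monic, natDegree_X, h.degree, Nat.add_comm]
    exact hm
  · rw [poly_surf]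
    refine separable_X.mul hsep ?_
    rw [irreducible_X.coprime_iff_not_dvd, X_dvd_iff, coeff_zero_eq_eval_zero]
    exact gL_eval_zero h hp

end Pool.Agent.Lib.MP_89bcae_ag.Ep
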