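import Mathlib
import Pool.Agent.Lib.MP_89bcae_ag.El.Gal

/-!
# The Galois group and the orders of the zeros
-/

open Polynomial IsDedekindDomain

open scoped Classical

namespace Pool.Agent.Lib.MP_89bcae_ag.Ep

open Pool.Agent.Lib.MP_89bcae_ag.Ze Pool.Agent.Lib.MP_89bcae_ag.El

open Pool.Agent.Lib.MP_89bcae_ag.Xs (ord Or cR cR_X cAut cAut_apply cAut_const cHom_algebraMap cHom_root)

section

variable {ℓ : ℕ} {k F L : Type} [Field k] [Field F] [Algebra k F] [Field L] [Algebra F[X] L] [IsFractionRing F[X] L]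
  {p q : k[X]} {g : k[X][X]} [NeZero q.natDegree]

omit [NeZero q.natDegree] in
lemma cAut_mem (f : k[X][X]) (σ : F ≃ₐ[k] F) (hσ : ∀ c : F, c ^ ℓ = 1 → σ c = c) :
    cAut L f σ ∈ galois ℓ k F (poly F L f) := by
  refine ⟨fun c => ?_, fun c hc => ?_, ?_, ?_, fun c => ⟨σ c, cAut_const f σ c⟩, fun c => ⟨σ.symm c, ?_⟩⟩
  · rw [cAut_const, σ.commutes]
  · rw [cAut_const, hσ c hc]
  · rw [cAut_apply, cHom_algebraMap, cR_X]
  · rw [cAut_apply, cHom_root]
  · rw [cAut_const, σ.apply_symm_apply]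

theorem exists_galois (h : IsLine p q g) (σ : F ≃ₐ[k] F) (hσ : ∀ c : F, c ^ ℓ = 1 → σ c = c) :
    ∃ γ ∈ galois ℓ k F (poly F L (surf g)), ∀ (u : AdjoinRoot (poly F L (surf g))) (r : F),
      ord (σ r) (pi0 F L h (γ u)) = ord r (pi0 F L h u) := by
  refine ⟨cAut L (surf g) σ, cAut_mem _ σ hσ, fun u r => ?_⟩
  rw [pi0_cAut]
  unfold ord
  exact congrArg (fun v => -(WithZero.log v)) (Sup.valuation_coefL L (σ : F ≃+* F) r (pi0 F L h u))

end

end Pool.Agent.Lib.MP_89bcae_ag.Ep
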