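import Mathlib
import Pool.Agent.Lib.MP_89bcae_ag.Ep.GDefs

/-!
# First properties of the double transpositions
-/

open scoped Classical

namespace Pool.Agent.Lib.MP_89bcae_ag.Ep

variable {ℓ : ℕ} [Fact ℓ.Prime] {X M : Type} [Fintype X] [AddCommGroup M] {σ : M →+ M} {p : M →+ (X → ZMod ℓ) ⧸ Cst ℓ X}
  {C : Equiv.Perm X → M →+ M}

/-- The double transposition is an even involution. Proof: `Equiv.Perm.sign_swap`, `Equiv.Perm.Disjoint`, or `ext` and
`Equiv.swap_apply_def`. -/
theorem dt_mem {i j k l : X} (h : [i, j, k, l].Nodup) : dt i j k l ∈ Inv2 X := by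
  simp only [List.nodup_cons, List.mem_cons, List.not_mem_nil, not_or, or_false, not_false_eq_true, List.nodup_nil,
    and_true] at h
  obtain ⟨⟨hij, hik, hil⟩, ⟨hjk, hjl⟩, hkl⟩ := h
  refine ⟨?_, ?_⟩
  · rw [Equiv.Perm.mem_alternatingGroup, dt, map_mul, Equiv.Perm.sign_swap hij, Equiv.Perm.sign_swap hkl]
    rfl
  · have hc : Equiv.swap i j * Equiv.swap k l = Equiv.swap k l * Equiv.swap i j := by
      have hd : Equiv.Perm.Disjoint (Equiv.swap i j) (Equiv.swap k l) := by
        intro x
        by_cases h1 : x = i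
        · right
          subst h1
          exact Equiv.swap_apply_of_ne_of_ne hik hil
        · by_cases h2 : x = j
          · right
            subst h2
            exact Equiv.swap_apply_of_ne_of_ne hjk hjl
          · left
            exact Equiv.swap_apply_of_ne_of_ne h1 h2
      exact hd.commute
    have h1 : Equiv.swap i j * Equiv.swap i j = 1 := Equiv.swap_mul_self i j
    have h2 : Equiv.swap k l * Equiv.swap k l = 1 := Equiv.swap_mul_self k l
    calc dt i j k l * dt i j k l = Equiv.swap i j * Equiv.swap k l * (Equiv.swap i j * Equiv.swap k l) := rfl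
      _ = Equiv.swap i j * (Equiv.swap k l * Equiv.swap i j) * Equiv.swap k l := by simp only [mul_assoc]
      _ = Equiv.swap i j * (Equiv.swap i j * Equiv.swap k l) * Equiv.swap k l := by rw [hc]
      _ = (Equiv.swap i j * Equiv.swap i j) * (Equiv.swap k l * Equiv.swap k l) := by simp only [mul_assoc]
      _ = 1 := by rw [h1, h2, one_mul]

omit [Fintype X] in
theorem dt_apply (i j k l x : X) : dt i j k l x = Equiv.swap i j (Equiv.swap k l x) := rfl

/-- Two disjoint double transpositions cannot both map a vector to its opposite. Proof: let `N` be the subgroup of the `v` with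
`C s v = - v` and `C t v = - v`, `s = dt i j k l`, `t = dt a b c d`. If `v ∈ N` and `p v = cl f` (`img`), then by `act`, `f (s x) = - f x + γ` and
`f (t x) = - f x + δ` for all `x` (`cl_eq`); there is a point `z` different from the `8` points, so `2 f z = γ = δ`; each `x` is
fixed by `s` or by `t`, so `2 f x = γ` for all `x`: `f` is constant (`ℓ ≠ 2`), `p v = 0`, `v = w - σ w` (`ker`), and `w ∈ N` by `comm` and `pi_inj`. So `N = ⊥`
by `sep`. -/
theorem joint (h : Sys ℓ X M σ p C) (hℓ : ℓ ≠ 2) (hX : 9 ≤ Fintype.card X) {i j k l a b c d : X}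
    (hd : [i, j, k, l, a, b, c, d].Nodup) {v : M} (h1 : C (dt i j k l) v = -v) (h2 : C (dt a b c d) v = -v) : v = 0 := by
  have hs1 : dt i j k l ∈ Inv2 X := dt_mem (by
    simp only [List.nodup_cons, List.mem_cons, List.not_mem_nil, not_or, or_false, not_false_eq_true, List.nodup_nil,
      and_true] at hd ⊢
    tauto)
  have hs2 : dt a b c d ∈ Inv2 X := dt_mem (by
    simp only [List.nodup_cons, List.mem_cons, List.not_mem_nil, not_or, or_false, not_false_eq_true, List.nodup_nil,
      and_true] at hd ⊢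
    tauto)
  obtain ⟨z, hz⟩ : ∃ z, z ∉ ({i, j, k, l, a, b, c, d} : Finset X) := by
    by_contra hcon
    push Not at hcon
    have hu : (Finset.univ : Finset X) ⊆ {i, j, k, l, a, b, c, d} := fun x _ => hcon x
    have := Finset.card_le_card hu
    rw [Finset.card_univ] at this
    have h8 : ({i, j, k, l, a, b, c, d} : Finset X).card ≤ 8 :=
      (Finset.card_insert_le _ _).trans (Nat.succ_le_succ ((Finset.card_insert_le _ _).trans
        (Nat.succ_le_succ Finset.card_le_six)))
    omega
  simp only [Finset.mem_insert, Finset.mem_singleton, not_or] at hz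
  obtain ⟨zi, zj, zk, zl, za, zb, zc, zd⟩ := hz
  let N : AddSubgroup M :=
    { carrier := {v | C (dt i j k l) v = -v ∧ C (dt a b c d) v = -v}
      zero_mem' := ⟨by rw [map_zero, neg_zero], by rw [map_zero, neg_zero]⟩
      add_mem' := fun {x y} hx hy => ⟨by rw [map_add, hx.1, hy.1, neg_add], by rw [map_add, hx.2, hy.2, neg_add]⟩
      neg_mem' := fun {x} hx => ⟨by rw [map_neg, hx.1], by rw [map_neg, hx.2]⟩ }
  have hN : N = ⊥ := by
    apply h.sep
    rintro w ⟨hw1, hw2⟩
    obtain ⟨f, -, hf⟩ := h.img w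
    have key : ∀ s ∈ Inv2 X, C s w = -w → ∃ e, ∀ x, f (s x) = -f x + e := by
      intro s hs hsw
      have e1 := h.act s hs w f hf
      rw [hsw, map_neg, hf, ← map_neg] at e1
      obtain ⟨e, he⟩ := cl_eq.1 e1.symm
      exact ⟨e, fun x => by rw [he x, Pi.neg_apply]⟩
    obtain ⟨e1, he1⟩ := key _ hs1 hw1
    obtain ⟨e2, he2⟩ := key _ hs2 hw2
    have fix1 : ∀ x, x ≠ i → x ≠ j → x ≠ k → x ≠ l → dt i j k l x = x := by
      intro x a1 a2 a3 a4
      rw [dt_apply, Equiv.swap_apply_of_ne_of_ne a3 a4, Equiv.swap_apply_of_ne_of_ne a1 a2]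
    have fix2 : ∀ x, x ≠ a → x ≠ b → x ≠ c → x ≠ d → dt a b c d x = x := by
      intro x a1 a2 a3 a4
      rw [dt_apply, Equiv.swap_apply_of_ne_of_ne a3 a4, Equiv.swap_apply_of_ne_of_ne a1 a2]
    have g1 := he1 z
    rw [fix1 z zi zj zk zl] at g1
    have g2 := he2 z
    rw [fix2 z za zb zc zd] at g2
    have hall : ∀ x, f x = -f x + e1 := by
      intro x
      by_cases hx : x = i ∨ x = j ∨ x = k ∨ x = l
      · have hfx : dt a b c d x = x := by
          simp only [List.nodup_cons, List.mem_cons, List.not_mem_nil, not_or, or_false, not_false_eq_true,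
            List.nodup_nil, and_true] at hd
          obtain ⟨⟨-, -, -, ia, ib, ic, id⟩, ⟨-, -, ja, jb, jc, jd⟩, ⟨-, ka, kb, kc, kd⟩, ⟨la, lb, lc, ld⟩, -⟩ := hd
          rcases hx with rfl | rfl | rfl | rfl
          · exact fix2 _ ia ib ic id
          · exact fix2 _ ja jb jc jd
          · exact fix2 _ ka kb kc kd
          · exact fix2 _ la lb lc ld
        have g3 := he2 x
        rw [hfx] at g3
        have : e1 = e2 := by
          have := g1.symm.trans g2
          exact add_left_cancel this
        rw [this]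
        exact g3
      · push Not at hx
        have g3 := he1 x
        rw [fix1 x hx.1 hx.2.1 hx.2.2.1 hx.2.2.2] at g3
        exact g3
    have h2ne : (2 : ZMod ℓ) ≠ 0 := by
      intro h20
      have h2' : ((2 : ℕ) : ZMod ℓ) = 0 := by exact_mod_cast h20
      rw [ZMod.natCast_eq_zero_iff] at h2'
      have hp : ℓ.Prime := Fact.out
      exact hℓ ((Nat.prime_dvd_prime_iff_eq hp Nat.prime_two).1 h2')
    have hconst : ∀ x, f x = f z := by
      intro x
      have q1 : 2 * f x = e1 := by linear_combination hall x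
      have q2 : 2 * f z = e1 := by linear_combination hall z
      exact mul_left_cancel₀ h2ne (q1.trans q2.symm)
    have hp0 : p w = 0 := by
      rw [hf]
      exact cl_eq_zero.2 ⟨f z, hconst⟩
    obtain ⟨u, hu⟩ := h.ker w hp0
    have inj2 : ∀ s ∈ Inv2 X, C s w = -w → C s u = -u := by
      intro s hs hsw
      have e3 : C s (u - σ u) = -(u - σ u) := by rw [← hu]; exact hsw
      rw [map_sub, h.comm s hs] at e3
      have e4 : (C s u + u) - σ (C s u + u) = 0 := by
        rw [map_add]
        calc C s u + u - (σ (C s u) + σ u) = (C s u - σ (C s u)) + (u - σ u) := by abel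
          _ = 0 := by rw [e3, neg_add_cancel]
      exact eq_neg_of_add_eq_zero_left (h.pi_inj _ e4)
    exact ⟨u, ⟨inj2 _ hs1 hw1, inj2 _ hs2 hw2⟩, hu⟩
  have hv : v ∈ N := ⟨h1, h2⟩
  rw [hN] at hv
  exact (AddSubgroup.mem_bot).1 hv

end Pool.Agent.Lib.MP_89bcae_ag.Ep
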