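import Mathlib
import Pool.Agent.Lib.MP_89bcae_ag.Ep.Jnt

/-!
# Properties of the lines
-/

open scoped Classical

namespace Pool.Agent.Lib.MP_89bcae_ag.Ep

variable {ℓ : ℕ} [Fact ℓ.Prime] {X M : Type} [Fintype X] [AddCommGroup M] {σ : M →+ M} {p : M →+ (X → ZMod ℓ) ⧸ Cst ℓ X}
  {C : Equiv.Perm X → M →+ M}

/-- Proof: `Equiv.swap_comm`. -/
theorem Ln_symm {i j : X} {v : M} (hv : v ∈ Ln C i j) : v ∈ Ln C j i := by
  refine ⟨fun a b c d h => hv.1 a b c d ?_, fun a b h => ?_⟩
  · simp only [List.nodup_cons, List.mem_cons, List.not_mem_nil, not_or, or_false, List.nodup_nil] at h ⊢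
    tauto
  · have e : dt j i a b = dt i j a b := by
      unfold dt
      rw [Equiv.swap_comm j i]
    rw [e]
    refine hv.2 a b ?_
    simp only [List.nodup_cons, List.mem_cons, List.not_mem_nil, not_or, or_false, List.nodup_nil] at h ⊢
    tauto

private theorem lnp_inv {s : Equiv.Perm X} (hs : s ∈ Inv2 X) : s⁻¹ = s :=
  inv_eq_of_mul_eq_one_right hs.2

private theorem lnp_inv_apply {s : Equiv.Perm X} (hs : s ∈ Inv2 X) (x : X) : s (s x) = x := by
  have := congrArg (fun t : Equiv.Perm X => t x) hs.2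
  simpa using this

private theorem lnp_conj_dt {s : Equiv.Perm X} (hs : s ∈ Inv2 X) (a b c d : X) :
    s * dt a b c d * s = dt (s a) (s b) (s c) (s d) := by
  unfold dt
  rw [Equiv.swap_apply_apply, Equiv.swap_apply_apply, lnp_inv hs]
  have h2 : s * s = 1 := hs.2
  calc s * (Equiv.swap a b * Equiv.swap c d) * s = s * Equiv.swap a b * (1 * (Equiv.swap c d * s)) := by
        rw [one_mul]; simp only [mul_assoc]
    _ = s * Equiv.swap a b * s * (s * Equiv.swap c d * s) := by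
        rw [← h2]; simp only [mul_assoc]

/-- Proof: for `t` one of the double transpositions of the definition of `Ln C (s i) (s j)`, `s t s` is one of those of the definition of
`Ln C i j`, and `C t (C s v) = C s (C (s t s) v)` by `conj` (for `C s (C t (C s v))`) and `sq`. -/
theorem Ln_conj (h : Sys ℓ X M σ p C) {s : Equiv.Perm X} (hs : s ∈ Inv2 X) {i j : X} {v : M} (hv : v ∈ Ln C i j) :
    C s v ∈ Ln C (s i) (s j) := by
  refine ⟨fun a b c d hd => ?_, fun a b hd => ?_⟩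
  · have ht : dt a b c d ∈ Inv2 X := dt_mem (by
      simp only [List.nodup_cons, List.mem_cons, List.not_mem_nil, not_or, or_false, List.nodup_nil] at hd ⊢
      tauto)
    have h1 := h.conj s hs _ ht v
    rw [lnp_conj_dt hs] at h1
    have hd' : [i, j, s a, s b, s c, s d].Nodup := by
      have := (List.nodup_map_iff s.injective (l := [s i, s j, a, b, c, d])).2 hd
      simpa only [List.map_cons, List.map_nil, lnp_inv_apply hs] using this
    rw [hv.1 _ _ _ _ hd'] at h1
    rw [← h.sq s hs (C (dt a b c d) (C s v)), h1]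
  · have ht : dt (s i) (s j) a b ∈ Inv2 X := dt_mem hd
    have h1 := h.conj s hs _ ht v
    rw [lnp_conj_dt hs, lnp_inv_apply hs, lnp_inv_apply hs] at h1
    have hd' : [i, j, s a, s b].Nodup := by
      have := (List.nodup_map_iff s.injective (l := [s i, s j, a, b])).2 hd
      simpa only [List.map_cons, List.map_nil, lnp_inv_apply hs] using this
    rw [hv.2 _ _ hd'] at h1
    rw [← h.sq s hs (C (dt (s i) (s j) a b) (C s v)), h1, map_neg]

private theorem lnp_exists (hX : 9 ≤ Fintype.card X) (l : List X) (hl : l.length ≤ 8) : ∃ x, x ∉ l := by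
  by_contra hc
  push Not at hc
  have h1 : (Finset.univ : Finset X) ⊆ l.toFinset := fun x _ => List.mem_toFinset.2 (hc x)
  have h2 := Finset.card_le_card h1
  have h3 := List.toFinset_card_le l
  rw [Finset.card_univ] at h2
  omega

private theorem lnp_const (h : Sys ℓ X M σ p C) (hX : 9 ≤ Fintype.card X) {i j : X} (hij : i ≠ j) {v : M}
    (hv : v ∈ Ln C i j) {f : X → ZMod ℓ} (hf : p v = cl ℓ X f) {x y : X} (hx : x ∉ [i, j]) (hy : y ∉ [i, j]) :
    f y = f x := by
  rcases eq_or_ne x y with rfl | hxy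
  · rfl
  obtain ⟨z, hz⟩ := lnp_exists hX [i, j, x, y] (by simp)
  obtain ⟨w, hw⟩ := lnp_exists hX [i, j, x, y, z] (by simp)
  simp only [List.mem_cons, List.not_mem_nil, not_or, or_false] at hx hy hz hw
  have hd : [i, j, x, y, z, w].Nodup := by
    simp only [List.nodup_cons, List.mem_cons, List.not_mem_nil, not_or, or_false, List.nodup_nil]
    refine ⟨⟨hij, Ne.symm hx.1, Ne.symm hy.1, Ne.symm hz.1, Ne.symm hw.1⟩, ⟨Ne.symm hx.2, Ne.symm hy.2, Ne.symm hz.2.1, Ne.symm hw.2.1⟩,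
      ⟨hxy, Ne.symm hz.2.2.1, Ne.symm hw.2.2.1⟩, ⟨Ne.symm hz.2.2.2, Ne.symm hw.2.2.2.1⟩, Ne.symm hw.2.2.2.2, not_false, trivial⟩
  have ht : dt x y z w ∈ Inv2 X := dt_mem (by
    simp only [List.nodup_cons, List.mem_cons, List.not_mem_nil, not_or, or_false, List.nodup_nil] at hd ⊢
    tauto)
  have h1 := h.act _ ht v f hf
  rw [hv.1 _ _ _ _ hd, hf, eq_comm, cl_eq] at h1
  obtain ⟨γ, hγ⟩ := h1
  have e1 : dt x y z w i = i := by
    rw [dt_apply, Equiv.swap_apply_of_ne_of_ne (Ne.symm hz.1) (Ne.symm hw.1),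
      Equiv.swap_apply_of_ne_of_ne (Ne.symm hx.1) (Ne.symm hy.1)]
  have e2 : dt x y z w x = y := by
    rw [dt_apply, Equiv.swap_apply_of_ne_of_ne (Ne.symm hz.2.2.1) (Ne.symm hw.2.2.1), Equiv.swap_apply_left]
  have h2 := hγ i
  rw [e1] at h2
  have h3 : γ = 0 := by
    have := h2.symm
    rwa [add_eq_left] at this
  have h4 := hγ x
  rw [e2, h3, add_zero] at h4
  exact h4

/-- Proof: `p v = cl f`; `f` is constant outside `{i, j}` since for two points `x`, `y` outside, and `z`, `w` outside `{i, j, x, y}`,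
`C (dt x y z w) v = v` gives `f (s u) = f u + γ`, with `γ = 0` (a fixed point `u`; or `u = i`), and so `f x = f y`; subtract the constant: `f = 0` outside
`{i, j}`. Then `C (dt i j x y) v = - v` gives `f (s u) = - f u + γ`, `γ = 0` (take `u` outside) and `f j = - f i`. -/
theorem Ln_p (h : Sys ℓ X M σ p C) (hX : 9 ≤ Fintype.card X) {i j : X} (hij : i ≠ j) {v : M} (hv : v ∈ Ln C i j) :
    ∃ γ : ZMod ℓ, p v = cl ℓ X (γ • (Pi.single i 1 - Pi.single j 1)) := by
  obtain ⟨f, -, hf⟩ := h.img v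
  obtain ⟨x, hx⟩ := lnp_exists hX [i, j] (by simp)
  obtain ⟨y, hy⟩ := lnp_exists hX [i, j, x] (by simp)
  obtain ⟨u, hu⟩ := lnp_exists hX [i, j, x, y] (by simp)
  have hc : ∀ z, z ∉ [i, j] → f z = f x := fun z hz => lnp_const h hX hij hv hf hx hz
  simp only [List.mem_cons, List.not_mem_nil, not_or, or_false] at hx hy hu hc
  have hd : [i, j, x, y].Nodup := by
    simp only [List.nodup_cons, List.mem_cons, List.not_mem_nil, not_or, or_false, List.nodup_nil]
    refine ⟨⟨hij, Ne.symm hx.1, Ne.symm hy.1⟩, ⟨Ne.symm hx.2, Ne.symm hy.2.1⟩, Ne.symm hy.2.2, not_false, trivial⟩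
  have ht : dt i j x y ∈ Inv2 X := dt_mem hd
  have h1 := h.act _ ht v f hf
  rw [hv.2 _ _ hd, map_neg, hf, eq_comm, ← map_neg, cl_eq] at h1
  obtain ⟨γ, hγ⟩ := h1
  have e1 : dt i j x y u = u := by
    rw [dt_apply, Equiv.swap_apply_of_ne_of_ne hu.2.2.1 hu.2.2.2, Equiv.swap_apply_of_ne_of_ne hu.1 hu.2.1]
  have e2 : dt i j x y i = j := by
    rw [dt_apply, Equiv.swap_apply_of_ne_of_ne (Ne.symm hx.1) (Ne.symm hy.1), Equiv.swap_apply_left]
  have h2 := hγ u
  rw [e1, Pi.neg_apply, hc u ⟨hu.1, hu.2.1⟩] at h2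
  have h3 := hγ i
  rw [e2, Pi.neg_apply] at h3
  refine ⟨f i - f x, ?_⟩
  rw [hf, cl_eq]
  refine ⟨f x, fun z => ?_⟩
  rw [Pi.smul_apply, Pi.sub_apply, smul_eq_mul]
  by_cases hzi : z = i
  · subst hzi
    rw [Pi.single_eq_same, Pi.single_eq_of_ne hij]
    ring
  · by_cases hzj : z = j
    · subst hzj
      rw [Pi.single_eq_same, Pi.single_eq_of_ne hzi]
      linear_combination h3 - h2
    · rw [Pi.single_eq_of_ne hzi, Pi.single_eq_of_ne hzj, hc z ⟨hzi, hzj⟩]
      ring

/-- Proof: let `N` be the subgroup of the `v ∈ Ln C z j` with `C (dt z i l m) v = v`. If `v ∈ N`, `p v = cl (γ (δ_z - δ_j))` by `Ln_p`, and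
`p v = p (C (dt z i l m) v) = cl (γ (δ_i - δ_j))`, so `γ (δ_z - δ_i)` is constant and `γ = 0`, `p v = 0`, `v = w - σ w`, `w ∈ N` (`comm`, `pi_inj`), and
`sep`. -/
theorem Ln_inj (h : Sys ℓ X M σ p C) (hX : 9 ≤ Fintype.card X) {z i j l m : X} (hd : [z, i, j, l, m].Nodup) {v : M}
    (hv : v ∈ Ln C z j) (h1 : C (dt z i l m) v = v) : v = 0 := by
  obtain ⟨u, hu⟩ := lnp_exists hX [z, i, j, l, m] (by simp)
  simp only [List.nodup_cons, List.mem_cons, List.not_mem_nil, not_or, or_false, List.nodup_nil] at hd hu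
  obtain ⟨⟨hzi, hzj, hzl, hzm⟩, ⟨hij, hil, him⟩, ⟨hjl, hjm⟩, hlm, -⟩ := hd
  obtain ⟨huz, hui, huj, hul, hum⟩ := hu
  have hs : dt z i l m ∈ Inv2 X := dt_mem (by
    simp only [List.nodup_cons, List.mem_cons, List.not_mem_nil, not_or, or_false, List.nodup_nil]
    exact ⟨⟨hzi, hzl, hzm⟩, ⟨hil, him⟩, hlm, not_false, trivial⟩)
  have hN : Ln C z j ⊓ (C (dt z i l m) - AddMonoidHom.id M).ker = ⊥ := by
    refine h.sep _ fun v hv => ?_
    obtain ⟨hv, h1⟩ := hv
    have h1' : C (dt z i l m) v = v := by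
      have : C (dt z i l m) v - v = 0 := h1
      exact sub_eq_zero.1 this
    obtain ⟨γ, hγ⟩ := Ln_p h hX hzj hv
    have h2 := h.act _ hs v _ hγ
    rw [h1', hγ, eq_comm, cl_eq] at h2
    obtain ⟨c, hc⟩ := h2
    have e1 : dt z i l m u = u := by
      rw [dt_apply, Equiv.swap_apply_of_ne_of_ne hul hum, Equiv.swap_apply_of_ne_of_ne huz hui]
    have e2 : dt z i l m i = z := by
      rw [dt_apply, Equiv.swap_apply_of_ne_of_ne hil him, Equiv.swap_apply_right]
    have h3 := hc u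
    have h4 := hc i
    simp only [e1] at h3
    simp only [e2] at h4
    rw [Pi.smul_apply, Pi.sub_apply, Pi.single_eq_of_ne huz, Pi.single_eq_of_ne huj, sub_zero, smul_zero, zero_add] at h3
    rw [Pi.smul_apply, Pi.sub_apply, Pi.smul_apply, Pi.sub_apply, Pi.single_eq_same, Pi.single_eq_of_ne hzj,
      Pi.single_eq_of_ne (Ne.symm hzi), Pi.single_eq_of_ne hij, sub_zero, sub_zero, smul_zero, ← h3, add_zero, smul_eq_mul,
      mul_one] at h4
    have h5 : p v = 0 := by
      rw [hγ, h4, zero_smul, map_zero]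
    obtain ⟨w, hw⟩ := h.ker v h5
    refine ⟨w, ⟨⟨fun a b c d hd => ?_, fun a b hd => ?_⟩, ?_⟩, hw⟩
    · have ht : dt a b c d ∈ Inv2 X := dt_mem (by
        simp only [List.nodup_cons, List.mem_cons, List.not_mem_nil, not_or, or_false, List.nodup_nil] at hd ⊢
        tauto)
      have h6 := hv.1 a b c d hd
      rw [hw, map_sub, h.comm _ ht] at h6
      refine sub_eq_zero.1 (h.pi_inj _ ?_)
      rw [map_sub, sub_sub_sub_comm, h6, sub_self]
    · have ht : dt z j a b ∈ Inv2 X := dt_mem hd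
      have h6 := hv.2 a b hd
      rw [hw, map_sub, h.comm _ ht] at h6
      refine eq_neg_of_add_eq_zero_left (h.pi_inj _ ?_)
      rw [map_add, add_sub_add_comm, h6, neg_add_cancel]
    · have h6 := h1'
      rw [hw, map_sub, h.comm _ hs] at h6
      show C (dt z i l m) w - w = 0
      refine h.pi_inj _ ?_
      rw [map_sub, sub_sub_sub_comm, h6, sub_self]
  have h7 : v ∈ Ln C z j ⊓ (C (dt z i l m) - AddMonoidHom.id M).ker := by
    refine ⟨hv, ?_⟩
    show C (dt z i l m) v - v = 0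
    rw [h1, sub_self]
  rw [hN] at h7
  exact h7

end Pool.Agent.Lib.MP_89bcae_ag.Ep
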