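import Mathlib
import Pool.Agent.Lib.MP_89bcae_ag.Ep.Jnt
import Pool.Agent.Lib.MP_89bcae_ag.Ep.Lnp

/-!
# The lines
-/

open scoped Classical

namespace Pool.Agent.Lib.MP_89bcae_ag.Ep

variable {ℓ : ℕ} [Fact ℓ.Prime] {X M : Type} [Fintype X] [AddCommGroup M] {σ : M →+ M} {p : M →+ (X → ZMod ℓ) ⧸ Cst ℓ X}
  {C : Equiv.Perm X → M →+ M}

omit [Fintype X] in
private theorem lin_comm2 {a b c d : X} (h : [a, b, c, d].Nodup) :
    Commute (Equiv.swap a b) (Equiv.swap c d) :=
  (Equiv.Perm.disjoint_swap_swap h).commute

omit [Fintype X] in
private theorem lin_sub4 {a b c d : X} {l : List X} (h : l.Nodup) (hs : [a, b, c, d].Sublist l) :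
    [a, b, c, d].Nodup := h.sublist hs

omit [Fintype X] in
/-- disjoint double transpositions commute -/
private theorem lin_comm {i j x y a b c d : X} (h : [i, j, x, y, a, b, c, d].Nodup) :
    dt i j x y * dt a b c d = dt a b c d * dt i j x y := by
  have h1 : Commute (Equiv.swap i j) (Equiv.swap a b) := lin_comm2 (by clear * - h; simp only [List.nodup_cons, List.mem_cons, List.not_mem_nil, or_false, not_or, List.nodup_nil, not_false_eq_true, and_true] at *; casesm* _ ∧ _; and_intros <;> first | assumption | (apply Ne.symm; assumption))
  have h2 : Commute (Equiv.swap i j) (Equiv.swap c d) := lin_comm2 (by clear * - h; simp only [List.nodup_cons, List.mem_cons, List.not_mem_nil, or_false, not_or, List.nodup_nil, not_false_eq_true, and_true] at *; casesm* _ ∧ _; and_intros <;> first | assumption | (apply Ne.symm; assumption))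
  have h3 : Commute (Equiv.swap x y) (Equiv.swap a b) := lin_comm2 (by clear * - h; simp only [List.nodup_cons, List.mem_cons, List.not_mem_nil, or_false, not_or, List.nodup_nil, not_false_eq_true, and_true] at *; casesm* _ ∧ _; and_intros <;> first | assumption | (apply Ne.symm; assumption))
  have h4 : Commute (Equiv.swap x y) (Equiv.swap c d) := lin_comm2 (by clear * - h; simp only [List.nodup_cons, List.mem_cons, List.not_mem_nil, or_false, not_or, List.nodup_nil, not_false_eq_true, and_true] at *; casesm* _ ∧ _; and_intros <;> first | assumption | (apply Ne.symm; assumption))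
  exact ((h1.mul_right h2).mul_left (h3.mul_right h4)).eq

omit [Fintype X] in
/-- double transpositions with a common transposition commute -/
private theorem lin_comm' {i j x y a b : X} (h : [i, j, x, y, a, b].Nodup) :
    dt i j x y * dt x y a b = dt x y a b * dt i j x y := by
  have h1 : Commute (Equiv.swap i j) (Equiv.swap x y) := lin_comm2 (by clear * - h; simp only [List.nodup_cons, List.mem_cons, List.not_mem_nil, or_false, not_or, List.nodup_nil, not_false_eq_true, and_true] at *; casesm* _ ∧ _; and_intros <;> first | assumption | (apply Ne.symm; assumption))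
  have h2 : Commute (Equiv.swap i j) (Equiv.swap a b) := lin_comm2 (by clear * - h; simp only [List.nodup_cons, List.mem_cons, List.not_mem_nil, or_false, not_or, List.nodup_nil, not_false_eq_true, and_true] at *; casesm* _ ∧ _; and_intros <;> first | assumption | (apply Ne.symm; assumption))
  have h4 : Commute (Equiv.swap x y) (Equiv.swap a b) := lin_comm2 (by clear * - h; simp only [List.nodup_cons, List.mem_cons, List.not_mem_nil, or_false, not_or, List.nodup_nil, not_false_eq_true, and_true] at *; casesm* _ ∧ _; and_intros <;> first | assumption | (apply Ne.symm; assumption))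
  exact ((h1.mul_right h2).mul_left ((Commute.refl _).mul_right h4)).eq

omit [Fintype X] in
private theorem lin_prod (i j x y a b : X) : dt i j x y * dt x y a b = dt i j a b := by
  unfold dt
  rw [mul_assoc, ← mul_assoc (Equiv.swap x y), Equiv.swap_mul_self, one_mul]

private theorem lin_pick (hX : 9 ≤ Fintype.card X) (l : List X) (hl : l.length ≤ 8) : ∃ z, z ∉ l := by
  by_contra hcon
  push Not at hcon
  have h1 : Finset.univ ⊆ l.toFinset := fun x _ => List.mem_toFinset.2 (hcon x)
  have h2 := (Finset.card_le_card h1).trans (List.toFinset_card_le l)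
  rw [Finset.card_univ] at h2
  omega

/-- step (1) -/
private theorem lin_fix (h : Sys ℓ X M σ p C) (hℓ : ℓ ≠ 2) (hX : 9 ≤ Fintype.card X) {v : M}
    {i j x y a b c d : X} (hd : [i, j, x, y, a, b, c, d].Nodup) (hg : C (dt i j x y) v = -v) :
    C (dt a b c d) v = v := by
  have hs : dt i j x y ∈ Inv2 X := dt_mem (by clear * - hd; simp only [List.nodup_cons, List.mem_cons, List.not_mem_nil, or_false, not_or, List.nodup_nil, not_false_eq_true, and_true] at *; casesm* _ ∧ _; and_intros <;> first | assumption | (apply Ne.symm; assumption))
  have ht : dt a b c d ∈ Inv2 X := dt_mem (by clear * - hd; simp only [List.nodup_cons, List.mem_cons, List.not_mem_nil, or_false, not_or, List.nodup_nil, not_false_eq_true, and_true] at *; casesm* _ ∧ _; and_intros <;> first | assumption | (apply Ne.symm; assumption))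
  have h1 : C (dt i j x y) (C (dt a b c d) v) = -C (dt a b c d) v := by
    rw [h.mul _ hs _ ht (lin_comm hd), lin_comm hd, ← h.mul _ ht _ hs (lin_comm hd).symm, hg,
      map_neg]
  have h2 : v - C (dt a b c d) v = 0 := by
    refine joint h hℓ hX hd ?_ ?_
    · rw [map_sub, hg, h1]
      abel
    · rw [map_sub, h.sq _ ht]
      abel
  exact (sub_eq_zero.1 h2).symm

/-- step (2) -/
private theorem lin_two (h : Sys ℓ X M σ p C) (hℓ : ℓ ≠ 2) (hX : 9 ≤ Fintype.card X) {v : M}
    {i j x y z w a b : X} (hd : [i, j, x, y, z, w, a, b].Nodup) (hg : C (dt i j x y) v = -v)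
    (hg' : C (dt i j z w) v = -v) : C (dt i j a b) v = -v := by
  have hs : dt i j x y ∈ Inv2 X := dt_mem (by clear * - hd; simp only [List.nodup_cons, List.mem_cons, List.not_mem_nil, or_false, not_or, List.nodup_nil, not_false_eq_true, and_true] at *; casesm* _ ∧ _; and_intros <;> first | assumption | (apply Ne.symm; assumption))
  have ht : dt x y a b ∈ Inv2 X := dt_mem (by clear * - hd; simp only [List.nodup_cons, List.mem_cons, List.not_mem_nil, or_false, not_or, List.nodup_nil, not_false_eq_true, and_true] at *; casesm* _ ∧ _; and_intros <;> first | assumption | (apply Ne.symm; assumption))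
  have h1 : C (dt x y a b) v = v := lin_fix h hℓ hX (i := i) (j := j) (x := z) (y := w) (by clear * - hd; simp only [List.nodup_cons, List.mem_cons, List.not_mem_nil, or_false, not_or, List.nodup_nil, not_false_eq_true, and_true] at *; casesm* _ ∧ _; and_intros <;> first | assumption | (apply Ne.symm; assumption)) hg'
  rw [← lin_prod i j x y a b, ← h.mul _ hs _ ht (lin_comm' (by clear * - hd; simp only [List.nodup_cons, List.mem_cons, List.not_mem_nil, or_false, not_or, List.nodup_nil, not_false_eq_true, and_true] at *; casesm* _ ∧ _; and_intros <;> first | assumption | (apply Ne.symm; assumption))), h1, hg]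

/-- A vector mapped to its opposite by `(i j)(k l)` and by `(i j)(r s)` is in `Ln C i j`. Proof: say that the pair `{x, y}` is good if
`C (dt i j x y) v = - v`.
(1) If `{x, y}` is good, every double transposition `t` disjoint from `{i, j, x, y}` fixes `v`: `w = v - C t v` satisfies `C t w = - w` (`sq`),
and `C (dt i j x y) w = - w` (the two commute: `mul` twice), so `w = 0` by `joint`.
(2) If `{x, y}` and `{z, w}` are good and disjoint, every pair `{a, b}` disjoint from both is good: `dt i j a b = dt i j x y * dt x y a b` and
`dt x y a b` is disjoint from `{i, j, z, w}`, so it fixes `v` by (1) (and `mul`).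
(3) All pairs outside `{i, j}` are good: let `P = {k, l}`, `Q = {r, s}`, `Z` the complement of `{i, j, k, l, r, s}`, which has at least `3` points.
The pairs in `Z` are good by (2) (from `P`, `Q`). A pair `{x, y}`, `x ∈ P`, `y ∈ Z`: `Q` and a pair in `Z` without `y` are good, so it is
good by (2); the same for `x ∈ Q`. A pair `{x, y}` with `x ∈ P`, `y ∈ Q`: let `x'`, `y'` be the other points of `P`, `Q` and `z ≠ z'` in `Z`:
`{x', z}` and `{y', z'}` are good, so `{x, y}` is good by (2).
(4) A double transposition `t` outside `{i, j}` is disjoint from some pair outside `{i, j}` (`9 ≤ card X`), so it fixes `v` by (1). -/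
theorem line_of (h : Sys ℓ X M σ p C) (hℓ : ℓ ≠ 2) (hX : 9 ≤ Fintype.card X) {i j k l r s : X}
    (hd : [i, j, k, l, r, s].Nodup) {v : M} (h1 : C (dt i j k l) v = -v) (h2 : C (dt i j r s) v = -v) : v ∈ Ln C i j := by
  have gs : ∀ x y : X, C (dt i j x y) v = -v → C (dt i j y x) v = -v := by
    intro x y hg
    have e : dt i j y x = dt i j x y := by
      unfold dt
      rw [Equiv.swap_comm y x]
    rw [e]
    exact hg
  have gZ : ∀ x y : X, [i, j, k, l, r, s, x, y].Nodup → C (dt i j x y) v = -v :=
    fun x y hn => lin_two h hℓ hX hn h1 h2
  have gPZ : ∀ q q' y : X, [i, j, q, q', r, s, y].Nodup →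
      (∀ x y : X, [i, j, q, q', r, s, x, y].Nodup → C (dt i j x y) v = -v) →
      C (dt i j q y) v = -v := by
    intro q q' y hn hz
    obtain ⟨z, hz1⟩ := lin_pick hX [i, j, q, q', r, s, y] (by simp)
    obtain ⟨z', hz2⟩ := lin_pick hX [i, j, q, q', r, s, y, z] (by simp)
    have h3 : C (dt i j z z') v = -v := hz z z' (by clear * - hn hz1 hz2; simp only [List.nodup_cons, List.mem_cons, List.not_mem_nil, or_false, not_or, List.nodup_nil, not_false_eq_true, and_true] at *; casesm* _ ∧ _; and_intros <;> first | assumption | (apply Ne.symm; assumption))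
    exact lin_two h hℓ hX (x := r) (y := s) (z := z) (w := z') (by clear * - hn hz1 hz2; simp only [List.nodup_cons, List.mem_cons, List.not_mem_nil, or_false, not_or, List.nodup_nil, not_false_eq_true, and_true] at *; casesm* _ ∧ _; and_intros <;> first | assumption | (apply Ne.symm; assumption)) h2 h3
  have gQZ : ∀ q q' y : X, [i, j, k, l, q, q', y].Nodup →
      (∀ x y : X, [i, j, k, l, q, q', x, y].Nodup → C (dt i j x y) v = -v) →
      C (dt i j q y) v = -v := by
    intro q q' y hn hz
    obtain ⟨z, hz1⟩ := lin_pick hX [i, j, k, l, q, q', y] (by simp)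
    obtain ⟨z', hz2⟩ := lin_pick hX [i, j, k, l, q, q', y, z] (by simp)
    have h3 : C (dt i j z z') v = -v := hz z z' (by clear * - hn hz1 hz2; simp only [List.nodup_cons, List.mem_cons, List.not_mem_nil, or_false, not_or, List.nodup_nil, not_false_eq_true, and_true] at *; casesm* _ ∧ _; and_intros <;> first | assumption | (apply Ne.symm; assumption))
    exact lin_two h hℓ hX (x := k) (y := l) (z := z) (w := z') (by clear * - hn hz1 hz2; simp only [List.nodup_cons, List.mem_cons, List.not_mem_nil, or_false, not_or, List.nodup_nil, not_false_eq_true, and_true] at *; casesm* _ ∧ _; and_intros <;> first | assumption | (apply Ne.symm; assumption)) h1 h3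
  have gk : ∀ y : X, [i, j, k, l, r, s, y].Nodup → C (dt i j k y) v = -v := fun y hn =>
    gPZ k l y hn gZ
  have gl : ∀ y : X, [i, j, k, l, r, s, y].Nodup → C (dt i j l y) v = -v := fun y hn =>
    gPZ l k y (by clear * - hn; simp only [List.nodup_cons, List.mem_cons, List.not_mem_nil, or_false, not_or, List.nodup_nil, not_false_eq_true, and_true] at *; casesm* _ ∧ _; and_intros <;> first | assumption | (apply Ne.symm; assumption)) fun x y hn => gZ x y (by clear * - hn; simp only [List.nodup_cons, List.mem_cons, List.not_mem_nil, or_false, not_or, List.nodup_nil, not_false_eq_true, and_true] at *; casesm* _ ∧ _; and_intros <;> first | assumption | (apply Ne.symm; assumption))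
  have gr : ∀ y : X, [i, j, k, l, r, s, y].Nodup → C (dt i j r y) v = -v := fun y hn =>
    gQZ r s y hn gZ
  have gs' : ∀ y : X, [i, j, k, l, r, s, y].Nodup → C (dt i j s y) v = -v := fun y hn =>
    gQZ s r y (by clear * - hn; simp only [List.nodup_cons, List.mem_cons, List.not_mem_nil, or_false, not_or, List.nodup_nil, not_false_eq_true, and_true] at *; casesm* _ ∧ _; and_intros <;> first | assumption | (apply Ne.symm; assumption)) fun x y hn => gZ x y (by clear * - hn; simp only [List.nodup_cons, List.mem_cons, List.not_mem_nil, or_false, not_or, List.nodup_nil, not_false_eq_true, and_true] at *; casesm* _ ∧ _; and_intros <;> first | assumption | (apply Ne.symm; assumption))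
  obtain ⟨z, hz1⟩ := lin_pick hX [i, j, k, l, r, s] (by simp)
  obtain ⟨z', hz2⟩ := lin_pick hX [i, j, k, l, r, s, z] (by simp)
  have g1 : C (dt i j k r) v = -v := lin_two h hℓ hX (x := l) (y := z) (z := s) (w := z')
    (by clear * - hd hz1 hz2; simp only [List.nodup_cons, List.mem_cons, List.not_mem_nil, or_false, not_or, List.nodup_nil, not_false_eq_true, and_true] at *; casesm* _ ∧ _; and_intros <;> first | assumption | (apply Ne.symm; assumption)) (gl z (by clear * - hd hz1 hz2; simp only [List.nodup_cons, List.mem_cons, List.not_mem_nil, or_false, not_or, List.nodup_nil, not_false_eq_true, and_true] at *; casesm* _ ∧ _; and_intros <;> first | assumption | (apply Ne.symm; assumption))) (gs' z' (by clear * - hd hz1 hz2; simp only [List.nodup_cons, List.mem_cons, List.not_mem_nil, or_false, not_or, List.nodup_nil, not_false_eq_true, and_true] at *; casesm* _ ∧ _; and_intros <;> first | assumption | (apply Ne.symm; assumption)))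
  have g2 : C (dt i j k s) v = -v := lin_two h hℓ hX (x := l) (y := z) (z := r) (w := z')
    (by clear * - hd hz1 hz2; simp only [List.nodup_cons, List.mem_cons, List.not_mem_nil, or_false, not_or, List.nodup_nil, not_false_eq_true, and_true] at *; casesm* _ ∧ _; and_intros <;> first | assumption | (apply Ne.symm; assumption)) (gl z (by clear * - hd hz1 hz2; simp only [List.nodup_cons, List.mem_cons, List.not_mem_nil, or_false, not_or, List.nodup_nil, not_false_eq_true, and_true] at *; casesm* _ ∧ _; and_intros <;> first | assumption | (apply Ne.symm; assumption))) (gr z' (by clear * - hd hz1 hz2; simp only [List.nodup_cons, List.mem_cons, List.not_mem_nil, or_false, not_or, List.nodup_nil, not_false_eq_true, and_true] at *; casesm* _ ∧ _; and_intros <;> first | assumption | (apply Ne.symm; assumption)))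
  have g3 : C (dt i j l r) v = -v := lin_two h hℓ hX (x := k) (y := z) (z := s) (w := z')
    (by clear * - hd hz1 hz2; simp only [List.nodup_cons, List.mem_cons, List.not_mem_nil, or_false, not_or, List.nodup_nil, not_false_eq_true, and_true] at *; casesm* _ ∧ _; and_intros <;> first | assumption | (apply Ne.symm; assumption)) (gk z (by clear * - hd hz1 hz2; simp only [List.nodup_cons, List.mem_cons, List.not_mem_nil, or_false, not_or, List.nodup_nil, not_false_eq_true, and_true] at *; casesm* _ ∧ _; and_intros <;> first | assumption | (apply Ne.symm; assumption))) (gs' z' (by clear * - hd hz1 hz2; simp only [List.nodup_cons, List.mem_cons, List.not_mem_nil, or_false, not_or, List.nodup_nil, not_false_eq_true, and_true] at *; casesm* _ ∧ _; and_intros <;> first | assumption | (apply Ne.symm; assumption)))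
  have g4 : C (dt i j l s) v = -v := lin_two h hℓ hX (x := k) (y := z) (z := r) (w := z')
    (by clear * - hd hz1 hz2; simp only [List.nodup_cons, List.mem_cons, List.not_mem_nil, or_false, not_or, List.nodup_nil, not_false_eq_true, and_true] at *; casesm* _ ∧ _; and_intros <;> first | assumption | (apply Ne.symm; assumption)) (gk z (by clear * - hd hz1 hz2; simp only [List.nodup_cons, List.mem_cons, List.not_mem_nil, or_false, not_or, List.nodup_nil, not_false_eq_true, and_true] at *; casesm* _ ∧ _; and_intros <;> first | assumption | (apply Ne.symm; assumption))) (gr z' (by clear * - hd hz1 hz2; simp only [List.nodup_cons, List.mem_cons, List.not_mem_nil, or_false, not_or, List.nodup_nil, not_false_eq_true, and_true] at *; casesm* _ ∧ _; and_intros <;> first | assumption | (apply Ne.symm; assumption)))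
  have hall : ∀ a b : X, [i, j, a, b].Nodup → C (dt i j a b) v = -v := by
    intro a b hn
    have hab : a ≠ b := by
      simp only [List.nodup_cons, List.mem_cons, List.not_mem_nil, or_false, not_or, List.nodup_nil,
        not_false_eq_true, and_true] at hn
      exact hn.2.2
    have key : ∀ x : X, x ≠ i → x ≠ j → x = k ∨ x = l ∨ x = r ∨ x = s ∨
        [i, j, k, l, r, s, x].Nodup := by
      intro x hxi hxj
      by_cases e1 : x = k
      · exact Or.inl e1
      by_cases e2 : x = l
      · exact Or.inr (Or.inl e2)
      by_cases e3 : x = r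
      · exact Or.inr (Or.inr (Or.inl e3))
      by_cases e4 : x = s
      · exact Or.inr (Or.inr (Or.inr (Or.inl e4)))
      exact Or.inr (Or.inr (Or.inr (Or.inr (by clear * - hd hxi hxj e1 e2 e3 e4; simp only [List.nodup_cons, List.mem_cons, List.not_mem_nil, or_false, not_or, List.nodup_nil, not_false_eq_true, and_true] at *; casesm* _ ∧ _; and_intros <;> first | assumption | (apply Ne.symm; assumption)))))
    simp only [List.nodup_cons, List.mem_cons, List.not_mem_nil, or_false, not_or, List.nodup_nil,
      not_false_eq_true, and_true] at hn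
    rcases key a (Ne.symm hn.1.2.1) (Ne.symm hn.2.1.1) with rfl | rfl | rfl | rfl | ha <;>
    rcases key b (Ne.symm hn.1.2.2) (Ne.symm hn.2.1.2) with rfl | rfl | rfl | rfl | hb
    all_goals first
      | exact absurd rfl hab
      | exact h1
      | exact h2
      | exact gs _ _ h1
      | exact gs _ _ h2
      | exact g1
      | exact g2
      | exact g3
      | exact g4
      | exact gs _ _ g1
      | exact gs _ _ g2
      | exact gs _ _ g3
      | exact gs _ _ g4
      | exact gk _ hb
      | exact gl _ hb
      | exact gr _ hb
      | exact gs' _ hb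
      | exact gs _ _ (gk _ ha)
      | exact gs _ _ (gl _ ha)
      | exact gs _ _ (gr _ ha)
      | exact gs _ _ (gs' _ ha)
      | exact gZ _ _ (by clear * - ha hb hab; simp only [List.nodup_cons, List.mem_cons, List.not_mem_nil, or_false, not_or, List.nodup_nil, not_false_eq_true, and_true] at *; casesm* _ ∧ _; and_intros <;> first | assumption | (apply Ne.symm; assumption))
  refine ⟨fun a b c d hn => ?_, hall⟩
  obtain ⟨x, hx⟩ := lin_pick hX [i, j, a, b, c, d] (by simp)
  obtain ⟨y, hy⟩ := lin_pick hX [i, j, a, b, c, d, x] (by simp)
  exact lin_fix h hℓ hX (i := i) (j := j) (x := x) (y := y) (by clear * - hn hx hy; simp only [List.nodup_cons, List.mem_cons, List.not_mem_nil, or_false, not_or, List.nodup_nil, not_false_eq_true, and_true] at *; casesm* _ ∧ _; and_intros <;> first | assumption | (apply Ne.symm; assumption)) (hall x y (by clear * - hn hx hy; simp only [List.nodup_cons, List.mem_cons, List.not_mem_nil, or_false, not_or, List.nodup_nil, not_false_eq_true, and_true] at *; casesm* _ ∧ _; and_intros <;> first | assumption | (apply Ne.symm; assumption)))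

end Pool.Agent.Lib.MP_89bcae_ag.Ep
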