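import Mathlib
import Pool.Agent.Lib.MP_89bcae_ag.Ep.Lin

/-!
# Existence of the lines
-/

open scoped Classical

namespace Pool.Agent.Lib.MP_89bcae_ag.Ep

variable {ℓ : ℕ} [Fact ℓ.Prime] {X M : Type} [Fintype X] [AddCommGroup M] {σ : M →+ M} {p : M →+ (X → ZMod ℓ) ⧸ Cst ℓ X}
  {C : Equiv.Perm X → M →+ M}

omit [Fact ℓ.Prime] in
private lemma exl_fresh (S : Finset X) (hS : S.card < Fintype.card X) : ∃ x, x ∉ S := by
  by_contra hcon
  push Not at hcon
  have : S = Finset.univ := by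
    ext x; simp [hcon x]
  rw [this, Finset.card_univ] at hS
  exact lt_irrefl _ hS

private lemma exl_four (hX : 9 ≤ Fintype.card X) {i j : X} (hij : i ≠ j) : ∃ k l r s : X, [i, j, k, l, r, s].Nodup := by
  obtain ⟨k, hk⟩ := exl_fresh ({i, j} : Finset X) (lt_of_le_of_lt Finset.card_le_two (by omega))
  obtain ⟨l, hl⟩ := exl_fresh ({i, j, k} : Finset X) (lt_of_le_of_lt Finset.card_le_three (by omega))
  obtain ⟨r, hr⟩ := exl_fresh ({i, j, k, l} : Finset X) (lt_of_le_of_lt Finset.card_le_four (by omega))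
  obtain ⟨s, hs⟩ := exl_fresh ({i, j, k, l, r} : Finset X) (lt_of_le_of_lt Finset.card_le_five (by omega))
  refine ⟨k, l, r, s, ?_⟩
  simp only [Finset.mem_insert, Finset.mem_singleton, not_or] at hk hl hr hs
  simp only [List.nodup_cons, List.mem_cons, not_or, List.not_mem_nil, not_false_eq_true, List.nodup_nil, and_true]
  exact ⟨⟨hij, Ne.symm hk.1, Ne.symm hl.1, Ne.symm hr.1, Ne.symm hs.1⟩,
    ⟨Ne.symm hk.2, Ne.symm hl.2.1, Ne.symm hr.2.1, Ne.symm hs.2.1⟩,
    ⟨Ne.symm hl.2.2, Ne.symm hr.2.2.1, Ne.symm hs.2.2.1⟩, ⟨Ne.symm hr.2.2.2, Ne.symm hs.2.2.2.1⟩, Ne.symm hs.2.2.2.2⟩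

private lemma exl_delta {i j k l : X} (hd : [i, j, k, l].Nodup) (x : X) :
    (Pi.single i (1 : ZMod ℓ) - Pi.single j 1 : X → ZMod ℓ) (dt i j k l x)
      = -(Pi.single i (1 : ZMod ℓ) - Pi.single j 1 : X → ZMod ℓ) x := by
  simp only [List.nodup_cons, List.mem_cons, not_or, List.not_mem_nil, not_false_eq_true, List.nodup_nil, and_true] at hd
  obtain ⟨⟨hij, hik, hil⟩, ⟨hjk, hjl⟩, hkl⟩ := hd
  rw [dt_apply]
  by_cases h1 : x = i
  · subst h1
    rw [Equiv.swap_apply_of_ne_of_ne hik hil, Equiv.swap_apply_left]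
    simp [Pi.single_apply, hij, Ne.symm hij]
  by_cases h2 : x = j
  · subst h2
    rw [Equiv.swap_apply_of_ne_of_ne hjk hjl, Equiv.swap_apply_right]
    simp [Pi.single_apply, hij, Ne.symm hij]
  have h3 : Equiv.swap k l x ≠ i := by
    intro hc
    apply h1
    rw [← Equiv.swap_apply_of_ne_of_ne hik hil] at hc
    exact (Equiv.swap k l).injective hc
  have h4 : Equiv.swap k l x ≠ j := by
    intro hc
    apply h2
    rw [← Equiv.swap_apply_of_ne_of_ne hjk hjl] at hc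
    exact (Equiv.swap k l).injective hc
  rw [Equiv.swap_apply_of_ne_of_ne h3 h4]
  simp [Pi.single_apply, h1, h2, h3, h4]

/-- Proof: choose `k, l, r, s` (`9 ≤ card X`), `w` with `p w = cl (δ_i - δ_j)` (`ran`), and `w = 4 w'` by `half` twice (so
`p w' = cl (c (δ_i - δ_j))`, `4 c = 1`; or use that `p (4 w') = p w`). The vector `v = w' - C s w' - C t w' + C s (C t w')`, with `s = dt i j k l`,
`t = dt i j r s` (they commute), satisfies `C s v = - v`, `C t v = - v`, so it is in `Ln C i j` by `line_of`; and as the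
function `δ_i - δ_j` is mapped to its opposite by `s` and `t`, `p v = cl (δ_i - δ_j)`: `p v` is `4 p w'`. (To be careful with the division by `4`: from
`p w' = cl f`, `4 f = δ_i - δ_j + γ`, deduce `f (s x) = - f x + γ'`, or multiply everything by `4` and use that `x ↦ 4 x` is injective on
`(X → ZMod ℓ) ⧸ Cst`, as `ℓ ≠ 2`.) -/
theorem exists_line (h : Sys ℓ X M σ p C) (hℓ : ℓ ≠ 2) (hX : 9 ≤ Fintype.card X) {i j : X} (hij : i ≠ j) :
    ∃ v ∈ Ln C i j, p v = cl ℓ X (Pi.single i 1 - Pi.single j 1) := by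
  obtain ⟨k, l, r, s, hd⟩ := exl_four hX hij
  have hd0 := hd
  simp only [List.nodup_cons, List.mem_cons, not_or, List.not_mem_nil, not_false_eq_true, List.nodup_nil, and_true] at hd0
  obtain ⟨⟨-, hik, hil, hir, his⟩, ⟨hjk, hjl, hjr, hjs⟩, ⟨hkl, hkr, hks⟩, ⟨hlr, hls⟩, hrs⟩ := hd0
  have hd1 : [i, j, k, l].Nodup := by
    simp only [List.nodup_cons, List.mem_cons, not_or, List.not_mem_nil, not_false_eq_true, List.nodup_nil, and_true]
    exact ⟨⟨hij, hik, hil⟩, ⟨hjk, hjl⟩, hkl⟩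
  have hd2 : [i, j, r, s].Nodup := by
    simp only [List.nodup_cons, List.mem_cons, not_or, List.not_mem_nil, not_false_eq_true, List.nodup_nil, and_true]
    exact ⟨⟨hij, hir, his⟩, ⟨hjr, hjs⟩, hrs⟩
  have hd3 : [k, l, r, s].Nodup := by
    simp only [List.nodup_cons, List.mem_cons, not_or, List.not_mem_nil, not_false_eq_true, List.nodup_nil, and_true]
    exact ⟨⟨hkl, hkr, hks⟩, ⟨hlr, hls⟩, hrs⟩
  have hs := dt_mem hd1
  have ht := dt_mem hd2
  have c1 : Commute (Equiv.swap i j) (Equiv.swap k l) := (Equiv.Perm.disjoint_swap_swap hd1).commute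
  have c2 : Commute (Equiv.swap i j) (Equiv.swap r s) := (Equiv.Perm.disjoint_swap_swap hd2).commute
  have c3 : Commute (Equiv.swap k l) (Equiv.swap r s) := (Equiv.Perm.disjoint_swap_swap hd3).commute
  have hcomm : Commute (dt i j k l) (dt i j r s) := by
    unfold dt
    exact ((Commute.refl _).mul_right c2).mul_left (c1.symm.mul_right c3)
  have hst : dt i j k l * dt i j r s = dt i j r s * dt i j k l := hcomm.eq
  have hswap : ∀ u : M, C (dt i j r s) (C (dt i j k l) u) = C (dt i j k l) (C (dt i j r s) u) := by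
    intro u
    rw [h.mul _ ht _ hs hst.symm, h.mul _ hs _ ht hst, hst]
  set δ : X → ZMod ℓ := Pi.single i 1 - Pi.single j 1 with hδ
  have hsum : ∑ x, δ x = 0 := by
    simp [hδ, Finset.sum_sub_distrib]
  obtain ⟨w, hw⟩ := h.ran δ hsum
  obtain ⟨w1, hw1⟩ := h.half w
  obtain ⟨w2, hw2⟩ := h.half w1
  set v : M := w2 - C (dt i j k l) w2 - C (dt i j r s) w2 + C (dt i j k l) (C (dt i j r s) w2) with hv
  have hCs : C (dt i j k l) v = -v := by
    rw [hv, map_add, map_sub, map_sub, h.sq _ hs, h.sq _ hs]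
    abel
  have hCt : C (dt i j r s) v = -v := by
    rw [hv, map_add, map_sub, map_sub, h.sq _ ht, hswap, hswap, h.sq _ ht]
    abel
  refine ⟨v, line_of h hℓ hX hd hCs hCt, ?_⟩
  -- the class of `v`
  have e1 : (fun x => δ (dt i j k l x)) = -δ := by
    funext x; rw [hδ]; exact exl_delta hd1 x
  have e2 : (fun x => δ (dt i j r s x)) = -δ := by
    funext x; rw [hδ]; exact exl_delta hd2 x
  have a1 : p (C (dt i j k l) w) = -cl ℓ X δ := by
    rw [h.act _ hs w δ hw, e1, map_neg]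
  have a2 : p (C (dt i j r s) w) = -cl ℓ X δ := by
    rw [h.act _ ht w δ hw, e2, map_neg]
  have a3 : p (C (dt i j k l) (C (dt i j r s) w)) = cl ℓ X δ := by
    have a2' : p (C (dt i j r s) w) = cl ℓ X (-δ) := by rw [a2, map_neg]
    rw [h.act _ hs _ _ a2']
    congr 1
    funext x
    have := congrFun e1 x
    simp only [Pi.neg_apply] at this ⊢
    rw [this, neg_neg]
  have h4 : (4 : ℕ) • v = w - C (dt i j k l) w - C (dt i j r s) w + C (dt i j k l) (C (dt i j r s) w) := by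
    have hw4 : w = (4 : ℕ) • w2 := by
      rw [hw1, hw2]; abel
    rw [hw4, map_nsmul, map_nsmul, map_nsmul, hv]
    simp only [smul_add, smul_sub]
  have hp4 : (4 : ℕ) • p v = (4 : ℕ) • cl ℓ X δ := by
    rw [← map_nsmul, h4, map_add, map_sub, map_sub, hw, a1, a2, a3]
    abel
  obtain ⟨g, hg⟩ := cl_surjective ℓ X (p v)
  have h2ne : (2 : ZMod ℓ) ≠ 0 := by
    intro hc
    have hp : (ℓ : ℕ) ∣ 2 := (ZMod.natCast_eq_zero_iff 2 ℓ).1 (by exact_mod_cast hc)
    exact hℓ ((Nat.prime_dvd_prime_iff_eq (Fact.out : ℓ.Prime) Nat.prime_two).1 hp)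
  have h4ne : (4 : ZMod ℓ) ≠ 0 := by
    have : (4 : ZMod ℓ) = 2 * 2 := by norm_num
    rw [this]
    exact mul_ne_zero h2ne h2ne
  rw [← hg, ← map_nsmul, ← map_nsmul, cl_eq] at hp4
  obtain ⟨c, hc⟩ := hp4
  rw [← hg, cl_eq]
  refine ⟨4⁻¹ * c, fun x => ?_⟩
  have hcx := hc x
  simp only [Pi.smul_apply, nsmul_eq_mul, Nat.cast_ofNat] at hcx
  have : (4 : ZMod ℓ) * g x = 4 * (δ x + 4⁻¹ * c) := by
    rw [hcx, mul_add, ← mul_assoc, mul_inv_cancel₀ h4ne, one_mul]
  exact mul_left_cancel₀ h4ne this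

end Pool.Agent.Lib.MP_89bcae_ag.Ep
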