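import Mathlib
import Pool.Agent.Lib.MP_89bcae_ag.Ep.Exl

/-!
# The vectors `u x`
-/

open scoped Classical

namespace Pool.Agent.Lib.MP_89bcae_ag.Ep

section aux

variable {X : Type}

private theorem us_fst {a b c d : X} (h : [a, b, c, d].Nodup) : dt a b c d a = b := by
  have h1 : a ≠ c := by grind
  have h2 : a ≠ d := by grind
  rw [dt_apply, Equiv.swap_apply_of_ne_of_ne h1 h2, Equiv.swap_apply_left]

private theorem us_ne {a b c d x : X} (ha : x ≠ a) (hb : x ≠ b) (hc : x ≠ c) (hd : x ≠ d) : dt a b c d x = x := by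
  rw [dt_apply, Equiv.swap_apply_of_ne_of_ne hc hd, Equiv.swap_apply_of_ne_of_ne ha hb]

private theorem us_s1 (a b c d : X) : dt a b c d = dt b a c d := by
  unfold dt
  rw [Equiv.swap_comm]

private theorem us_s2 (a b c d : X) : dt a b c d = dt a b d c := by
  unfold dt
  rw [Equiv.swap_comm c d]

private theorem us_s3 {a b c d : X} (h : [a, b, c, d].Nodup) : dt a b c d = dt c d a b := by
  have h1 : Equiv.swap a b c = c := Equiv.swap_apply_of_ne_of_ne (by grind) (by grind)
  have h2 : Equiv.swap a b d = d := Equiv.swap_apply_of_ne_of_ne (by grind) (by grind)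
  have h3 := Equiv.swap_apply_apply (Equiv.swap a b) c d
  rw [h1, h2] at h3
  unfold dt
  rw [eq_mul_inv_iff_mul_eq] at h3
  exact h3.symm

private theorem us_snd {a b c d : X} (h : [a, b, c, d].Nodup) : dt a b c d b = a := by
  rw [us_s1]
  exact us_fst (by grind)

private theorem us_trd {a b c d : X} (h : [a, b, c, d].Nodup) : dt a b c d c = d := by
  rw [us_s3 h]
  exact us_fst (by grind)

private theorem us_fth {a b c d : X} (h : [a, b, c, d].Nodup) : dt a b c d d = c := by
  rw [us_s2]
  exact us_trd (by grind)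

private theorem us_conj {s : Equiv.Perm X} (hs : s * s = 1) (i j k l : X) :
    s * dt i j k l * s = dt (s i) (s j) (s k) (s l) := by
  have h1 : s⁻¹ = s := inv_eq_of_mul_eq_one_left hs
  unfold dt
  rw [Equiv.swap_apply_apply, Equiv.swap_apply_apply, h1]
  have : s * Equiv.swap i j * s * (s * Equiv.swap k l * s) = s * Equiv.swap i j * (s * s) * Equiv.swap k l * s := by
    simp only [mul_assoc]
  rw [this, hs, mul_one]
  simp only [mul_assoc]

private theorem us_fresh [Fintype X] (hX : 9 ≤ Fintype.card X) (L : List X) (hL : L.length ≤ 7) :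
    ∃ e f, e ≠ f ∧ e ∉ L ∧ f ∉ L := by
  have h1 : L.toFinset.card ≤ 7 := (List.toFinset_card_le L).trans hL
  obtain ⟨e, he⟩ : ∃ e, e ∉ L.toFinset := by
    by_contra hcon
    push Not at hcon
    have := Finset.eq_univ_iff_forall.2 hcon
    rw [this, Finset.card_univ] at h1
    omega
  obtain ⟨f, hf⟩ : ∃ f, f ∉ insert e L.toFinset := by
    by_contra hcon
    push Not at hcon
    have h2 := Finset.eq_univ_iff_forall.2 hcon
    have h3 := Finset.card_insert_le e L.toFinset
    rw [h2, Finset.card_univ] at h3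
    omega
  rw [Finset.mem_insert, not_or] at hf
  exact ⟨e, f, fun h => hf.1 h.symm, fun h => he (List.mem_toFinset.2 h), fun h => hf.2 (List.mem_toFinset.2 h)⟩

end aux

variable {ℓ : ℕ} [Fact ℓ.Prime] {X M : Type} [Fintype X] [AddCommGroup M] {σ : M →+ M} {p : M →+ (X → ZMod ℓ) ⧸ Cst ℓ X}
  {C : Equiv.Perm X → M →+ M}

private theorem us_indep1 (h : Sys ℓ X M σ p C) {z i x l m l' m' : X}
    (hd : [z, i, x, l, m, l', m'].Nodup) {v : M} (hv : v ∈ Ln C z i) :
    C (dt i x l m) v = C (dt i x l' m') v := by
  have hs : dt i x l m ∈ Inv2 X := dt_mem (by grind)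
  have ht : dt l m l' m' ∈ Inv2 X := dt_mem (by grind)
  have h1 : dt i x l m * dt l m l' m' = dt i x l' m' := by
    unfold dt
    rw [mul_assoc, ← mul_assoc (Equiv.swap l m), Equiv.swap_mul_self, one_mul]
  have h2 : dt l m l' m' * dt i x l m = dt i x l' m' := by
    rw [us_s3 (a := l) (b := m) (c := l') (d := m') (by grind), us_s3 (a := i) (b := x) (c := l) (d := m) (by grind),
      us_s3 (a := i) (b := x) (c := l') (d := m') (by grind)]
    unfold dt
    rw [mul_assoc, ← mul_assoc (Equiv.swap l m), Equiv.swap_mul_self, one_mul]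
  have h3 := h.mul _ hs _ ht (h1.trans h2.symm) v
  rw [h1, hv.1 l m l' m' (by grind)] at h3
  exact h3

/-- Independence of the choice. Proof: if `{l, m}` and `{l', m'}` are disjoint: `dt i x l' m' = dt i x l m * dt l m l' m'`, and
`dt l m l' m'`, disjoint from `{z, i}`, fixes `v` (`mul`, definition of `Ln`). In general take a third pair disjoint from `{z, i, x}` and from the two
pairs (`9 ≤ card X`). -/
theorem indep (h : Sys ℓ X M σ p C) (hX : 9 ≤ Fintype.card X) {z i x l m l' m' : X} (hd : [z, i, x, l, m].Nodup)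
    (hd' : [z, i, x, l', m'].Nodup) {v : M} (hv : v ∈ Ln C z i) : C (dt i x l m) v = C (dt i x l' m') v := by
  obtain ⟨e, f, hef, he, hf⟩ := us_fresh hX [z, i, x, l, m, l', m'] (by simp)
  rw [us_indep1 h (z := z) (i := i) (x := x) (l := l) (m := m) (l' := e) (m' := f) (by grind) hv,
    us_indep1 h (z := z) (i := i) (x := x) (l := l') (m := m') (l' := e) (m' := f) (by grind) hv]

private theorem us_main (h : Sys ℓ X M σ p C) (hX : 9 ≤ Fintype.card X) {z i : X} (hzi : i ≠ z) {v : M}
    (hv : v ∈ Ln C z i) {u : X → M} (hi : u i = v)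
    (hu : ∀ x l m, [z, i, x, l, m].Nodup → u x = C (dt i x l m) v)
    {a b c d : X} (hd : [z, a, b, c, d].Nodup) : C (dt a b c d) (u a) = u b := by
  have key : ∀ {a b c d : X}, [z, a, b, c, d].Nodup → i ≠ a → i ≠ b → i ≠ c → i ≠ d →
      C (dt a b c d) (u a) = u b := by
    intro a b c d hd ha hb hc hd'
    have hs : dt a b c d ∈ Inv2 X := dt_mem (by grind)
    have ht : dt i a c d ∈ Inv2 X := dt_mem (by grind)
    have h1 := h.conj _ hs _ ht (C (dt a b c d) v)
    rw [h.sq _ hs, us_conj hs.2, us_ne ha hb hc hd', us_fst (by grind), us_trd (by grind), us_fth (by grind),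
      hv.1 a b c d (by grind)] at h1
    rw [hu a c d (by grind), h1, hu b d c (by grind)]
  have key2 : ∀ {a b d : X}, [z, a, b, i, d].Nodup → C (dt a b i d) (u a) = u b := by
    intro a b d hd
    obtain ⟨e, f, hef, he, hf⟩ := us_fresh hX [z, a, b, i, d] (by simp)
    have hs : dt a b i d ∈ Inv2 X := dt_mem (by grind)
    have ht : dt i a e f ∈ Inv2 X := dt_mem (by grind)
    have h1 := h.conj _ hs _ ht (C (dt a b i d) v)
    rw [h.sq _ hs, us_conj hs.2, us_trd (by grind), us_fst (by grind), us_ne (x := e) (by grind) (by grind) (by grind) (by grind),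
      us_ne (x := f) (by grind) (by grind) (by grind) (by grind)] at h1
    have h2 : C (dt a b i d) v = u d := by
      rw [us_s3 (by grind), hu d a b (by grind)]
    rw [h2] at h1
    rw [hu a e f (by grind), h1]
    exact key (by grind) (by grind) (by grind) (by grind) (by grind)
  by_cases ha : a = i
  · subst ha
    rw [hi, hu b c d (by grind)]
  by_cases hb : b = i
  · subst hb
    rw [hu a c d (by grind), us_s1 a b c d, h.sq _ (dt_mem (by grind)), hi]
  by_cases hc : c = i
  · subst hc
    exact key2 hd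
  by_cases hd' : d = i
  · subst hd'
    rw [us_s2]
    exact key2 (by grind)
  exact key hd (fun h => ha h.symm) (fun h => hb h.symm) (fun h => hc h.symm) (fun h => hd' h.symm)

/-- Proof: let `i ≠ z`, `v ∈ Ln C i z`, `p v = cl (δ_i - δ_z)` (`exists_line`, `Ln_symm`). Define `u z = 0`, `u i = v` and, for the other `x`,
`u x = C (dt i x l m) v` for some `l, m` outside `{z, i, x}`; by `indep` it does not depend on `l, m`; `u x ∈ Ln C z x` by `Ln_conj`, and
`p (u x)` by `act`. Let now `s = dt a b c d`, disjoint from `z`. If `x` is not one of `a, b, c, d`, `C s (u x) = u x` by the definition of `Ln C z x`.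
Let `x = a`, `s x = b` (the other cases are the same by the symmetries of `dt`). If `a = i`: by definition (`indep`). If `b = i`:
`u a = C (dt i a c d) v = C s v` and `sq`. If `i ≠ a, b, c, d`: `u a = C t v` with `t = dt i a c d`, `C s (C t v) = C (s t s) (C s v)` (`conj`, `sq`),
`s t s = dt i b c d`, `C s v = v`, and `C (dt i b c d) v = u b`. If `i = c` (or `d`): let `e, f` be outside
`{z, a, b, c, d}`: `u a = C t v`, `t = dt i a e f`, `s t s = dt d b e f`, so `C s (C t v) = C (dt d b e f) (C s v) = C (dt d b e f) (u d)`, which is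
`u b` by the previous case. -/
theorem exists_u (h : Sys ℓ X M σ p C) (hℓ : ℓ ≠ 2) (hX : 9 ≤ Fintype.card X) (z : X) :
    ∃ u : X → M, u z = 0 ∧ (∀ x, x ≠ z → u x ∈ Ln C z x) ∧
      (∀ x, p (u x) = cl ℓ X (Pi.single x 1 - Pi.single z 1)) ∧
      ∀ a b c d, [z, a, b, c, d].Nodup → ∀ x, C (dt a b c d) (u x) = u (dt a b c d x) := by
  obtain ⟨i, -, -, hiz, -⟩ := us_fresh hX [z] (by simp)
  have hzi : i ≠ z := by
    intro h
    exact hiz (by simp [h])
  obtain ⟨v, hv', hpv⟩ := exists_line h hℓ hX hzi
  have hv : v ∈ Ln C z i := Ln_symm hv'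
  have hex : ∀ x : X, ∃ lm : X × X, x ≠ z → x ≠ i → [z, i, x, lm.1, lm.2].Nodup := by
    intro x
    obtain ⟨e, f, hef, he, hf⟩ := us_fresh hX [z, i, x] (by simp)
    exact ⟨(e, f), fun h1 h2 => by grind⟩
  choose lm hlm using hex
  let u : X → M := fun x => if x = z then 0 else if x = i then v else C (dt i x (lm x).1 (lm x).2) v
  have huz : u z = 0 := if_pos rfl
  have hui : u i = v := by
    show (if i = z then 0 else if i = i then v else C (dt i i (lm i).1 (lm i).2) v) = v
    rw [if_neg hzi, if_pos rfl]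
  have hu : ∀ x l m, [z, i, x, l, m].Nodup → u x = C (dt i x l m) v := by
    intro x l m hd
    have h1 : x ≠ z := by grind
    have h2 : x ≠ i := by grind
    show (if x = z then 0 else if x = i then v else C (dt i x (lm x).1 (lm x).2) v) = _
    rw [if_neg h1, if_neg h2]
    exact indep h hX (hlm x h1 h2) hd hv
  have hL : ∀ x, x ≠ z → u x ∈ Ln C z x := by
    intro x hx
    by_cases hxi : x = i
    · subst hxi
      rw [hui]
      exact hv
    · have hd := hlm x hx hxi
      rw [hu x _ _ hd]
      have hs : dt i x (lm x).1 (lm x).2 ∈ Inv2 X := dt_mem (by grind)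
      have h1 := Ln_conj h hs hv
      rw [us_fst (by grind), us_ne (by grind) (by grind) (by grind) (by grind)] at h1
      exact h1
  refine ⟨u, huz, hL, ?_, ?_⟩
  · intro x
    by_cases hx : x = z
    · subst hx
      rw [huz, sub_self, map_zero, map_zero]
    by_cases hxi : x = i
    · subst hxi
      rw [hui]
      exact hpv
    have hd := hlm x hx hxi
    have hs : dt i x (lm x).1 (lm x).2 ∈ Inv2 X := dt_mem (by grind)
    rw [hu x _ _ hd, h.act _ hs v _ hpv]
    congr 1
    funext y
    have h1 : ∀ w : X, (dt i x (lm x).1 (lm x).2 y = w) ↔ (y = dt i x (lm x).1 (lm x).2 w) := by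
      intro w
      have h2 : ∀ w, dt i x (lm x).1 (lm x).2 (dt i x (lm x).1 (lm x).2 w) = w := by
        intro w
        rw [← Equiv.Perm.mul_apply, hs.2, Equiv.Perm.one_apply]
      constructor
      · intro h3
        rw [← h3, h2]
      · intro h3
        rw [h3, h2]
    rw [Pi.sub_apply, Pi.sub_apply, Pi.single_apply, Pi.single_apply, Pi.single_apply, Pi.single_apply]
    rw [h1 i, h1 z, us_fst (by grind), us_ne (x := z) (by grind) (by grind) (by grind) (by grind)]
  · intro a b c d hd x
    by_cases hx : x = z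
    · subst hx
      rw [huz, map_zero, us_ne (by grind) (by grind) (by grind) (by grind), huz]
    by_cases hxa : x = a
    · subst hxa
      rw [us_fst (by grind)]
      exact us_main h hX hzi hv hui hu hd
    by_cases hxb : x = b
    · subst hxb
      rw [us_snd (by grind), us_s1]
      exact us_main h hX hzi hv hui hu (by grind)
    by_cases hxc : x = c
    · subst hxc
      rw [us_trd (by grind), us_s3 (by grind)]
      exact us_main h hX hzi hv hui hu (by grind)
    by_cases hxd : x = d
    · subst hxd
      rw [us_fth (by grind), us_s3 (by grind), us_s1]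
      exact us_main h hX hzi hv hui hu (by grind)
    rw [us_ne hxa hxb hxc hxd]
    exact (hL x hx).1 a b c d (by grind)

end Pool.Agent.Lib.MP_89bcae_ag.Ep
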