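import Mathlib
import Pool.Agent.Lib.MP_89bcae_ag.Ep.Us

/-!
# The action of the double transpositions which move the base point
-/

open scoped Classical

namespace Pool.Agent.Lib.MP_89bcae_ag.Ep

variable {ℓ : ℕ} [Fact ℓ.Prime] {X M : Type} [Fintype X] [AddCommGroup M] {σ : M →+ M} {p : M →+ (X → ZMod ℓ) ⧸ Cst ℓ X}
  {C : Equiv.Perm X → M →+ M}

omit [Fintype X] in
private theorem brd_mul (s : Equiv.Perm X) (a b c d : X) :
    s * dt a b c d = dt (s a) (s b) (s c) (s d) * s := by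
  unfold dt
  calc s * (Equiv.swap a b * Equiv.swap c d) = (s * Equiv.swap a b) * Equiv.swap c d :=
        (mul_assoc _ _ _).symm
    _ = Equiv.swap (s a) (s b) * s * Equiv.swap c d := by rw [Equiv.mul_swap_eq_swap_mul s a b]
    _ = Equiv.swap (s a) (s b) * (s * Equiv.swap c d) := mul_assoc _ _ _
    _ = Equiv.swap (s a) (s b) * (Equiv.swap (s c) (s d) * s) := by
        rw [Equiv.mul_swap_eq_swap_mul s c d]
    _ = _ := (mul_assoc _ _ _).symm

private theorem brd_fresh (hX : 9 ≤ Fintype.card X) (L : List X) (hL : L.length ≤ 8) :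
    ∃ x, x ∉ L := by
  by_contra h
  push Not at h
  have h1 : (Finset.univ : Finset X) ⊆ L.toFinset := fun x _ => List.mem_toFinset.mpr (h x)
  have h2 := Finset.card_le_card h1
  have h3 := List.toFinset_card_le L
  rw [Finset.card_univ] at h2
  omega

omit [Fintype X] in
private theorem brd_fix {a b c d x : X} (h1 : x ≠ a) (h2 : x ≠ b) (h3 : x ≠ c) (h4 : x ≠ d) :
    dt a b c d x = x := by
  unfold dt
  rw [Equiv.Perm.mul_apply, Equiv.swap_apply_of_ne_of_ne h3 h4, Equiv.swap_apply_of_ne_of_ne h1 h2]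

omit [Fintype X] in
private theorem brd_1 {a b c d : X} (h3 : a ≠ c) (h4 : a ≠ d) :
    dt a b c d a = b := by
  unfold dt
  rw [Equiv.Perm.mul_apply, Equiv.swap_apply_of_ne_of_ne h3 h4, Equiv.swap_apply_left]

omit [Fintype X] in
private theorem brd_2 {a b c d : X} (h3 : b ≠ c) (h4 : b ≠ d) :
    dt a b c d b = a := by
  unfold dt
  rw [Equiv.Perm.mul_apply, Equiv.swap_apply_of_ne_of_ne h3 h4, Equiv.swap_apply_right]

omit [Fintype X] in
private theorem brd_3 {a b c d : X} (h3 : d ≠ a) (h4 : d ≠ b) :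
    dt a b c d c = d := by
  unfold dt
  rw [Equiv.Perm.mul_apply, Equiv.swap_apply_left, Equiv.swap_apply_of_ne_of_ne h3 h4]

omit [Fintype X] in
private theorem brd_4 {a b c d : X} (h3 : c ≠ a) (h4 : c ≠ b) :
    dt a b c d d = c := by
  unfold dt
  rw [Equiv.Perm.mul_apply, Equiv.swap_apply_right, Equiv.swap_apply_of_ne_of_ne h3 h4]

omit [Fintype X] in
private theorem brd_comm {a b c d i j k l : X} (h : [a, b, c, d, i, j, k, l].Nodup) :
    dt a b c d * dt i j k l = dt i j k l * dt a b c d := by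
  simp only [List.nodup_cons, List.mem_cons, not_or, List.not_mem_nil, not_false_eq_true, and_true,
    List.nodup_nil] at h
  obtain ⟨⟨h1, h2, h3, h4, h5, h6, h7⟩, ⟨h8, h9, h10, h11, h12, h13⟩, ⟨h14, h15, h16, h17, h18⟩,
    ⟨h19, h20, h21, h22⟩, ⟨h23, h24, h25⟩, ⟨h26, h27⟩, h28⟩ := h
  rw [brd_mul, brd_fix (Ne.symm h4) (Ne.symm h10) (Ne.symm h15) (Ne.symm h19),
    brd_fix (Ne.symm h5) (Ne.symm h11) (Ne.symm h16) (Ne.symm h20),
    brd_fix (Ne.symm h6) (Ne.symm h12) (Ne.symm h17) (Ne.symm h21),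
    brd_fix (Ne.symm h7) (Ne.symm h13) (Ne.symm h18) (Ne.symm h22)]

/-- Proof: `y = v - C (dt z i l m) v` satisfies `C (dt z i l m) y = - y`. It does not depend on the choice of `l, m` (outside
`{z, i, k}`): for a disjoint pair `l', m'`, `dt z i l' m' = dt z i l m * dt l m l' m'` and `dt l m l' m'` fixes `v ∈ Ln C z k`.
So `C (dt z i l' m') y = - y` too, and `line_of`. -/
theorem sub_mem_line (h : Sys ℓ X M σ p C) (hℓ : ℓ ≠ 2) (hX : 9 ≤ Fintype.card X) {z i k l m : X}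
    (hd : [z, i, k, l, m].Nodup) {v : M} (hv : v ∈ Ln C z k) : v - C (dt z i l m) v ∈ Ln C z i := by
  obtain ⟨l', hl'⟩ := brd_fresh hX [z, i, k, l, m] (by simp)
  obtain ⟨m', hm'⟩ := brd_fresh hX [z, i, k, l, m, l'] (by simp)
  simp only [List.nodup_cons, List.mem_cons, not_or, List.not_mem_nil, not_false_eq_true, and_true,
    List.nodup_nil] at hd hl' hm'
  obtain ⟨⟨d1, d2, d3, d4⟩, ⟨d5, d6, d7⟩, ⟨d8, d9⟩, d10⟩ := hd
  obtain ⟨a1, a2, a3, a4, a5⟩ := hl'
  obtain ⟨b1, b2, b3, b4, b5, b6⟩ := hm'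
  have hs : dt z i l m ∈ Inv2 X := dt_mem (by
    simp only [List.nodup_cons, List.mem_cons, not_or, List.not_mem_nil, not_false_eq_true, and_true,
      List.nodup_nil]
    exact ⟨⟨d1, d3, d4⟩, ⟨d6, d7⟩, d10⟩)
  have hs' : dt z i l' m' ∈ Inv2 X := dt_mem (by
    simp only [List.nodup_cons, List.mem_cons, not_or, List.not_mem_nil, not_false_eq_true, and_true,
      List.nodup_nil]
    exact ⟨⟨d1, Ne.symm a1, Ne.symm b1⟩, ⟨Ne.symm a2, Ne.symm b2⟩, Ne.symm b6⟩)
  have hu : dt l m l' m' ∈ Inv2 X := dt_mem (by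
    simp only [List.nodup_cons, List.mem_cons, not_or, List.not_mem_nil, not_false_eq_true, and_true,
      List.nodup_nil]
    exact ⟨⟨d10, Ne.symm a4, Ne.symm b4⟩, ⟨Ne.symm a5, Ne.symm b5⟩, Ne.symm b6⟩)
  have hprod : dt z i l m * dt l m l' m' = dt z i l' m' := by
    unfold dt
    rw [mul_assoc, ← mul_assoc (Equiv.swap l m), Equiv.swap_mul_self, one_mul]
  have hcomm : dt z i l m * dt l m l' m' = dt l m l' m' * dt z i l m := by
    rw [brd_mul (dt l m l' m'), brd_fix d3 d4 (Ne.symm a1) (Ne.symm b1),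
      brd_fix d6 d7 (Ne.symm a2) (Ne.symm b2), brd_1 (Ne.symm a4) (Ne.symm b4),
      brd_2 (Ne.symm a5) (Ne.symm b5)]
    unfold dt
    rw [Equiv.swap_comm m l]
  have hfix : C (dt l m l' m') v = v := hv.1 l m l' m' (by
    simp only [List.nodup_cons, List.mem_cons, not_or, List.not_mem_nil, not_false_eq_true, and_true,
      List.nodup_nil]
    exact ⟨⟨d2, d3, d4, Ne.symm a1, Ne.symm b1⟩, ⟨d8, d9, Ne.symm a3, Ne.symm b3⟩,
      ⟨d10, Ne.symm a4, Ne.symm b4⟩, ⟨Ne.symm a5, Ne.symm b5⟩, Ne.symm b6⟩)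
  have heq : C (dt z i l' m') v = C (dt z i l m) v := by
    have h1 := h.mul _ hs _ hu hcomm v
    rw [hfix, hprod] at h1
    exact h1.symm
  refine line_of h hℓ hX (k := l) (l := m) (r := l') (s := m') ?_ ?_ ?_
  · simp only [List.nodup_cons, List.mem_cons, not_or, List.not_mem_nil, not_false_eq_true, and_true,
      List.nodup_nil]
    exact ⟨⟨d1, d3, d4, Ne.symm a1, Ne.symm b1⟩, ⟨d6, d7, Ne.symm a2, Ne.symm b2⟩,
      ⟨d10, Ne.symm a4, Ne.symm b4⟩, ⟨Ne.symm a5, Ne.symm b5⟩, Ne.symm b6⟩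
  · rw [map_sub, h.sq _ hs, neg_sub]
  · rw [← heq, map_sub, h.sq _ hs', neg_sub]

/-- Proof: take `i, r, s` outside `{z, j, k, l, m}`, `r, s ≠ i` (`9 ≤ card X`). Write `c i = dt z i l m`, `c j = dt z j l m`, `b = dt i j l m`,
`y i = u k - C (c i) (u k)`, `y j = u k - C (c j) (u k)`; they are in `Ln C z i`, `Ln C z j` by `sub_mem_line`. We have
`b (c i) b = c j = (c i) b (c i)` in the group of the permutations. As `C b (u k) = u k`, `y j = C b (y i)` (`conj`: `C (c j) (u k) = C b (C (c i) (C b (u k)))`).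
And `C (c j) (u k) = C (c i) (C b (C (c i) (u k))) = C (c i) (C b (u k - y i)) = C (c i) (u k - y j) = u k - y i - C (c i) (y j)`, so
`y j - C (c i) (y j) = y i`. With `b' = dt j k r s`: `u j = C b' (u k)`, `b'` and `c i` are disjoint so they commute (`mul`), `C b' (y i) = y i`, so
`u j - C (c i) (u j) = C b' (u k - C (c i) (u k)) = C b' (y i) = y i`. So `C (c i) (y j - u j) = y j - u j`, and `y j = u j` by `Ln_inj`. -/
theorem braid (h : Sys ℓ X M σ p C) (hℓ : ℓ ≠ 2) (hX : 9 ≤ Fintype.card X) {z : X} {u : X → M}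
    (hu1 : ∀ x, x ≠ z → u x ∈ Ln C z x)
    (hu : ∀ a b c d, [z, a, b, c, d].Nodup → ∀ x, C (dt a b c d) (u x) = u (dt a b c d x)) {j k l m : X}
    (hd : [z, j, k, l, m].Nodup) : u k - C (dt z j l m) (u k) = u j := by
  obtain ⟨i, hi⟩ := brd_fresh hX [z, j, k, l, m] (by simp)
  obtain ⟨r, hr⟩ := brd_fresh hX [z, j, k, l, m, i] (by simp)
  obtain ⟨s, hs⟩ := brd_fresh hX [z, j, k, l, m, i, r] (by simp)
  simp only [List.nodup_cons, List.mem_cons, not_or, List.not_mem_nil, not_false_eq_true, and_true,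
    List.nodup_nil] at hd hi hr hs
  obtain ⟨⟨d1, d2, d3, d4⟩, ⟨d5, d6, d7⟩, ⟨d8, d9⟩, d10⟩ := hd
  obtain ⟨a1, a2, a3, a4, a5⟩ := hi
  obtain ⟨b1, b2, b3, b4, b5, b6⟩ := hr
  obtain ⟨c1, c2, c3, c4, c5, c6, c7⟩ := hs
  have hci : dt z i l m ∈ Inv2 X := dt_mem (by
    simp only [List.nodup_cons, List.mem_cons, not_or, List.not_mem_nil, not_false_eq_true, and_true,
      List.nodup_nil]
    exact ⟨⟨Ne.symm a1, d3, d4⟩, ⟨a4, a5⟩, d10⟩)
  have hb : dt i j l m ∈ Inv2 X := dt_mem (by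
    simp only [List.nodup_cons, List.mem_cons, not_or, List.not_mem_nil, not_false_eq_true, and_true,
      List.nodup_nil]
    exact ⟨⟨a2, a4, a5⟩, ⟨d6, d7⟩, d10⟩)
  have hb' : dt j k r s ∈ Inv2 X := dt_mem (by
    simp only [List.nodup_cons, List.mem_cons, not_or, List.not_mem_nil, not_false_eq_true, and_true,
      List.nodup_nil]
    exact ⟨⟨d5, Ne.symm b2, Ne.symm c2⟩, ⟨Ne.symm b3, Ne.symm c3⟩, Ne.symm c7⟩)
  have e1 : dt i j l m * dt z i l m * dt i j l m = dt z j l m := by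
    rw [brd_mul (dt i j l m), mul_assoc, hb.2, mul_one,
      brd_fix (Ne.symm a1) d1 d3 d4, brd_1 a4 a5, brd_3 (Ne.symm a5) (Ne.symm d7),
      brd_4 (Ne.symm a4) (Ne.symm d6)]
    unfold dt
    rw [Equiv.swap_comm m l]
  have e2 : dt z i l m * dt i j l m * dt z i l m = dt z j l m := by
    rw [brd_mul (dt z i l m), mul_assoc, hci.2, mul_one,
      brd_2 a4 a5, brd_fix (Ne.symm d1) (Ne.symm a2) d6 d7, brd_3 (Ne.symm d4) (Ne.symm a5),
      brd_4 (Ne.symm d3) (Ne.symm a4)]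
    unfold dt
    rw [Equiv.swap_comm m l]
  have hk : C (dt i j l m) (u k) = u k := by
    rw [hu i j l m (by
      simp only [List.nodup_cons, List.mem_cons, not_or, List.not_mem_nil, not_false_eq_true,
        and_true, List.nodup_nil]
      exact ⟨⟨Ne.symm a1, d1, d3, d4⟩, ⟨a2, a4, a5⟩, ⟨d6, d7⟩, d10⟩) k,
      brd_fix (Ne.symm a3) (Ne.symm d5) d8 d9]
  have hj : C (dt j k r s) (u k) = u j := by
    rw [hu j k r s (by
      simp only [List.nodup_cons, List.mem_cons, not_or, List.not_mem_nil, not_false_eq_true,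
        and_true, List.nodup_nil]
      exact ⟨⟨d1, d2, Ne.symm b1, Ne.symm c1⟩, ⟨d5, Ne.symm b2, Ne.symm c2⟩,
        ⟨Ne.symm b3, Ne.symm c3⟩, Ne.symm c7⟩) k,
      brd_2 (Ne.symm b3) (Ne.symm c3)]
  have hyi : u k - C (dt z i l m) (u k) ∈ Ln C z i :=
    sub_mem_line h hℓ hX (by
      simp only [List.nodup_cons, List.mem_cons, not_or, List.not_mem_nil, not_false_eq_true,
        and_true, List.nodup_nil]
      exact ⟨⟨Ne.symm a1, d2, d3, d4⟩, ⟨a3, a4, a5⟩, ⟨d8, d9⟩, d10⟩) (hu1 k (Ne.symm d2))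
  have hyj : u k - C (dt z j l m) (u k) ∈ Ln C z j :=
    sub_mem_line h hℓ hX (by
      simp only [List.nodup_cons, List.mem_cons, not_or, List.not_mem_nil, not_false_eq_true,
        and_true, List.nodup_nil]
      exact ⟨⟨d1, d2, d3, d4⟩, ⟨d5, d6, d7⟩, ⟨d8, d9⟩, d10⟩) (hu1 k (Ne.symm d2))
  have f1 : C (dt z j l m) (u k) = C (dt i j l m) (C (dt z i l m) (u k)) := by
    rw [← e1, ← h.conj _ hb _ hci, hk]
  have f2 : C (dt z j l m) (u k) = C (dt z i l m) (C (dt i j l m) (C (dt z i l m) (u k))) := by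
    rw [← e2, ← h.conj _ hci _ hb]
  have g1 : (u k - C (dt z j l m) (u k)) - C (dt z i l m) (u k - C (dt z j l m) (u k)) =
      u k - C (dt z i l m) (u k) := by
    have g2 : C (dt z i l m) (C (dt z j l m) (u k)) = C (dt z j l m) (u k) := by
      conv_lhs => rw [f1]
      rw [f2]
    rw [map_sub, g2]
    abel
  have hcomm : dt z i l m * dt j k r s = dt j k r s * dt z i l m := brd_comm (by
    simp only [List.nodup_cons, List.mem_cons, not_or, List.not_mem_nil, not_false_eq_true,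
      and_true, List.nodup_nil]
    exact ⟨⟨Ne.symm a1, d3, d4, d1, d2, Ne.symm b1, Ne.symm c1⟩,
      ⟨a4, a5, a2, a3, Ne.symm b6, Ne.symm c6⟩,
      ⟨d10, Ne.symm d6, Ne.symm d8, Ne.symm b4, Ne.symm c4⟩,
      ⟨Ne.symm d7, Ne.symm d9, Ne.symm b5, Ne.symm c5⟩,
      ⟨d5, Ne.symm b2, Ne.symm c2⟩, ⟨Ne.symm b3, Ne.symm c3⟩, Ne.symm c7⟩)
  have g3 : C (dt z i l m) (u j) = C (dt j k r s) (C (dt z i l m) (u k)) := by
    rw [← hj, h.mul _ hci _ hb' hcomm, h.mul _ hb' _ hci hcomm.symm, hcomm]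
  have g4 : C (dt j k r s) (u k - C (dt z i l m) (u k)) = u k - C (dt z i l m) (u k) :=
    hyi.1 j k r s (by
      simp only [List.nodup_cons, List.mem_cons, not_or, List.not_mem_nil, not_false_eq_true,
        and_true, List.nodup_nil]
      exact ⟨⟨Ne.symm a1, d1, d2, Ne.symm b1, Ne.symm c1⟩, ⟨a2, a3, Ne.symm b6, Ne.symm c6⟩,
        ⟨d5, Ne.symm b2, Ne.symm c2⟩, ⟨Ne.symm b3, Ne.symm c3⟩, Ne.symm c7⟩)
  have g5 : u j - C (dt z i l m) (u j) = u k - C (dt z i l m) (u k) := by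
    rw [g3, ← g4, map_sub, hj]
  have key := Ln_inj h hX (z := z) (i := i) (j := j) (l := l) (m := m)
    (v := (u k - C (dt z j l m) (u k)) - u j) (by
      simp only [List.nodup_cons, List.mem_cons, not_or, List.not_mem_nil, not_false_eq_true,
        and_true, List.nodup_nil]
      exact ⟨⟨Ne.symm a1, d1, d3, d4⟩, ⟨a2, a4, a5⟩, ⟨d6, d7⟩, d10⟩)
    (sub_mem hyj (hu1 j (Ne.symm d1))) (by
      rw [map_sub]
      have g6 : C (dt z i l m) (u k - C (dt z j l m) (u k)) =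
          (u k - C (dt z j l m) (u k)) - (u k - C (dt z i l m) (u k)) := by
        rw [← g1]
        abel
      have g7 : C (dt z i l m) (u j) = u j - (u k - C (dt z i l m) (u k)) := by
        rw [← g5]
        abel
      rw [g6, g7]
      abel)
  exact sub_eq_zero.mp key

end Pool.Agent.Lib.MP_89bcae_ag.Ep
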