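import Mathlib
import Pool.Agent.Lib.MP_89bcae_ag.Ep.Lnp

/-!
# The sum of the vectors
-/

open scoped Classical

namespace Pool.Agent.Lib.MP_89bcae_ag.Ep

variable {ℓ : ℕ} [Fact ℓ.Prime] {X M : Type} [Fintype X] [AddCommGroup M] {σ : M →+ M} {p : M →+ (X → ZMod ℓ) ⧸ Cst ℓ X}
  {C : Equiv.Perm X → M →+ M}

private lemma sum_ex (hX : 9 ≤ Fintype.card X) (F : Finset X) (hF : F.card ≤ 8) : ∃ x, x ∉ F := by
  by_contra hc
  push Not at hc
  have h1 : F = Finset.univ := by
    ext x
    simp [hc x]
  rw [h1, Finset.card_univ] at hF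
  omega

private lemma sum_dt_fix {a b c d z : X} (h : [z, a, b, c, d].Nodup) : dt a b c d z = z := by
  simp only [List.nodup_cons, List.mem_cons, not_or, List.not_mem_nil] at h
  obtain ⟨⟨h1, h2, h3, h4, -⟩, -⟩ := h
  unfold dt
  rw [Equiv.Perm.mul_apply, Equiv.swap_apply_of_ne_of_ne h3 h4, Equiv.swap_apply_of_ne_of_ne h1 h2]

private lemma sum_dt_left {a b c d z : X} (h : [z, a, b, c, d].Nodup) : dt a b c d a = b := by
  simp only [List.nodup_cons, List.mem_cons, not_or, List.not_mem_nil] at h
  obtain ⟨-, ⟨h1, h2, h3, -⟩, -⟩ := h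
  unfold dt
  rw [Equiv.Perm.mul_apply, Equiv.swap_apply_of_ne_of_ne h2 h3, Equiv.swap_apply_left]

private lemma sum_mem {a b c d z : X} (h : [z, a, b, c, d].Nodup) : dt a b c d ∈ Inv2 X :=
  dt_mem (List.Nodup.of_cons h)

/-- Proof: let `N` be the subgroup of the vectors fixed by all the `C (dt a b c d)`, `a, b, c, d` different from `z`. If `v ∈ N`, `p v = cl f`, then as in
`Ln_p` the function `f` is constant, equal to `γ`, outside `{z}`, and its sum is `0` (`img`): `f z = - (card X - 1) γ = γ`, since `ℓ` divides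
`card X`. So `p v = 0`, and `sep` gives `N = ⊥`. The sum of the `u x` is in `N`. -/
theorem sum_u (h : Sys ℓ X M σ p C) (hX : 9 ≤ Fintype.card X) (hX' : ℓ ∣ Fintype.card X) {z : X} {u : X → M}
    (hu : ∀ a b c d, [z, a, b, c, d].Nodup → ∀ x, C (dt a b c d) (u x) = u (dt a b c d x)) : ∑ x, u x = 0 := by
  let N : AddSubgroup M :=
    { carrier := {v | ∀ a b c d, [z, a, b, c, d].Nodup → C (dt a b c d) v = v}
      zero_mem' := fun a b c d _ => map_zero _
      add_mem' := by
        intro v w hv hw a b c d hd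
        rw [map_add, hv a b c d hd, hw a b c d hd]
      neg_mem' := by
        intro v hv a b c d hd
        rw [map_neg, hv a b c d hd] }
  have hmem : ∀ v, v ∈ N ↔ ∀ a b c d, [z, a, b, c, d].Nodup → C (dt a b c d) v = v := fun v => Iff.rfl
  have hN : N = ⊥ := by
    apply h.sep
    intro v hv
    rw [hmem] at hv
    obtain ⟨f, hf0, hf⟩ := h.img v
    have hinv : ∀ a b c d, [z, a, b, c, d].Nodup → ∀ x, f (dt a b c d x) = f x := by
      intro a b c d hd
      have h1 := h.act _ (sum_mem hd) v f hf
      rw [hv a b c d hd, hf, cl_eq] at h1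
      obtain ⟨γ, hγ⟩ := h1
      have h2 := hγ z
      rw [sum_dt_fix hd] at h2
      have h3 : γ = 0 := by
        have : f z + 0 = f z + γ := by rw [add_zero]; exact h2
        exact (add_left_cancel this).symm
      intro x
      have h4 := hγ x
      rw [h3, add_zero] at h4
      exact h4.symm
    have hconst : ∀ a b, a ≠ z → b ≠ z → f a = f b := by
      intro a b ha hb
      by_cases hab : a = b
      · rw [hab]
      obtain ⟨c, hc⟩ := sum_ex hX {z, a, b} (le_trans Finset.card_le_three (by norm_num))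
      obtain ⟨d, hd⟩ := sum_ex hX {z, a, b, c} (le_trans Finset.card_le_four (by norm_num))
      simp only [Finset.mem_insert, Finset.mem_singleton, not_or] at hc hd
      have hnd : [z, a, b, c, d].Nodup := by
        simp only [List.nodup_cons, List.mem_cons, not_or, List.not_mem_nil, not_false_eq_true,
          List.nodup_nil, and_true]
        exact ⟨⟨Ne.symm ha, Ne.symm hb, Ne.symm hc.1, Ne.symm hd.1⟩,
          ⟨hab, Ne.symm hc.2.1, Ne.symm hd.2.1⟩, ⟨Ne.symm hc.2.2, Ne.symm hd.2.2.1⟩, Ne.symm hd.2.2.2⟩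
      have h5 := hinv a b c d hnd a
      rw [sum_dt_left hnd] at h5
      exact h5.symm
    obtain ⟨a, ha⟩ := sum_ex hX {z} (by rw [Finset.card_singleton]; norm_num)
    rw [Finset.mem_singleton] at ha
    have hz : f z = f a := by
      have h6 : ∑ x, f x = f z + ∑ x ∈ Finset.univ.erase z, f x :=
        (Finset.add_sum_erase Finset.univ f (Finset.mem_univ z)).symm
      have h7 : ∑ x ∈ Finset.univ.erase z, f x = ∑ x ∈ Finset.univ.erase z, f a :=
        Finset.sum_congr rfl fun x hx => hconst x a (Finset.ne_of_mem_erase hx) ha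
      rw [hf0, h7, Finset.sum_const, Finset.card_erase_of_mem (Finset.mem_univ z),
        Finset.card_univ] at h6
      have h8 : ((Fintype.card X : ℕ) : ZMod ℓ) = 0 := (ZMod.natCast_eq_zero_iff _ _).2 hX'
      have h9 : (Fintype.card X - 1) • f a = - f a := by
        rw [nsmul_eq_mul, Nat.cast_sub (by omega), h8]
        simp
      rw [h9] at h6
      have : f z + -f a = 0 := h6.symm
      exact add_neg_eq_zero.1 this
    have hp : p v = 0 := by
      rw [hf, cl_eq_zero]
      refine ⟨f a, fun x => ?_⟩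
      by_cases hx : x = z
      · rw [hx, hz]
      · exact hconst x a hx ha
    obtain ⟨w, hw⟩ := h.ker v hp
    refine ⟨w, ?_, hw⟩
    rw [hmem]
    intro a b c d hd
    have h10 : (C (dt a b c d) w - w) - σ (C (dt a b c d) w - w) = 0 := by
      have h11 := hv a b c d hd
      rw [hw, map_sub, h.comm _ (sum_mem hd)] at h11
      rw [map_sub]
      have : C (dt a b c d) w - w - (σ (C (dt a b c d) w) - σ w) =
          (C (dt a b c d) w - σ (C (dt a b c d) w)) - (w - σ w) := by abel
      rw [this, h11, sub_self]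
    exact sub_eq_zero.1 (h.pi_inj _ h10)
  have hs : ∑ x, u x ∈ N := by
    rw [hmem]
    intro a b c d hd
    rw [map_sum]
    rw [Finset.sum_congr rfl fun x _ => hu a b c d hd x]
    exact Equiv.sum_comp (dt a b c d) u
  rw [hN] at hs
  exact AddSubgroup.mem_bot.1 hs

end Pool.Agent.Lib.MP_89bcae_ag.Ep
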