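import Mathlib
import Pool.Agent.Lib.MP_89bcae_ag.Ep.Brd
import Pool.Agent.Lib.MP_89bcae_ag.Ep.Sum

/-!
# The contradiction
-/

open scoped Classical

namespace Pool.Agent.Lib.MP_89bcae_ag.Ep

variable {ℓ : ℕ} [Fact ℓ.Prime] {X M : Type} [Fintype X] [AddCommGroup M] {σ : M →+ M} {p : M →+ (X → ZMod ℓ) ⧸ Cst ℓ X}
  {C : Equiv.Perm X → M →+ M}

private theorem cnt_pick {Y : Type} [Fintype Y] (hX : 9 ≤ Fintype.card Y) (S : Finset Y) (hS : S.card ≤ 7) :
    ∃ a b, a ∉ S ∧ b ∉ S ∧ a ≠ b := by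
  have h1 : 1 < (Sᶜ).card := by rw [Finset.card_compl]; omega
  obtain ⟨a, ha, b, hb, hab⟩ := Finset.one_lt_card.1 h1
  exact ⟨a, b, Finset.mem_compl.1 ha, Finset.mem_compl.1 hb, hab⟩

private theorem cnt_four {Y : Type} [Fintype Y] (a b c d : Y) : ({a, b, c, d} : Finset Y).card ≤ 7 :=
  Finset.card_le_four.trans (by norm_num)

private theorem cnt_comm {Y : Type} {z j l m l' m' : Y} (hd : [z, j, l, m, l', m'].Nodup) :
    dt z j l m = dt z j l' m' * dt l m l' m' ∧ dt z j l' m' * dt l m l' m' = dt l m l' m' * dt z j l' m' := by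
  simp only [List.nodup_cons, List.mem_cons, List.not_mem_nil, or_false, not_or, not_false_eq_true, List.nodup_nil, and_true] at hd
  obtain ⟨⟨zj, zl, zm, zl', zm'⟩, ⟨jl, jm, jl', jm'⟩, ⟨lm, ll', lm'⟩, ⟨ml', mm'⟩, l'm'⟩ := hd
  have c1 : Equiv.swap l' m' * Equiv.swap l m = Equiv.swap l m * Equiv.swap l' m' :=
    (Equiv.Perm.disjoint_swap_swap (by simp [*, Ne.symm])).commute
  have c2 : Equiv.swap z j * Equiv.swap l m = Equiv.swap l m * Equiv.swap z j :=
    (Equiv.Perm.disjoint_swap_swap (by simp [*, Ne.symm])).commute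
  have c3 : Equiv.swap z j * Equiv.swap l' m' = Equiv.swap l' m' * Equiv.swap z j :=
    (Equiv.Perm.disjoint_swap_swap (by simp [*, Ne.symm])).commute
  have q := Equiv.swap_mul_self l' m'
  unfold dt
  constructor
  · calc Equiv.swap z j * Equiv.swap l m = Equiv.swap z j * Equiv.swap l m * (Equiv.swap l' m' * Equiv.swap l' m') := by
          rw [q, mul_one]
      _ = Equiv.swap z j * (Equiv.swap l m * Equiv.swap l' m') * Equiv.swap l' m' := by group
      _ = Equiv.swap z j * (Equiv.swap l' m' * Equiv.swap l m) * Equiv.swap l' m' := by rw [c1]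
      _ = Equiv.swap z j * Equiv.swap l' m' * (Equiv.swap l m * Equiv.swap l' m') := by group
  · calc Equiv.swap z j * Equiv.swap l' m' * (Equiv.swap l m * Equiv.swap l' m')
        = Equiv.swap z j * (Equiv.swap l' m' * Equiv.swap l m) * Equiv.swap l' m' := by group
      _ = Equiv.swap z j * (Equiv.swap l m * Equiv.swap l' m') * Equiv.swap l' m' := by rw [c1]
      _ = (Equiv.swap z j * Equiv.swap l m) * (Equiv.swap l' m' * Equiv.swap l' m') := by group
      _ = (Equiv.swap l m * Equiv.swap z j) * (Equiv.swap l' m' * Equiv.swap l' m') := by rw [c2]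
      _ = Equiv.swap l m * (Equiv.swap z j * Equiv.swap l' m') * Equiv.swap l' m' := by group
      _ = Equiv.swap l m * (Equiv.swap l' m' * Equiv.swap z j) * Equiv.swap l' m' := by rw [c3]
      _ = Equiv.swap l m * Equiv.swap l' m' * (Equiv.swap z j * Equiv.swap l' m') := by group

/-- Proof: `dt z j l m = dt z j l' m' * dt l m l' m'` with `l', m'` outside `{z, j, l, m}`, and `C (dt l m l' m') (u l) = u m`; `braid`. -/
theorem braid' (h : Sys ℓ X M σ p C) (hℓ : ℓ ≠ 2) (hX : 9 ≤ Fintype.card X) {z : X} {u : X → M}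
    (hu1 : ∀ x, x ≠ z → u x ∈ Ln C z x)
    (hu : ∀ a b c d, [z, a, b, c, d].Nodup → ∀ x, C (dt a b c d) (u x) = u (dt a b c d x)) {j l m : X}
    (hd : [z, j, l, m].Nodup) : C (dt z j l m) (u l) = u m - u j := by
  obtain ⟨l', m', hl', hm', hlm⟩ := cnt_pick hX {z, j, l, m} (cnt_four z j l m)
  simp only [Finset.mem_insert, Finset.mem_singleton, not_or] at hl' hm'
  have hd0 := hd
  simp only [List.nodup_cons, List.mem_cons, List.not_mem_nil, or_false, not_or, not_false_eq_true, List.nodup_nil, and_true] at hd0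
  obtain ⟨⟨zj, zl, zm⟩, ⟨jl, jm⟩, lm⟩ := hd0
  obtain ⟨l'z, l'j, l'l, l'm⟩ := hl'
  obtain ⟨m'z, m'j, m'l, m'm⟩ := hm'
  have h6 : [z, j, l, m, l', m'].Nodup := by
    simp only [List.nodup_cons, List.mem_cons, List.not_mem_nil, or_false, not_or, not_false_eq_true, List.nodup_nil, and_true]
    exact ⟨⟨zj, zl, zm, Ne.symm l'z, Ne.symm m'z⟩, ⟨jl, jm, Ne.symm l'j, Ne.symm m'j⟩, ⟨lm, Ne.symm l'l, Ne.symm m'l⟩,
      ⟨Ne.symm l'm, Ne.symm m'm⟩, hlm⟩
  obtain ⟨e1, e2⟩ := cnt_comm h6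
  have n1 : [z, j, l', m'].Nodup := by
    simp only [List.nodup_cons, List.mem_cons, List.not_mem_nil, or_false, not_or, not_false_eq_true, List.nodup_nil, and_true]
    exact ⟨⟨zj, Ne.symm l'z, Ne.symm m'z⟩, ⟨Ne.symm l'j, Ne.symm m'j⟩, hlm⟩
  have n2 : [l, m, l', m'].Nodup := by
    simp only [List.nodup_cons, List.mem_cons, List.not_mem_nil, or_false, not_or, not_false_eq_true, List.nodup_nil, and_true]
    exact ⟨⟨lm, Ne.symm l'l, Ne.symm m'l⟩, ⟨Ne.symm l'm, Ne.symm m'm⟩, hlm⟩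
  have n3 : [z, l, m, l', m'].Nodup := by
    simp only [List.nodup_cons, List.mem_cons, List.not_mem_nil, or_false, not_or, not_false_eq_true, List.nodup_nil, and_true]
    exact ⟨⟨zl, zm, Ne.symm l'z, Ne.symm m'z⟩, ⟨lm, Ne.symm l'l, Ne.symm m'l⟩, ⟨Ne.symm l'm, Ne.symm m'm⟩, hlm⟩
  have n4 : [z, j, m, l', m'].Nodup := by
    simp only [List.nodup_cons, List.mem_cons, List.not_mem_nil, or_false, not_or, not_false_eq_true, List.nodup_nil, and_true]
    exact ⟨⟨zj, zm, Ne.symm l'z, Ne.symm m'z⟩, ⟨jm, Ne.symm l'j, Ne.symm m'j⟩, ⟨Ne.symm l'm, Ne.symm m'm⟩, hlm⟩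
  have e3 := h.mul _ (dt_mem n1) _ (dt_mem n2) e2 (u l)
  rw [← e1, hu l m l' m' n3 l] at e3
  have e4 : dt l m l' m' l = m := by
    rw [dt_apply, Equiv.swap_apply_of_ne_of_ne (Ne.symm l'l) (Ne.symm m'l), Equiv.swap_apply_left]
  rw [e4] at e3
  have e5 := braid h hℓ hX hu1 hu n4
  rw [← e3, ← e5]
  abel

/-- The contradiction. Proof: `∑ x, u x = 0` (`sum_u`). Let `c = dt z j l m`. We have `C c (u z) = 0 = u z`, `C c (u j) = - u j` (`Ln`),
`C c (u x) = u (c x) - u j` for the other `x` (`braid`, `braid'`). So `0 = C c (∑ x, u x) = - u j + ∑ x ∉ {z, j}, (u x - u j)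
= - u j - u j - (card X - 2) u j = - card X • u j`. So `u j = 0` by `tf`, and `p (u j) = cl (δ_j - δ_z) ≠ 0`. -/
theorem no_sys (h : Sys ℓ X M σ p C) (hℓ : ℓ ≠ 2) (hX : 9 ≤ Fintype.card X) (hX' : ℓ ∣ Fintype.card X) : False := by
  obtain ⟨z, j, -, -, hzj⟩ := cnt_pick (Y := X) hX ∅ (by simp)
  obtain ⟨l, m, hl, hm, hlm⟩ := cnt_pick hX {z, j} ((Finset.card_le_two).trans (by norm_num))
  simp only [Finset.mem_insert, Finset.mem_singleton, not_or] at hl hm
  obtain ⟨lz, lj⟩ := hl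
  obtain ⟨mz, mj⟩ := hm
  obtain ⟨u, u0, hu1, hp, hu⟩ := exists_u h hℓ hX z
  have hsum := sum_u h hX hX' hu
  have hd : [z, j, l, m].Nodup := by
    simp only [List.nodup_cons, List.mem_cons, List.not_mem_nil, or_false, not_or, not_false_eq_true, List.nodup_nil, and_true]
    exact ⟨⟨hzj, Ne.symm lz, Ne.symm mz⟩, ⟨Ne.symm lj, Ne.symm mj⟩, hlm⟩
  have hd' : [z, j, m, l].Nodup := by
    simp only [List.nodup_cons, List.mem_cons, List.not_mem_nil, or_false, not_or, not_false_eq_true, List.nodup_nil, and_true]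
    exact ⟨⟨hzj, Ne.symm mz, Ne.symm lz⟩, ⟨Ne.symm mj, Ne.symm lj⟩, Ne.symm hlm⟩
  have hcc : dt z j l m = dt z j m l := by unfold dt; rw [Equiv.swap_comm l m]
  have key : ∀ x, C (dt z j l m) (u x) = u (dt z j l m x) - u j := by
    intro x
    by_cases hxz : x = z
    · have e : dt z j l m z = j := by
        rw [dt_apply, Equiv.swap_apply_of_ne_of_ne (Ne.symm lz) (Ne.symm mz), Equiv.swap_apply_left]
      rw [hxz, e, u0, map_zero, sub_self]
    by_cases hxj : x = j
    · have e : dt z j l m j = z := by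
        rw [dt_apply, Equiv.swap_apply_of_ne_of_ne (Ne.symm lj) (Ne.symm mj), Equiv.swap_apply_right]
      rw [hxj, e, u0, zero_sub]
      exact (hu1 j (Ne.symm hzj)).2 l m hd
    by_cases hxl : x = l
    · have e : dt z j l m l = m := by
        rw [dt_apply, Equiv.swap_apply_left, Equiv.swap_apply_of_ne_of_ne mz mj]
      rw [hxl, e]
      exact braid' h hℓ hX hu1 hu hd
    by_cases hxm : x = m
    · have e : dt z j l m m = l := by
        rw [dt_apply, Equiv.swap_apply_right, Equiv.swap_apply_of_ne_of_ne lz lj]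
      rw [hxm, e, hcc]
      exact braid' h hℓ hX hu1 hu hd'
    · have e : dt z j l m x = x := by
        rw [dt_apply, Equiv.swap_apply_of_ne_of_ne hxl hxm, Equiv.swap_apply_of_ne_of_ne hxz hxj]
      have n5 : [z, j, x, l, m].Nodup := by
        simp only [List.nodup_cons, List.mem_cons, List.not_mem_nil, or_false, not_or, not_false_eq_true, List.nodup_nil, and_true]
        exact ⟨⟨hzj, Ne.symm hxz, Ne.symm lz, Ne.symm mz⟩, ⟨Ne.symm hxj, Ne.symm lj, Ne.symm mj⟩, ⟨hxl, hxm⟩, hlm⟩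
      have e5 := braid h hℓ hX hu1 hu n5
      rw [e, ← e5]
      abel
  have e0 : (0 : M) = 0 - Fintype.card X • u j := by
    calc (0 : M) = C (dt z j l m) (∑ x, u x) := by rw [hsum, map_zero]
      _ = ∑ x, (u (dt z j l m x) - u j) := by
          rw [map_sum]
          exact Finset.sum_congr rfl fun x _ => key x
      _ = (∑ x, u (dt z j l m x)) - Fintype.card X • u j := by
          rw [Finset.sum_sub_distrib, Finset.sum_const, Finset.card_univ]
      _ = 0 - Fintype.card X • u j := by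
          rw [Equiv.sum_comp (dt z j l m) u, hsum]
  have e1 : Fintype.card X • u j = 0 := by
    rw [zero_sub] at e0
    exact neg_eq_zero.1 e0.symm
  have e2 : u j = 0 := h.tf _ _ (by omega) e1
  have e3 := hp j
  rw [e2, map_zero] at e3
  obtain ⟨c, hc⟩ := cl_eq_zero.1 e3.symm
  have c1 := hc j
  have c2 := hc l
  simp only [Pi.sub_apply, Pi.single_eq_same, Pi.single_eq_of_ne (Ne.symm hzj), Pi.single_eq_of_ne lj,
    Pi.single_eq_of_ne lz, sub_zero] at c1 c2
  rw [← c2] at c1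
  exact one_ne_zero c1

end Pool.Agent.Lib.MP_89bcae_ag.Ep
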