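import Mathlib
import Pool.Agent.Lib.MP_89bcae_ag.Ep.GDefs

/-!
# The endomorphism `1 - σ`
-/

open Polynomial

open scoped Classical

namespace Pool.Agent.Lib.MP_89bcae_ag.Ep

/-- The sum of the powers of `1 + X`. Proof: `X * ∑ (1 + X) ^ i = (1 + X) ^ ℓ - 1` (`mul_geom_sum`, or `Commute.add_pow`), and the
binomial coefficients `ℓ.choose j`, `0 < j < ℓ`, are divisible by `ℓ` (`Nat.Prime.dvd_choose_self`): so the sum is
`X ^ (ℓ - 1) + ∑ j ∈ range (ℓ - 1), (ℓ.choose (j + 1)) X ^ j` and the constant term is `ℓ`. -/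
theorem geom {ℓ : ℕ} (hℓ : ℓ.Prime) :
    ∃ Q : ℤ[X], ∑ i ∈ Finset.range ℓ, (1 + X : ℤ[X]) ^ i = X ^ (ℓ - 1) + (ℓ : ℤ[X]) * (1 + X * Q) := by
  obtain ⟨m, rfl⟩ : ∃ m, ℓ = m + 2 := ⟨ℓ - 2, by have := hℓ.two_le; omega⟩
  refine ⟨∑ j ∈ Finset.range m, (((m + 2).choose (j + 2) / (m + 2) : ℕ) : ℤ[X]) * X ^ j, ?_⟩
  apply mul_left_cancel₀ (X_ne_zero : (X : ℤ[X]) ≠ 0)
  have h1 : X * ∑ i ∈ Finset.range (m + 2), (1 + X : ℤ[X]) ^ i = (1 + X) ^ (m + 2) - 1 := by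
    have := mul_geom_sum (1 + X : ℤ[X]) (m + 2)
    rwa [add_sub_cancel_left] at this
  have h2 : ∀ j ∈ Finset.range m, ((m + 2 : ℕ) : ℤ[X]) * ((((m + 2).choose (j + 2) / (m + 2) : ℕ) : ℤ[X]) * X ^ j) =
      (((m + 2).choose (j + 2) : ℕ) : ℤ[X]) * X ^ j := by
    intro j hj
    have h3 : m + 2 ∣ (m + 2).choose (j + 2) :=
      hℓ.dvd_choose_self (by omega) (by have := Finset.mem_range.1 hj; omega)
    have h4 : (m + 2) * ((m + 2).choose (j + 2) / (m + 2)) = (m + 2).choose (j + 2) := Nat.mul_div_cancel' h3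
    rw [← mul_assoc, ← Nat.cast_mul, h4]
  have h5 : (1 + X : ℤ[X]) ^ (m + 2) = 1 + ((m + 2 : ℕ) : ℤ[X]) * X +
      X ^ 2 * ∑ j ∈ Finset.range m, (((m + 2).choose (j + 2) : ℕ) : ℤ[X]) * X ^ j + X ^ (m + 2) := by
    rw [add_comm (1 : ℤ[X]) X, add_pow, Finset.sum_range_succ, Finset.sum_range_succ', Finset.sum_range_succ']
    rw [Finset.mul_sum]
    have h6 : ∀ j ∈ Finset.range m, (X : ℤ[X]) ^ (j + 1 + 1) * 1 ^ (m + 2 - (j + 1 + 1)) *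
        (((m + 2).choose (j + 1 + 1) : ℕ) : ℤ[X]) = X ^ 2 * ((((m + 2).choose (j + 2) : ℕ) : ℤ[X]) * X ^ j) := by
      intro j _
      rw [one_pow]
      ring
    rw [Finset.sum_congr rfl h6]
    simp
    ring
  rw [h1, h5]
  have h7 : ((m + 2 : ℕ) : ℤ[X]) * ∑ j ∈ Finset.range m, (((m + 2).choose (j + 2) / (m + 2) : ℕ) : ℤ[X]) * X ^ j =
      ∑ j ∈ Finset.range m, (((m + 2).choose (j + 2) : ℕ) : ℤ[X]) * X ^ j := by
    rw [Finset.mul_sum]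
    exact Finset.sum_congr rfl h2
  rw [← h7, show m + 2 - 1 = m + 1 by omega]
  ring

section

variable {ℓ : ℕ} [Fact ℓ.Prime] {r : ℕ} {σ : Module.End ℤ_[ℓ] (Fin r → ℤ_[ℓ])}

/-- Proof: `(σ - 1) * ∑ σ ^ i = σ ^ ℓ - 1` (`mul_geom_sum`). -/
theorem pow_l (hσ : ∑ i ∈ Finset.range ℓ, σ ^ i = 0) : σ ^ ℓ = 1 := by
  have h := mul_geom_sum σ ℓ
  rw [hσ, mul_zero] at h
  exact (sub_eq_zero.1 h.symm)

private lemma pi_ne_zero : (ℓ : ℤ_[ℓ]) ≠ 0 := by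
  have h : ℓ ≠ 0 := (Fact.out : ℓ.Prime).ne_zero
  exact_mod_cast h

/-- Proof: if `v = σ v` then `0 = ∑ σ ^ i v = ℓ v`, and `M` has no torsion. -/
theorem pi_inj (hσ : ∑ i ∈ Finset.range ℓ, σ ^ i = 0) {v : Fin r → ℤ_[ℓ]} (h : v - σ v = 0) : v = 0 := by
  have h1 : σ v = v := (sub_eq_zero.1 h).symm
  have h2 : ∀ i : ℕ, (σ ^ i) v = v := by
    intro i
    induction i with
    | zero => rfl
    | succ i ih => rw [pow_succ, Module.End.mul_apply, h1, ih]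
  have h3 : (∑ i ∈ Finset.range ℓ, σ ^ i) v = 0 := by rw [hσ]; rfl
  rw [LinearMap.sum_apply, Finset.sum_congr rfl fun i _ => h2 i, Finset.sum_const, Finset.card_range] at h3
  funext j
  have h4 := congrFun h3 j
  rw [Pi.smul_apply, nsmul_eq_mul] at h4
  exact (mul_eq_zero.1 h4).resolve_left pi_ne_zero

private lemma pi_neg_pow (n : ℕ) (v : Fin r → ℤ_[ℓ]) :
    ((1 - σ) ^ n) v = (-1 : ℤ_[ℓ]) ^ n • ((σ - 1) ^ n) v := by
  induction n generalizing v with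
  | zero => simp
  | succ n ih =>
    rw [pow_succ, pow_succ (σ - 1), Module.End.mul_apply, Module.End.mul_apply, ih, pow_succ]
    have h : (1 - σ) v = (-1 : ℤ_[ℓ]) • (σ - 1) v := by
      rw [LinearMap.sub_apply, LinearMap.sub_apply, neg_one_smul, neg_sub]
    rw [h, map_smul, smul_smul]

/-- Proof: the polynomial `geom` evaluated at `σ - 1` (`aeval`): `0 = (σ - 1) ^ (ℓ - 1) + ℓ (1 + (σ - 1) Q(σ - 1))`. -/
theorem pi_pow (hσ : ∑ i ∈ Finset.range ℓ, σ ^ i = 0) (v : Fin r → ℤ_[ℓ]) :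
    ∃ w, ((1 - σ) ^ (ℓ - 1)) v = (ℓ : ℤ_[ℓ]) • w := by
  obtain ⟨Q, hQ⟩ := geom (Fact.out : ℓ.Prime)
  have h1 := congrArg (aeval (σ - 1)) hQ
  simp only [map_sum, map_pow, map_add, map_mul, map_one, aeval_X, map_natCast, add_sub_cancel] at h1
  rw [hσ] at h1
  have h2 := congrArg (fun f : Module.End ℤ_[ℓ] (Fin r → ℤ_[ℓ]) => f v) h1
  simp only [LinearMap.zero_apply, LinearMap.add_apply, Module.End.mul_apply, Module.End.natCast_apply] at h2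
  have h3 : ((σ - 1) ^ (ℓ - 1)) v = -(ℓ • ((1 + (σ - 1) * aeval (σ - 1) Q) v)) := by
    apply eq_neg_of_add_eq_zero_left
    exact h2.symm
  refine ⟨-((-1 : ℤ_[ℓ]) ^ (ℓ - 1) • ((1 + (σ - 1) * aeval (σ - 1) Q) v)), ?_⟩
  rw [pi_neg_pow, h3, smul_neg, smul_neg, ← Nat.cast_smul_eq_nsmul ℤ_[ℓ], smul_comm]

private lemma pi_pow_k (hσ : ∑ i ∈ Finset.range ℓ, σ ^ i = 0) (k : ℕ) (v : Fin r → ℤ_[ℓ]) :
    ∃ w, ((1 - σ) ^ ((ℓ - 1) * k)) v = (ℓ : ℤ_[ℓ]) ^ k • w := by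
  induction k generalizing v with
  | zero => exact ⟨v, by simp⟩
  | succ k ih =>
    obtain ⟨w1, hw1⟩ := pi_pow hσ v
    obtain ⟨w2, hw2⟩ := ih w1
    refine ⟨w2, ?_⟩
    rw [mul_add, mul_one, pow_add, Module.End.mul_apply, hw1, map_smul, hw2, smul_smul, pow_succ, mul_comm]

/-- Proof: `v` is in `(1 - σ) N`, so in `(1 - σ) ^ k M` for all `k` and by `pi_pow` in `ℓ ^ k M` for all `k`; so its coordinates are
divisible by `ℓ ^ k` for all `k`, and they are `0` (for instance by `PadicInt.norm_le_pow_iff_mem_span_pow`, or the norm of `ℓ ^ k` tends to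
`0`). -/
theorem sep (hσ : ∑ i ∈ Finset.range ℓ, σ ^ i = 0) (N : AddSubgroup (Fin r → ℤ_[ℓ]))
    (h : ∀ v ∈ N, ∃ w ∈ N, v = w - σ w) : N = ⊥ := by
  rw [AddSubgroup.eq_bot_iff_forall]
  intro v hv
  have h1 : ∀ k : ℕ, ∃ w ∈ N, v = ((1 - σ) ^ k) w := by
    intro k
    induction k with
    | zero => exact ⟨v, hv, rfl⟩
    | succ k ih =>
      obtain ⟨w, hw, e⟩ := ih
      obtain ⟨w', hw', e'⟩ := h w hw
      refine ⟨w', hw', ?_⟩
      rw [pow_succ, Module.End.mul_apply, LinearMap.sub_apply, Module.End.one_apply, ← e']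
      exact e
  funext j
  by_contra hne
  have hpos : 0 < ‖v j‖ := norm_pos_iff.2 hne
  have hp : (1 : ℝ) < ℓ := by exact_mod_cast (Fact.out : ℓ.Prime).one_lt
  obtain ⟨k, hk⟩ := exists_pow_lt_of_lt_one hpos (inv_lt_one_of_one_lt₀ hp)
  obtain ⟨w, -, hw⟩ := h1 ((ℓ - 1) * k)
  obtain ⟨w', hw'⟩ := pi_pow_k hσ k w
  rw [hw'] at hw
  have h2 : v j = (ℓ : ℤ_[ℓ]) ^ k * w' j := by
    rw [hw]
    rfl
  have h3 : ‖v j‖ ≤ ((ℓ : ℝ)⁻¹) ^ k := by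
    rw [h2, norm_mul, norm_pow, PadicInt.norm_p]
    exact mul_le_of_le_one_right (by positivity) (PadicInt.norm_le_one _)
  exact absurd hk (not_lt.2 h3)

/-- Proof: `∑ i ∈ range ℓ, (v - σ ^ i v) = ℓ v`, and `1 - σ ^ i` is a multiple of `1 - σ` (`mul_neg_geom_sum`). -/
theorem l_smul (hσ : ∑ i ∈ Finset.range ℓ, σ ^ i = 0) (v : Fin r → ℤ_[ℓ]) : ∃ w, (ℓ : ℤ_[ℓ]) • v = w - σ w := by
  refine ⟨∑ i ∈ Finset.range ℓ, (∑ j ∈ Finset.range i, σ ^ j) v, ?_⟩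
  have h1 : ∀ i, (∑ j ∈ Finset.range i, σ ^ j) v - σ ((∑ j ∈ Finset.range i, σ ^ j) v) = v - (σ ^ i) v := by
    intro i
    have h2 := congrArg (fun f : Module.End ℤ_[ℓ] (Fin r → ℤ_[ℓ]) => f v) (mul_neg_geom_sum σ i)
    simpa only [Module.End.mul_apply, LinearMap.sub_apply, Module.End.one_apply] using h2
  rw [map_sum, ← Finset.sum_sub_distrib, Finset.sum_congr rfl fun i _ => h1 i, Finset.sum_sub_distrib,
    ← LinearMap.sum_apply, hσ, LinearMap.zero_apply, sub_zero, Finset.sum_const, Finset.card_range,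
    Nat.cast_smul_eq_nsmul]

end

end Pool.Agent.Lib.MP_89bcae_ag.Ep
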