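import Mathlib
import Pool.Agent.Lib.MP_89bcae_ag.Ep.Pi

/-!
# The automorphisms of finite order which are trivial modulo `1 - σ`
-/

open scoped Classical

namespace Pool.Agent.Lib.MP_89bcae_ag.Ep

variable {ℓ : ℕ} [Fact ℓ.Prime] {r : ℕ} {σ : Module.End ℤ_[ℓ] (Fin r → ℤ_[ℓ])}

theorem tor_inj (hσ : ∑ i ∈ Finset.range ℓ, σ ^ i = 0) {a b : Fin r → ℤ_[ℓ]} (h : a - σ a = b - σ b) :
    a = b := by
  refine sub_eq_zero.mp (pi_inj hσ ?_)
  rw [map_sub, sub_sub_sub_comm, h, sub_self]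

/-- An endomorphism with values in `(1 - σ) M` is of the form `(1 - σ) h`. Proof: choose `h v` (`pi_inj` gives the uniqueness, so the
linearity, and that `h` commutes with all that commutes with `σ` and `D`). -/
theorem exists_div (hσ : ∑ i ∈ Finset.range ℓ, σ ^ i = 0) {D : Module.End ℤ_[ℓ] (Fin r → ℤ_[ℓ])}
    (hD : ∀ v, ∃ w, D v = w - σ w) : ∃ h : Module.End ℤ_[ℓ] (Fin r → ℤ_[ℓ]), D = (1 - σ) * h ∧
      ∀ A : Module.End ℤ_[ℓ] (Fin r → ℤ_[ℓ]), Commute A σ → Commute A D → Commute A h := by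
  choose f hf using hD
  let h : Module.End ℤ_[ℓ] (Fin r → ℤ_[ℓ]) :=
    { toFun := f
      map_add' := fun a b => tor_inj hσ (by
        rw [← hf, map_add, map_add, hf a, hf b]
        abel)
      map_smul' := fun c a => tor_inj hσ (by
        rw [← hf, map_smul, map_smul, RingHom.id_apply, hf a, smul_sub]) }
  have hh : ∀ v, h v = f v := fun v => rfl
  refine ⟨h, LinearMap.ext fun v => ?_, fun A hA hAD => LinearMap.ext fun v => tor_inj hσ ?_⟩
  · rw [hf v]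
    rfl
  · rw [Module.End.mul_apply, Module.End.mul_apply, hh, hh, ← hf (A v)]
    have e1 : σ (A (f v)) = A (σ (f v)) := by
      have := congrArg (fun F : Module.End ℤ_[ℓ] (Fin r → ℤ_[ℓ]) => F (f v)) hA.eq
      exact this.symm
    have e2 : D (A v) = A (D v) := by
      have := congrArg (fun F : Module.End ℤ_[ℓ] (Fin r → ℤ_[ℓ]) => F v) hAD.eq
      exact this.symm
    rw [e1, ← map_sub, ← hf v, e2]

theorem tor_pow {g : Module.End ℤ_[ℓ] (Fin r → ℤ_[ℓ])} {P : (Fin r → ℤ_[ℓ]) → (Fin r → ℤ_[ℓ])}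
    (hP : ∀ a b, P a + P b = P (a + b)) (h0 : P 0 = 0)
    (h2 : ∀ v, ∃ w, g v - v = P w) (k : ℕ) : ∀ v, ∃ w, (g ^ k) v - v = P w := by
  induction k with
  | zero => exact fun v => ⟨0, by simp [h0]⟩
  | succ k ih =>
    intro v
    obtain ⟨w, hw⟩ := ih v
    obtain ⟨w', hw'⟩ := h2 ((g ^ k) v)
    refine ⟨w' + w, ?_⟩
    rw [← hP, ← hw, ← hw', pow_succ', Module.End.mul_apply]
    abel

/-- the polynomial `geom` at `D`, applied to `v` -/
theorem tor_geom {g : Module.End ℤ_[ℓ] (Fin r → ℤ_[ℓ])} : ∃ q : Module.End ℤ_[ℓ] (Fin r → ℤ_[ℓ]),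
    ∀ v, (∑ i ∈ Finset.range ℓ, g ^ i) v =
      ((g - 1) ^ (ℓ - 1)) v + (ℓ : ℤ_[ℓ]) • (v + (g - 1) (q v)) := by
  obtain ⟨Q, hQ⟩ := geom (Fact.out : ℓ.Prime)
  refine ⟨Polynomial.aeval (g - 1) Q, fun v => ?_⟩
  have h := congrArg (Polynomial.aeval (g - 1)) hQ
  simp only [map_sum, map_pow, map_add, map_mul, map_one, Polynomial.aeval_X, map_natCast,
    add_sub_cancel] at h
  rw [h, LinearMap.add_apply, Module.End.mul_apply, LinearMap.add_apply, Module.End.mul_apply,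
    Module.End.one_apply]
  rfl

theorem tor_prime (hσ : ∑ i ∈ Finset.range ℓ, σ ^ i = 0) {g : Module.End ℤ_[ℓ] (Fin r → ℤ_[ℓ])}
    (hg : Commute g σ) {n : ℕ} (hn : n.Prime) (h1 : g ^ n = 1)
    (h2 : ∀ v, ∃ w, g v - v = (1 - σ) ((1 - σ) w)) : g = 1 := by
  have hℓ : ℓ.Prime := Fact.out
  have hap : ∀ w, (1 - σ) w = w - σ w := fun w => rfl
  set D := g - 1 with hD
  have hDa : ∀ v, D v = g v - v := fun v => rfl
  have hDσ : Commute σ D := (hg.sub_left (Commute.one_left σ)).symm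
  obtain ⟨k₁, hk₁, hc₁⟩ := exists_div (D := D) hσ fun v => by
    obtain ⟨w, hw⟩ := h2 v
    exact ⟨(1 - σ) w, by rw [hDa, hw, hap]⟩
  obtain ⟨k₂, hk₂, hc₂⟩ := exists_div (D := k₁) hσ fun v => by
    obtain ⟨w, hw⟩ := h2 v
    refine ⟨w, tor_inj hσ ?_⟩
    have : (1 - σ) (k₁ v) = (1 - σ) ((1 - σ) w) := by
      rw [← hw, ← hDa, hk₁, Module.End.mul_apply]
    exact this
  have hs₁ : Commute σ k₁ := hc₁ σ (Commute.refl σ) hDσ
  have hs₂ : Commute σ k₂ := hc₂ σ (Commute.refl σ) hs₁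
  have hs : Commute (1 - σ) k₂ := (Commute.one_left k₂).sub_left hs₂
  set s := ∑ i ∈ Finset.range n, g ^ i with hs_def
  have hsD : s * D = 0 := by rw [hs_def, hD, geom_sum_mul, h1, sub_self]
  have hsσ : Commute s σ := by
    rw [hs_def]
    exact Commute.sum_left _ _ _ fun i _ => hg.pow_left i
  have hker : ∀ v, s v = 0 → ∃ w, v = w - σ w := by
    intro v hv
    by_cases hnl : n = ℓ
    · obtain ⟨q, hq⟩ := tor_geom (ℓ := ℓ) (g := g)
      have h0 : (∑ i ∈ Finset.range ℓ, g ^ i) v = 0 := by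
        have h := hv
        rw [hs_def, hnl] at h
        exact h
      rw [hq v, ← hD] at h0
      obtain ⟨m, hm⟩ : ∃ m, ℓ - 1 = m + 1 := ⟨ℓ - 2, by have := hℓ.two_le; omega⟩
      -- D ^ (ℓ - 1) v
      have hDp : ∃ y, (D ^ (ℓ - 1)) v = (ℓ : ℤ_[ℓ]) • ((1 - σ) y) := by
        have e1 : D ^ (ℓ - 1) = (1 - σ) ^ (ℓ - 1) * ((1 - σ) ^ (ℓ - 1) * k₂ ^ (ℓ - 1)) := by
          rw [hk₁, hk₂, ← mul_assoc, (hs.mul_left hs).mul_pow,
            (Commute.refl (1 - σ)).mul_pow, mul_assoc]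
        obtain ⟨w, hw⟩ := pi_pow hσ ((k₂ ^ (ℓ - 1)) v)
        refine ⟨((1 - σ) ^ m) w, ?_⟩
        rw [e1, Module.End.mul_apply, Module.End.mul_apply, hw, map_smul, hm, pow_succ',
          Module.End.mul_apply]
      obtain ⟨y, hy⟩ := hDp
      have hDq : D (q v) = (1 - σ) (k₁ (q v)) := by rw [hk₁]; rfl
      rw [hy, hDq, ← smul_add] at h0
      have hl0 : (ℓ : ℤ_[ℓ]) ≠ 0 := by exact_mod_cast hℓ.ne_zero
      have h3 := (smul_eq_zero.mp h0).resolve_left hl0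
      refine ⟨-(y + k₁ (q v)), ?_⟩
      rw [← hap, map_neg, map_add]
      rw [eq_neg_iff_add_eq_zero, ← h3]
      abel
    · have hu : IsUnit (n : ℤ_[ℓ]) := by
        rw [PadicInt.isUnit_iff, PadicInt.norm_natCast_eq_one_iff]
        exact (Nat.coprime_primes hℓ hn).mpr fun h => hnl h.symm
      obtain ⟨u, hu⟩ := hu
      have hP : ∀ a b, (1 - σ) a + (1 - σ) b = (1 - σ) (a + b) := fun a b => (map_add _ a b).symm
      have hpw := tor_pow (g := g) (P := fun w => (1 - σ) w) hP (map_zero _)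
        (fun v => by obtain ⟨w, hw⟩ := h2 v; exact ⟨(1 - σ) w, hw⟩)
      have hsum : ∀ k, ∃ w, (∑ i ∈ Finset.range k, g ^ i) v - (k : ℤ_[ℓ]) • v = (1 - σ) w := by
        intro k
        induction k with
        | zero => exact ⟨0, by simp⟩
        | succ k ih =>
          obtain ⟨w, hw⟩ := ih
          obtain ⟨w', hw'⟩ := hpw k v
          refine ⟨w + w', ?_⟩
          rw [map_add, ← hw, ← hw', Finset.sum_range_succ, LinearMap.add_apply]
          push_cast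
          rw [add_smul, one_smul]
          abel
      obtain ⟨w, hw⟩ := hsum n
      rw [← hs_def, hv, zero_sub] at hw
      refine ⟨-((↑u⁻¹ : ℤ_[ℓ]) • w), ?_⟩
      rw [← hap, map_neg, map_smul, ← hw, smul_neg, neg_neg, smul_smul, ← hu, Units.inv_mul,
        one_smul]
  have hbot := sep hσ (LinearMap.ker s).toAddSubgroup fun v hv => by
    have hv' : s v = 0 := hv
    obtain ⟨w, hw⟩ := hker v hv'
    refine ⟨w, ?_, hw⟩
    show s w = 0
    refine pi_inj hσ ?_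
    have hc : s (σ w) = σ (s w) := by
      have := congrArg (fun f : Module.End ℤ_[ℓ] (Fin r → ℤ_[ℓ]) => f w) hsσ.eq
      exact this
    rw [← hc, ← map_sub, ← hw, hv']
  refine LinearMap.ext fun v => ?_
  have hDv : D v ∈ (LinearMap.ker s).toAddSubgroup := by
    show s (D v) = 0
    rw [← Module.End.mul_apply, hsD, LinearMap.zero_apply]
  rw [hbot, AddSubgroup.mem_bot, hDa] at hDv
  rw [Module.End.one_apply]
  exact sub_eq_zero.mp hDv

/-- Proof: by strong induction on `N` we may suppose that `N = n` is a prime number (if `n` is a prime divisor of `N`, then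
`g ^ (N / n)` has the same properties, `(g ^ (N / n)) ^ n = 1`, so it is `1`). Let `D = g - 1`, with values in `(1 - σ) ^ 2 M`, and
`s = ∑ i ∈ range n, g ^ i`, so `s D = g ^ n - 1 = 0` (`geom_sum_mul`). It is enough to show that the kernel `N` of `s` is `0`, by `sep`:
let `s v = 0`. If `n ≠ ℓ` then `n` is invertible in `ℤ_ℓ` and `n v = ∑ (v - g ^ i v)` is in `(1 - σ) M`. If `n = ℓ`, by `geom` (evaluated at
`D`): `0 = s v = D ^ (ℓ - 1) v + ℓ (v + D Q(D) v)`, where `D ^ (ℓ - 1) v ∈ (1 - σ) ^ (2 (ℓ - 1)) M ⊆ ℓ (1 - σ) M`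
(`pi_pow`; `D = (1 - σ) ^ 2 h` by `exists_div` twice, all commute), so `v ∈ (1 - σ) M` after division by `ℓ`. So `v = w - σ w`, and
`s w = 0` by `pi_inj` since `s` commutes with `σ`. -/
theorem tor_one (hσ : ∑ i ∈ Finset.range ℓ, σ ^ i = 0) {g : Module.End ℤ_[ℓ] (Fin r → ℤ_[ℓ])} (hg : Commute g σ) {N : ℕ}
    (hN : 0 < N) (h1 : g ^ N = 1) (h2 : ∀ v, ∃ w, g v - v = (1 - σ) ((1 - σ) w)) : g = 1 := by
  induction N using Nat.strong_induction_on generalizing g with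
  | _ N ih =>
    by_cases hp : N.Prime
    · exact tor_prime hσ hg hp h1 h2
    · by_cases hN1 : N = 1
      · rwa [hN1, pow_one] at h1
      · have hn := Nat.minFac_prime hN1
        have hlt : N.minFac < N :=
          lt_of_le_of_ne (Nat.minFac_le hN) fun h => hp (h ▸ hn)
        have hdvd := Nat.minFac_dvd N
        have hd0 : 0 < N / N.minFac := Nat.div_pos (Nat.minFac_le hN) hn.pos
        have hP : ∀ a b, (1 - σ) ((1 - σ) a) + (1 - σ) ((1 - σ) b) = (1 - σ) ((1 - σ) (a + b)) :=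
          fun a b => by rw [map_add, map_add]
        have hk := tor_pow (g := g) (P := fun w => (1 - σ) ((1 - σ) w)) hP
          (by rw [map_zero, map_zero]) h2 (N / N.minFac)
        have e1 : g ^ (N / N.minFac) = 1 := ih _ hlt (hg.pow_left _) hn.pos
          (by rw [← pow_mul, Nat.div_mul_cancel hdvd, h1]) hk
        exact ih _ (Nat.div_lt_self hN hn.one_lt) hg hd0 e1 h2

/-- Proof: `g ^ ℓ` satisfies the hypotheses of `tor_one`: with `D = g - 1 = (1 - σ) h`, `g ^ ℓ - 1 = D * ∑ i ∈ range ℓ, g ^ i` (`mul_geom_sum`), and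
by `geom` (at `D`) `∑ g ^ i = D ^ (ℓ - 1) + ℓ (...)` has values in `(1 - σ) M` (`l_smul`; `ℓ ≥ 2`). -/
theorem tor_l (hσ : ∑ i ∈ Finset.range ℓ, σ ^ i = 0) {g : Module.End ℤ_[ℓ] (Fin r → ℤ_[ℓ])} (hg : Commute g σ) {N : ℕ}
    (hN : 0 < N) (h1 : g ^ N = 1) (h2 : ∀ v, ∃ w, g v - v = w - σ w) : g ^ ℓ = 1 := by
  have hℓ : ℓ.Prime := Fact.out
  have hap : ∀ w, (1 - σ) w = w - σ w := fun w => rfl
  refine tor_one hσ (hg.pow_left ℓ) hN (by rw [← pow_mul, mul_comm, pow_mul, h1, one_pow]) ?_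
  intro v
  obtain ⟨q, hq⟩ := tor_geom (ℓ := ℓ) (g := g)
  have hDa : ∀ v, (g - 1) v = g v - v := fun v => rfl
  have h2' : ∀ v, ∃ w, (g - 1) v = (1 - σ) w := h2
  have hc : Commute (g - 1) (1 - σ) :=
    (Commute.one_right _).sub_right (hg.sub_left (Commute.one_left σ))
  obtain ⟨m, hm⟩ : ∃ m, ℓ - 1 = m + 1 := ⟨ℓ - 2, by have := hℓ.two_le; omega⟩
  obtain ⟨y, hy⟩ : ∃ y, (∑ i ∈ Finset.range ℓ, g ^ i) v = (1 - σ) y := by
    obtain ⟨w₁, hw₁⟩ := h2' (((g - 1) ^ m) v)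
    obtain ⟨w₂, hw₂⟩ := l_smul hσ (v + (g - 1) (q v))
    refine ⟨w₁ + w₂, ?_⟩
    rw [hq v, hm, pow_succ', Module.End.mul_apply, hw₁, hw₂, map_add, hap w₂]
  obtain ⟨z, hz⟩ := h2' y
  refine ⟨z, ?_⟩
  rw [← hz]
  have e1 : (g ^ ℓ) v - v = (g - 1) ((∑ i ∈ Finset.range ℓ, g ^ i) v) := by
    rw [← Module.End.mul_apply, mul_geom_sum]
    rfl
  rw [e1, hy]
  exact congrArg (fun F : Module.End ℤ_[ℓ] (Fin r → ℤ_[ℓ]) => F y) hc.eq

end Pool.Agent.Lib.MP_89bcae_ag.Ep
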