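import Mathlib
import Pool.Agent.Lib.MP_89bcae_ag.Ep.Tor

/-!
# The idempotents of an automorphism of order `ℓ` which is trivial modulo `1 - σ`
-/

open scoped Classical

namespace Pool.Agent.Lib.MP_89bcae_ag.Ep

variable {ℓ : ℕ} [Fact ℓ.Prime] {r : ℕ} {σ : Module.End ℤ_[ℓ] (Fin r → ℤ_[ℓ])}

private theorem idm_cancel {A B : Module.End ℤ_[ℓ] (Fin r → ℤ_[ℓ])} (h : (ℓ : ℤ_[ℓ]) • A = (ℓ : ℤ_[ℓ]) • B) : A = B := by
  have hℓ : (ℓ : ℤ_[ℓ]) ≠ 0 := by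
    exact_mod_cast (Fact.out : ℓ.Prime).ne_zero
  apply LinearMap.ext
  intro v
  funext i
  have h2 := congrFun (LinearMap.congr_fun h v) i
  simp only [LinearMap.smul_apply, Pi.smul_apply, smul_eq_mul] at h2
  exact mul_left_cancel₀ hℓ h2

/-- Proof: by `geom` at `D = τ - 1 = (1 - σ) h` (`exists_div`), `∑ τ ^ j = D ^ (ℓ - 1) + ℓ (1 + D Q(D))` and
`D ^ (ℓ - 1) = (1 - σ) ^ (ℓ - 1) h ^ (ℓ - 1)` has values in `ℓ M` by `pi_pow`; define `E` by division by `ℓ`. -/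
theorem exists_idm (hσ : ∑ i ∈ Finset.range ℓ, σ ^ i = 0) {τ : Module.End ℤ_[ℓ] (Fin r → ℤ_[ℓ])} (hτ : Commute τ σ)
    (h : ∀ v, ∃ w, τ v - v = w - σ w) :
    ∃ E : Module.End ℤ_[ℓ] (Fin r → ℤ_[ℓ]), (ℓ : ℤ_[ℓ]) • E = ∑ j ∈ Finset.range ℓ, τ ^ j := by
  obtain ⟨Q, hQ⟩ := geom (Fact.out : ℓ.Prime)
  obtain ⟨k, hk, hc⟩ := exists_div (σ := σ) hσ (D := τ - 1) (by
    intro v
    obtain ⟨w, hw⟩ := h v
    exact ⟨w, by simpa using hw⟩)
  have hDσ : Commute σ (τ - 1) := (hτ.symm.sub_right (Commute.one_right σ))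
  have hkσ : Commute σ k := hc σ (Commute.refl σ) hDσ
  have hk1 : Commute (1 - σ) k := (Commute.one_left k).sub_left hkσ
  have hS : ∑ j ∈ Finset.range ℓ, τ ^ j = (τ - 1) ^ (ℓ - 1) +
      (ℓ : ℤ_[ℓ]) • (1 + (τ - 1) * Polynomial.aeval (τ - 1) Q) := by
    have h1 := congrArg (Polynomial.aeval (τ - 1)) hQ
    simp only [map_sum, map_pow, map_add, map_mul, map_one, Polynomial.aeval_X, map_natCast,
      add_sub_cancel] at h1
    rw [h1]
    rw [Nat.cast_smul_eq_nsmul, nsmul_eq_mul]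
  have hv : ∀ v, ∃ w, (∑ j ∈ Finset.range ℓ, τ ^ j) v = (ℓ : ℤ_[ℓ]) • w := by
    intro v
    obtain ⟨w, hw⟩ := pi_pow hσ ((k ^ (ℓ - 1)) v)
    refine ⟨w + (1 + (τ - 1) * Polynomial.aeval (τ - 1) Q) v, ?_⟩
    rw [hS, LinearMap.add_apply, LinearMap.smul_apply, smul_add, ← hw, hk, hk1.mul_pow]
    rfl
  choose w hw using hv
  refine ⟨(Pi.basisFun ℤ_[ℓ] (Fin r)).constr ℤ_[ℓ] (fun i => w (Pi.basisFun ℤ_[ℓ] (Fin r) i)), ?_⟩
  apply (Pi.basisFun ℤ_[ℓ] (Fin r)).ext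
  intro i
  rw [LinearMap.smul_apply, Module.Basis.constr_basis, hw]

private theorem idm_sum (hσ : ∑ i ∈ Finset.range ℓ, σ ^ i = 0) {k : ℕ} (hk : Nat.Coprime ℓ k) :
    ∑ i ∈ Finset.range ℓ, (σ ^ k) ^ i = 0 := by
  have hp := (Fact.out : ℓ.Prime)
  have hinj : Set.InjOn (fun i => (k * i) % ℓ) (Finset.range ℓ : Set ℕ) := by
    intro i hi j hj hij
    simp only [Finset.coe_range, Set.mem_Iio] at hi hj
    have h1 : k * i ≡ k * j [MOD ℓ] := hij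
    have h2 : i ≡ j [MOD ℓ] := Nat.ModEq.cancel_left_of_coprime hk h1
    exact Nat.ModEq.eq_of_lt_of_lt h2 hi hj
  have himg : (Finset.range ℓ).image (fun i => (k * i) % ℓ) = Finset.range ℓ := by
    apply Finset.eq_of_subset_of_card_le
    · intro m hm
      simp only [Finset.mem_image] at hm
      obtain ⟨i, _, rfl⟩ := hm
      exact Finset.mem_range.2 (Nat.mod_lt _ hp.pos)
    · rw [Finset.card_image_of_injOn hinj]
  have hpow : ∀ n : ℕ, σ ^ n = σ ^ (n % ℓ) := by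
    intro n
    conv_lhs => rw [← Nat.div_add_mod n ℓ]
    rw [pow_add, pow_mul, pow_l hσ, one_pow, one_mul]
  calc ∑ i ∈ Finset.range ℓ, (σ ^ k) ^ i = ∑ i ∈ Finset.range ℓ, σ ^ ((k * i) % ℓ) := by
        apply Finset.sum_congr rfl
        intro i _
        rw [← pow_mul, hpow]
    _ = ∑ m ∈ (Finset.range ℓ).image (fun i => (k * i) % ℓ), σ ^ m := by
        rw [Finset.sum_image hinj]
    _ = 0 := by rw [himg, hσ]

/-- The idempotents. Proof: `E i` is given by `exists_idm` for `τ = σ ^ ((ℓ - 1) * i) * g` (that is `σ ^ (- i) g`), and all the properties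
follow after multiplication by `ℓ` (or by `ℓ ^ 2`; `M` has no torsion), since `τ ^ ℓ = 1`: `τ ∑ τ ^ j = ∑ τ ^ j` gives `g E i = σ ^ i E i`;
`(∑ τ ^ j) ^ 2 = ℓ ∑ τ ^ j`; `∑ i, ∑ j, σ ^ ((ℓ - 1) i j) g ^ j = ℓ` since `∑ i ∈ range ℓ, (σ ^ k) ^ i = 0` if `ℓ` does not divide `k`
(it is a permutation of the powers of `σ`, `hσ`). -/
theorem exists_idms (hσ : ∑ i ∈ Finset.range ℓ, σ ^ i = 0) {g : Module.End ℤ_[ℓ] (Fin r → ℤ_[ℓ])} (hg : Commute g σ)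
    (h1 : g ^ ℓ = 1) (h : ∀ v, ∃ w, g v - v = w - σ w) :
    ∃ E : ℕ → Module.End ℤ_[ℓ] (Fin r → ℤ_[ℓ]), (∀ i, E i * E i = E i) ∧ (∑ i ∈ Finset.range ℓ, E i = 1) ∧
      (∀ i, g * E i = σ ^ i * E i) ∧
      ∀ i, (ℓ : ℤ_[ℓ]) • E i = ∑ j ∈ Finset.range ℓ, (σ ^ ((ℓ - 1) * i) * g) ^ j := by
  have hp := (Fact.out : ℓ.Prime)
  have hgk : ∀ k, Commute (σ ^ k) g := fun k => (hg.symm.pow_left k)
  have hEx : ∀ i : ℕ, ∃ E : Module.End ℤ_[ℓ] (Fin r → ℤ_[ℓ]),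
      (ℓ : ℤ_[ℓ]) • E = ∑ j ∈ Finset.range ℓ, (σ ^ ((ℓ - 1) * i) * g) ^ j := by
    intro i
    refine exists_idm hσ (τ := σ ^ ((ℓ - 1) * i) * g) ?_ ?_
    · exact ((Commute.refl σ).pow_left _).mul_left hg
    · intro v
      obtain ⟨w, hw⟩ := h v
      have hgeo : (1 - σ) * ∑ j ∈ Finset.range ((ℓ - 1) * i), σ ^ j = 1 - σ ^ ((ℓ - 1) * i) :=
        mul_neg_geom_sum σ _
      have hgeo2 := LinearMap.congr_fun hgeo v
      have hcw : (σ ^ ((ℓ - 1) * i)) (σ w) = σ ((σ ^ ((ℓ - 1) * i)) w) := by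
        have := LinearMap.congr_fun ((Commute.refl σ).pow_left ((ℓ - 1) * i)).eq w
        simpa using this
      refine ⟨(σ ^ ((ℓ - 1) * i)) w - (∑ j ∈ Finset.range ((ℓ - 1) * i), σ ^ j) v, ?_⟩
      simp only [Module.End.mul_apply, LinearMap.sub_apply, Module.End.one_apply] at hgeo2 ⊢
      have hgv : g v = v + (w - σ w) := by rw [← hw]; abel
      rw [hgv, map_add, map_sub, hcw, map_sub]
      have h3 : (σ ^ ((ℓ - 1) * i)) v = v - ((∑ j ∈ Finset.range ((ℓ - 1) * i), σ ^ j) v -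
          σ ((∑ j ∈ Finset.range ((ℓ - 1) * i), σ ^ j) v)) := by
        rw [hgeo2]; abel
      rw [h3]
      abel
  choose E hE using hEx
  have hτl : ∀ i, (σ ^ ((ℓ - 1) * i) * g) ^ ℓ = 1 := by
    intro i
    rw [(hgk _).mul_pow, h1, mul_one, ← pow_mul, mul_comm ((ℓ - 1) * i) ℓ, pow_mul, pow_l hσ, one_pow]
  have hτS : ∀ i, (σ ^ ((ℓ - 1) * i) * g) * ∑ j ∈ Finset.range ℓ, (σ ^ ((ℓ - 1) * i) * g) ^ j =
      ∑ j ∈ Finset.range ℓ, (σ ^ ((ℓ - 1) * i) * g) ^ j := by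
    intro i
    have h2 := mul_geom_sum (σ ^ ((ℓ - 1) * i) * g) ℓ
    rw [hτl, sub_self, sub_mul, one_mul, sub_eq_zero] at h2
    exact h2
  have hτjS : ∀ i m, (σ ^ ((ℓ - 1) * i) * g) ^ m * ∑ j ∈ Finset.range ℓ, (σ ^ ((ℓ - 1) * i) * g) ^ j =
      ∑ j ∈ Finset.range ℓ, (σ ^ ((ℓ - 1) * i) * g) ^ j := by
    intro i m
    induction m with
    | zero => rw [pow_zero, one_mul]
    | succ m ih => rw [pow_succ, mul_assoc, hτS, ih]
  refine ⟨E, ?_, ?_, ?_, hE⟩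
  · intro i
    apply idm_cancel
    apply idm_cancel
    have h3 : (ℓ : ℤ_[ℓ]) • (ℓ : ℤ_[ℓ]) • (E i * E i) = ((ℓ : ℤ_[ℓ]) • E i) * ((ℓ : ℤ_[ℓ]) • E i) := by
      rw [smul_mul_smul_comm, smul_smul]
    rw [h3, hE i, Finset.sum_mul]
    simp only [hτjS]
    rw [Finset.sum_const, Finset.card_range, Nat.cast_smul_eq_nsmul]
  · apply idm_cancel
    rw [Finset.smul_sum]
    simp only [hE]
    have h4 : ∀ i ∈ Finset.range ℓ, ∑ j ∈ Finset.range ℓ, (σ ^ ((ℓ - 1) * i) * g) ^ j =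
        ∑ j ∈ Finset.range ℓ, (σ ^ ((ℓ - 1) * j)) ^ i * g ^ j := by
      intro i _
      apply Finset.sum_congr rfl
      intro j _
      rw [(hgk _).mul_pow, ← pow_mul, ← pow_mul]
      congr 2
      ring
    rw [Finset.sum_congr rfl h4, Finset.sum_comm]
    simp only [← Finset.sum_mul]
    rw [Finset.sum_eq_single 0]
    · simp [Nat.cast_smul_eq_nsmul]
    · intro j hj hj0
      have hjl : j < ℓ := Finset.mem_range.1 hj
      have hcop : Nat.Coprime ℓ ((ℓ - 1) * j) := by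
        rw [Nat.Prime.coprime_iff_not_dvd hp]
        intro hd
        rcases (Nat.Prime.dvd_mul hp).1 hd with hd | hd
        · have := Nat.le_of_dvd (by have := hp.two_le; omega) hd
          have := hp.two_le
          omega
        · have := Nat.le_of_dvd (by omega) hd
          omega
      rw [idm_sum hσ hcop, zero_mul]
    · intro h0
      exact absurd (Finset.mem_range.2 hp.pos) h0
  · intro i
    apply idm_cancel
    rw [← mul_smul_comm, ← mul_smul_comm, hE i]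
    have h5 : σ ^ i * ((σ ^ ((ℓ - 1) * i) * g) * ∑ j ∈ Finset.range ℓ, (σ ^ ((ℓ - 1) * i) * g) ^ j) =
        σ ^ i * ∑ j ∈ Finset.range ℓ, (σ ^ ((ℓ - 1) * i) * g) ^ j := by rw [hτS i]
    rw [← h5, ← mul_assoc, ← mul_assoc, ← pow_add]
    have h6 : i + (ℓ - 1) * i = ℓ * i := by
      have h7 : ℓ = (ℓ - 1) + 1 := by have := hp.pos; omega
      conv_rhs => rw [h7]
      ring
    rw [h6, pow_mul σ ℓ i, pow_l hσ, one_pow, one_mul]

end Pool.Agent.Lib.MP_89bcae_ag.Ep
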