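import Mathlib
import Pool.Agent.Lib.MP_89bcae_ag.Xs.Alt

/-!
# Commuting idempotents permuted by a group
-/

open scoped Classical

namespace Pool.Agent.Lib.MP_89bcae_ag.Ep

private lemma kau_mem {κ : Type} [Field κ] {J : Type} [AddCommGroup J] [Module κ J] {w : Module.End κ J}
    (hw : w * w = w) {μ : κ} {b : J} : b ∈ w.maxGenEigenspace μ ↔ w b = μ • b := by
  have hww : ∀ x, w (w x) = w x := fun x => by rw [← Module.End.mul_apply, hw]
  have hap : ∀ x, (w - μ • (1 : Module.End κ J)) x = w x - μ • x := fun x => by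
    rw [LinearMap.sub_apply, LinearMap.smul_apply, Module.End.one_apply]
  have h2 : ∀ x, (w - μ • (1 : Module.End κ J)) ((w - μ • (1 : Module.End κ J)) x) = 0 →
      (w - μ • (1 : Module.End κ J)) x = 0 := by
    intro x hx
    by_cases h0 : μ = 0
    · subst h0
      rw [hap, hap] at hx
      rw [hap]
      simpa [hww] using hx
    by_cases h1 : μ = 1
    · subst h1
      rw [hap, hap, one_smul, one_smul, map_sub, hww, sub_self, zero_sub, neg_eq_zero] at hx
      rw [hap, one_smul]
      exact hx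
    · generalize (w - μ • (1 : Module.End κ J)) x = y at hx ⊢
      rw [hap, sub_eq_zero] at hx
      have h3 : μ • y = (μ * μ) • y := by
        have := hww y
        rw [hx, map_smul, hx, smul_smul] at this
        exact this.symm
      have h4 : (μ * (1 - μ)) • y = 0 := by
        rw [mul_sub, mul_one, sub_smul, ← h3, sub_self]
      refine (smul_eq_zero.1 h4).resolve_left ?_
      exact mul_ne_zero h0 (sub_ne_zero.2 (Ne.symm h1))
  have h3 : ∀ (n : ℕ) (x : J), ((w - μ • (1 : Module.End κ J)) ^ (n + 1)) x = 0 →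
      (w - μ • (1 : Module.End κ J)) x = 0 := by
    intro n
    induction n with
    | zero =>
      intro x hx
      rwa [zero_add, pow_one] at hx
    | succ n ih =>
      intro x hx
      rw [pow_succ, Module.End.mul_apply] at hx
      exact h2 x (ih _ hx)
  rw [Module.End.mem_maxGenEigenspace]
  constructor
  · rintro ⟨n, hn⟩
    cases n with
    | zero =>
      rw [pow_zero, Module.End.one_apply] at hn
      rw [hn, map_zero, smul_zero]
    | succ n =>
      have h4 := h3 n b hn
      rw [hap] at h4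
      exact sub_eq_zero.1 h4
  · intro h
    refine ⟨1, ?_⟩
    rw [pow_one, hap, h, sub_self]

/-- A family of commuting idempotents, permuted by a group which acts irreducibly and through the alternating group
of a large set, consists of `0` and `1`. Proof: that of `ker_aux` in `Xs/Ker.lean` (the case of `ZMod 2` and of a family
indexed by `H`; here the field is `κ` and the indices are the pairs `(k, i)`, `i : ι`): the joint eigenspaces `E χ`,
`χ : H × ι → κ`, are permuted by `H`, there are fewer than `card X` of them which are not `0`, so they are stable (`alt_small`) and one of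
them is everything. In `ker_mem` the case of `μ ≠ 0, 1` is: `w b = μ b` implies `μ b = μ ^ 2 b`; `(w - μ)` is injective. -/
theorem ker_aux {κ : Type} [Field κ] {J : Type} [AddCommGroup J] [Module κ J] {ι : Type} {X : Type} [Fintype X]
    (hX : 5 ≤ Fintype.card X) {H : Type} [Group H]
    (q : H →* alternatingGroup X) (hq : Function.Surjective q) [Module.Finite κ J]
    (hJ : Module.finrank κ J < Fintype.card X) (ρ : H →* Module.End κ J)
    (hirr : ∀ B : Submodule κ J, (∀ h, ∀ b ∈ B, ρ h b ∈ B) → B = ⊥ ∨ B = ⊤)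
    (f : H × ι → Module.End κ J) (hid : ∀ k, f k * f k = f k) (hcomm : ∀ k k', Commute (f k) (f k'))
    (hc : ∀ h k i, f (h * k * h⁻¹, i) * ρ h = ρ h * f (k, i)) (htriv : ∀ h, q h = 1 → ∀ k i, f (h * k * h⁻¹, i) = f (k, i)) :
    ∀ k, f k = 0 ∨ f k = 1 := by
  intro k
  rcases subsingleton_or_nontrivial J with hs | hnt
  · left
    ext x
    exact Subsingleton.elim _ _
  set E : (H × ι → κ) → Submodule κ J := fun χ => ⨅ i, (f i).maxGenEigenspace (χ i) with hE
  have hmem : ∀ χ b, b ∈ E χ ↔ ∀ i, f i b = χ i • b := by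
    intro χ b
    rw [hE]
    simp only [Submodule.mem_iInf]
    exact forall_congr' fun i => kau_mem (hid i)
  have hmt : ∀ i j (φ : κ), Set.MapsTo (f i) ((f j).maxGenEigenspace φ) ((f j).maxGenEigenspace φ) := by
    intro i j φ b hb
    rw [SetLike.mem_coe, kau_mem (hid j)] at hb ⊢
    rw [← Module.End.mul_apply, (hcomm j i).eq, Module.End.mul_apply, hb, map_smul]
  have hind : iSupIndep E := Module.End.independent_iInf_maxGenEigenspace_of_forall_mapsTo f hmt
  have htop : ⨆ χ, E χ = ⊤ := by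
    refine Module.End.iSup_iInf_maxGenEigenspace_eq_top_of_forall_mapsTo f hmt fun i => ?_
    rw [eq_top_iff]
    intro b _
    have h1 : f i b ∈ ⨆ μ, (f i).maxGenEigenspace μ := by
      refine Submodule.mem_iSup_of_mem 1 ((kau_mem (hid i)).2 ?_)
      rw [← Module.End.mul_apply, hid, one_smul]
    have h2 : b - f i b ∈ ⨆ μ, (f i).maxGenEigenspace μ := by
      refine Submodule.mem_iSup_of_mem 0 ((kau_mem (hid i)).2 ?_)
      rw [map_sub, ← Module.End.mul_apply, hid, sub_self, zero_smul]
    have h3 := add_mem h1 h2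
    rwa [add_sub_cancel] at h3
  have hρ : ∀ h b, ρ h⁻¹ (ρ h b) = b := fun h b => by
    rw [← Module.End.mul_apply, ← map_mul, inv_mul_cancel, map_one, Module.End.one_apply]
  -- the action on the characters
  have hmove : ∀ (h : H) (χ : H × ι → κ) (b : J), b ∈ E χ → ρ h b ∈ E fun k => χ (h⁻¹ * k.1 * h, k.2) := by
    intro h χ b hb
    rw [hmem] at hb ⊢
    intro i
    have h1 := LinearMap.congr_fun (hc h (h⁻¹ * i.1 * h) i.2) b
    rw [Module.End.mul_apply, Module.End.mul_apply, hb, map_smul] at h1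
    rw [← h1]
    congr 2
    refine Prod.ext ?_ rfl
    show i.1 = h * (h⁻¹ * i.1 * h) * h⁻¹
    group
  have hne : ∀ (h : H) (χ : H × ι → κ), E χ ≠ ⊥ → E (fun k => χ (h⁻¹ * k.1 * h, k.2)) ≠ ⊥ := by
    intro h χ hχ
    obtain ⟨b, hb, hb0⟩ := (Submodule.ne_bot_iff _).1 hχ
    refine (Submodule.ne_bot_iff _).2 ⟨ρ h b, hmove h χ b hb, fun h0 => hb0 ?_⟩
    rw [← hρ h b, h0, map_zero]
  let act : MulAction H {χ : H × ι → κ // E χ ≠ ⊥} :=
    { smul := fun h χ => ⟨fun k => χ.1 (h⁻¹ * k.1 * h, k.2), hne h χ.1 χ.2⟩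
      one_smul := fun χ => Subtype.ext (funext fun k => by
        show χ.1 (1⁻¹ * k.1 * 1, k.2) = χ.1 k
        rw [inv_one, one_mul, mul_one])
      mul_smul := fun h h' χ => Subtype.ext (funext fun k => by
        show χ.1 ((h * h')⁻¹ * k.1 * (h * h'), k.2) = χ.1 (h'⁻¹ * (h⁻¹ * k.1 * h) * h', k.2)
        rw [mul_inv_rev]
        simp only [mul_assoc]) }
  have hfin : Finite {χ : H × ι → κ // E χ ≠ ⊥} := by
    have h1 := hind.subtype_ne_bot_le_finrank_aux
    exact Cardinal.lt_aleph0_iff_finite.1 (lt_of_le_of_lt h1 Cardinal.natCast_lt_aleph0)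
  have hft : Fintype {χ : H × ι → κ // E χ ≠ ⊥} := Fintype.ofFinite _
  have hcard : Fintype.card {χ : H × ι → κ // E χ ≠ ⊥} < Fintype.card X :=
    lt_of_le_of_lt hind.subtype_ne_bot_le_finrank hJ
  let ψ : H →* Equiv.Perm {χ : H × ι → κ // E χ ≠ ⊥} := MulAction.toPermHom H _
  have hψ : ∀ (h : H) (χ : {χ : H × ι → κ // E χ ≠ ⊥}) (k : H × ι), (ψ h χ).1 k = χ.1 (h⁻¹ * k.1 * h, k.2) :=
    fun h χ k => rfl
  have hker : q.ker ≤ ψ.ker := by
    intro h hh
    rw [MonoidHom.mem_ker] at hh ⊢
    ext χ k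
    rw [hψ, Equiv.Perm.one_apply]
    obtain ⟨b, hb, hb0⟩ := (Submodule.ne_bot_iff _).1 χ.2
    have hh' : q h⁻¹ = 1 := by rw [map_inv, hh, inv_one]
    have h1 := htriv h⁻¹ hh' k.1 k.2
    rw [inv_inv] at h1
    have h2 := ((hmem _ _).1 hb) (h⁻¹ * k.1 * h, k.2)
    have h3 := ((hmem _ _).1 hb) k
    rw [h1, h3] at h2
    exact (smul_left_injective κ hb0 h2).symm
  let φ : alternatingGroup X →* Equiv.Perm {χ : H × ι → κ // E χ ≠ ⊥} :=
    q.liftOfSurjective hq ⟨ψ, hker⟩
  have hφψ : ∀ h, φ (q h) = ψ h := fun h => by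
    exact MonoidHom.liftOfRightInverse_comp_apply q (Function.surjInv hq)
      (Function.rightInverse_surjInv hq) ⟨ψ, hker⟩ h
  have hφ : φ = 1 := Pool.Agent.Lib.MP_89bcae_ag.Xs.alt_small hX hcard φ
  have hψ1 : ∀ h, ψ h = 1 := fun h => by rw [← hφψ, hφ, MonoidHom.one_apply]
  -- a nonzero eigenspace
  have hex : ∃ χ, E χ ≠ ⊥ := by
    by_contra hcon
    push Not at hcon
    have h1 : (⊤ : Submodule κ J) = ⊥ := by
      rw [← htop]
      exact iSup_eq_bot.2 hcon
    exact top_ne_bot h1
  obtain ⟨χ, hχ⟩ := hex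
  have hstab : ∀ h, ∀ b ∈ E χ, ρ h b ∈ E χ := by
    intro h b hb
    have h1 := hmove h χ b hb
    have h2 : (fun k : H × ι => χ (h⁻¹ * k.1 * h, k.2)) = χ := by
      have h3 := congrArg (fun s : Equiv.Perm {χ : H × ι → κ // E χ ≠ ⊥} => (s ⟨χ, hχ⟩).1) (hψ1 h)
      exact h3
    rwa [h2] at h1
  rcases hirr (E χ) hstab with h1 | h1
  · exact absurd h1 hχ
  · have h2 : ∀ b, f k b = χ k • b := fun b => (hmem χ b).1 (h1 ▸ Submodule.mem_top) k
    have h3 : χ k = 0 ∨ χ k = 1 := by
      obtain ⟨b, hb⟩ := exists_ne (0 : J)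
      have h4 : f k (f k b) = f k b := by rw [← Module.End.mul_apply, hid]
      rw [h2, h2, smul_smul] at h4
      have h5 : (χ k * χ k - χ k) • b = 0 := by rw [sub_smul, h4, sub_self]
      have h6 : χ k * χ k - χ k = 0 := (smul_eq_zero.1 h5).resolve_right hb
      have h7 : χ k * (χ k - 1) = 0 := by rw [mul_sub, mul_one]; exact h6
      rcases mul_eq_zero.1 h7 with h8 | h8
      · exact Or.inl h8
      · exact Or.inr (sub_eq_zero.1 h8)
    rcases h3 with h3 | h3
    · left
      ext b
      rw [h2, h3, zero_smul, LinearMap.zero_apply]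
    · right
      ext b
      rw [h2, h3, one_smul, Module.End.one_apply]


end Pool.Agent.Lib.MP_89bcae_ag.Ep
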