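import Mathlib
import Pool.Agent.Lib.MP_89bcae_ag.Ep.Hrt
import Pool.Agent.Lib.MP_89bcae_ag.Ep.Idm
import Pool.Agent.Lib.MP_89bcae_ag.Ep.Kau

/-!
# The kernel modulo `1 - σ` of a lift of the heart
-/

open scoped Classical

namespace Pool.Agent.Lib.MP_89bcae_ag.Ep

variable {ℓ : ℕ} [Fact ℓ.Prime] {X : Type} [Fintype X] {H : Type} [Group H] {r : ℕ}
  {σ : Module.End ℤ_[ℓ] (Fin r → ℤ_[ℓ])} {a : H →* ((Fin r → ℤ_[ℓ]) ≃ₗ[ℤ_[ℓ]] (Fin r → ℤ_[ℓ]))}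
  {q : H →* alternatingGroup X} {p : (Fin r → ℤ_[ℓ]) →+ (X → ZMod ℓ) ⧸ Cst ℓ X}

/-- the representation by endomorphisms -/
private noncomputable def ker1_E (a : H →* ((Fin r → ℤ_[ℓ]) ≃ₗ[ℤ_[ℓ]] (Fin r → ℤ_[ℓ]))) :
    H →* Module.End ℤ_[ℓ] (Fin r → ℤ_[ℓ]) :=
  LinearEquiv.automorphismGroup.toLinearMapMonoidHom.comp a

private lemma ker1_apply (a : H →* ((Fin r → ℤ_[ℓ]) ≃ₗ[ℤ_[ℓ]] (Fin r → ℤ_[ℓ]))) (g : H)
    (v : Fin r → ℤ_[ℓ]) : ker1_E a g v = a g v := rfl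

private lemma ker1_one (a : H →* ((Fin r → ℤ_[ℓ]) ≃ₗ[ℤ_[ℓ]] (Fin r → ℤ_[ℓ]))) {g : H}
    (h : ker1_E a g = 1) : a g = 1 := by
  apply LinearEquiv.ext
  intro v
  have h1 := LinearMap.congr_fun h v
  rw [ker1_apply] at h1
  exact h1

private lemma ker1_comm (h : Lft σ a q p) (g : H) : Commute (ker1_E a g) σ := by
  apply LinearMap.ext
  intro v
  rw [Module.End.mul_apply, Module.End.mul_apply, ker1_apply, ker1_apply]
  exact h.comm g v

private lemma ker1_fin [Finite H] (a : H →* ((Fin r → ℤ_[ℓ]) ≃ₗ[ℤ_[ℓ]] (Fin r → ℤ_[ℓ]))) (g : H) :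
    ∃ N : ℕ, 0 < N ∧ ker1_E a g ^ N = 1 := by
  refine ⟨orderOf g, orderOf_pos g, ?_⟩
  rw [← map_pow, pow_orderOf_eq_one, map_one]

/-- Proof: `p (a g v) = p v` by `act`, so `p (a g v - v) = 0`, and `ker`. -/
theorem triv_of (h : Lft σ a q p) {g : H} (hg : q g = 1) (v : Fin r → ℤ_[ℓ]) : ∃ w, a g v - v = w - σ w := by
  rw [← h.ker]
  obtain ⟨f, -, hf⟩ := (h.ran (p v)).mp ⟨v, rfl⟩
  have h1 := h.act g v f hf.symm
  have h2 : (fun x => f (((q g : Equiv.Perm X)⁻¹ : Equiv.Perm X) x)) = f := by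
    funext x
    rw [hg]
    simp
  rw [h2] at h1
  rw [map_sub, h1, hf, sub_self]

/-- Proof: `tor_l` (`H` is finite, so `g ^ N = 1` for some `N > 0`), `(a g) ^ ℓ = 1` as an endomorphism, and `inj`. -/
theorem pow_l_ker [Finite H] (h : Lft σ a q p) {g : H} (hg : q g = 1) : g ^ ℓ = 1 := by
  obtain ⟨N, hN, hN1⟩ := ker1_fin a g
  have h1 : ker1_E a g ^ ℓ = 1 :=
    tor_l h.cyc (ker1_comm h g) hN hN1 (fun v => triv_of h hg v)
  have h2 : ker1_E a (g ^ ℓ) = 1 := by rw [map_pow, h1]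
  exact h.inj _ (ker1_one a h2) (by rw [map_pow, hg, one_pow])

/-- Proof: `tor_one` for `c = g k g⁻¹ k⁻¹`: with `a g = 1 + (1 - σ) A`, `a k = 1 + (1 - σ) B` (`exists_div`) we have
`a c - 1 = (a g a k - a k a g) a g⁻¹ a k⁻¹`, `a g a k - a k a g = (1 - σ) ^ 2 (A B - B A)`; so `a c = 1`, `q c = 1`, and
`c = 1` by `inj`. -/
theorem ker_comm [Finite H] (h : Lft σ a q p) {g k : H} (hg : q g = 1) (hk : q k = 1) : g * k = k * g := by
  obtain ⟨A, hA, hA'⟩ := exists_div h.cyc (D := ker1_E a g - 1) (fun v => triv_of h hg v)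
  obtain ⟨B, hB, hB'⟩ := exists_div h.cyc (D := ker1_E a k - 1) (fun v => triv_of h hk v)
  have hσA : Commute σ A := hA' σ (Commute.refl σ)
    ((ker1_comm h g).symm.sub_right (Commute.one_right σ))
  have hσB : Commute σ B := hB' σ (Commute.refl σ)
    ((ker1_comm h k).symm.sub_right (Commute.one_right σ))
  have hA1 : A * (1 - σ) = (1 - σ) * A := by
    rw [mul_sub, sub_mul, mul_one, one_mul, hσA.eq]
  have hB1 : B * (1 - σ) = (1 - σ) * B := by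
    rw [mul_sub, sub_mul, mul_one, one_mul, hσB.eq]
  have hcomm : ker1_E a g * ker1_E a k - ker1_E a k * ker1_E a g =
      (1 - σ) * ((1 - σ) * (A * B - B * A)) := by
    have e1 : ker1_E a g * ker1_E a k - ker1_E a k * ker1_E a g =
        (ker1_E a g - 1) * (ker1_E a k - 1) - (ker1_E a k - 1) * (ker1_E a g - 1) := by
      simp only [sub_mul, mul_sub, one_mul, mul_one]
      abel
    rw [e1, hA, hB]
    have e2 : (1 - σ) * A * ((1 - σ) * B) = (1 - σ) * ((1 - σ) * (A * B)) := by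
      rw [mul_assoc, ← mul_assoc A, hA1, mul_assoc]
    have e3 : (1 - σ) * B * ((1 - σ) * A) = (1 - σ) * ((1 - σ) * (B * A)) := by
      rw [mul_assoc, ← mul_assoc B, hB1, mul_assoc]
    rw [e2, e3, ← mul_sub, ← mul_sub]
  obtain ⟨N, hN, hN1⟩ := ker1_fin a (g * k * g⁻¹ * k⁻¹)
  have hone : ker1_E a (g * k * g⁻¹ * k⁻¹) = 1 := by
    refine tor_one h.cyc (ker1_comm h _) hN hN1 fun v => ?_
    refine ⟨(A * B - B * A) (ker1_E a g⁻¹ (ker1_E a k⁻¹ v)), ?_⟩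
    have e4 : ker1_E a (g * k * g⁻¹ * k⁻¹) - 1 =
        (ker1_E a g * ker1_E a k - ker1_E a k * ker1_E a g) * (ker1_E a g⁻¹ * ker1_E a k⁻¹) := by
      have e5 : ker1_E a k * ker1_E a g * (ker1_E a g⁻¹ * ker1_E a k⁻¹) = 1 := by
        rw [← map_mul, ← map_mul, ← map_mul]
        have e6 : k * g * (g⁻¹ * k⁻¹) = 1 := by group
        rw [e6, map_one]
      rw [sub_mul, e5]
      congr 1
      rw [← map_mul, ← map_mul, ← map_mul]
      congr 1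
      group
    have e7 : ker1_E a (g * k * g⁻¹ * k⁻¹) v - v = (ker1_E a (g * k * g⁻¹ * k⁻¹) - 1) v := rfl
    rw [e7, e4, hcomm]
    rfl
  have hc : g * k * g⁻¹ * k⁻¹ = 1 := by
    refine h.inj _ (ker1_one a hone) ?_
    rw [map_mul, map_mul, map_mul, map_inv, map_inv, hg, hk]
    simp
  have h8 : g * k * g⁻¹ * k⁻¹ * (k * g) = g * k := by group
  rw [← h8, hc, one_mul]

end Pool.Agent.Lib.MP_89bcae_ag.Ep
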