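import Mathlib
import Pool.Agent.Lib.MP_89bcae_ag.Ep.Ker1

/-!
# The kernel acts by powers of the endomorphism
-/

open scoped Classical

namespace Pool.Agent.Lib.MP_89bcae_ag.Ep

variable {ℓ : ℕ} [Fact ℓ.Prime] {X : Type} [Fintype X] {H : Type} [Group H] {r : ℕ}
  {σ : Module.End ℤ_[ℓ] (Fin r → ℤ_[ℓ])} {a : H →* ((Fin r → ℤ_[ℓ]) ≃ₗ[ℤ_[ℓ]] (Fin r → ℤ_[ℓ]))}
  {q : H →* alternatingGroup X} {p : (Fin r → ℤ_[ℓ]) →+ (X → ZMod ℓ) ⧸ Cst ℓ X}

private lemma ker_tf {v w : Fin r → ℤ_[ℓ]} (h : (ℓ : ℤ_[ℓ]) • v = (ℓ : ℤ_[ℓ]) • w) : v = w := by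
  have h0 : (ℓ : ℤ_[ℓ]) ≠ 0 := by
    exact_mod_cast (Fact.out : ℓ.Prime).ne_zero
  exact smul_right_injective _ h0 h

private lemma ker_tfe {s t : Module.End ℤ_[ℓ] (Fin r → ℤ_[ℓ])} (h : (ℓ : ℤ_[ℓ]) • s = (ℓ : ℤ_[ℓ]) • t) : s = t :=
  LinearMap.ext fun v => ker_tf (LinearMap.congr_fun h v)

/-- The sum which defines the idempotents. -/
private noncomputable def kerS (σ g : Module.End ℤ_[ℓ] (Fin r → ℤ_[ℓ])) (i : ℕ) : Module.End ℤ_[ℓ] (Fin r → ℤ_[ℓ]) :=
  ∑ j ∈ Finset.range ℓ, (σ ^ ((ℓ - 1) * i) * g) ^ j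

private lemma kerS_semi {σ g g' A : Module.End ℤ_[ℓ] (Fin r → ℤ_[ℓ])} (hσ : Commute A σ) (h : A * g = g' * A) (i : ℕ) :
    A * kerS σ g i = kerS σ g' i * A := by
  unfold kerS
  rw [Finset.mul_sum, Finset.sum_mul]
  refine Finset.sum_congr rfl fun j _ => ?_
  have h1 : SemiconjBy A (σ ^ ((ℓ - 1) * i) * g) (σ ^ ((ℓ - 1) * i) * g') :=
    SemiconjBy.mul_right (hσ.pow_right _) h
  exact h1.pow_right j

private lemma ker_semi {E E' S S' A : Module.End ℤ_[ℓ] (Fin r → ℤ_[ℓ])} (hE : (ℓ : ℤ_[ℓ]) • E = S)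
    (hE' : (ℓ : ℤ_[ℓ]) • E' = S') (h : A * S = S' * A) : A * E = E' * A := by
  apply ker_tfe
  rw [← mul_smul_comm, hE, ← smul_mul_assoc, hE', h]

section

variable {J : Type} [AddCommGroup J]

private noncomputable def kerBar (p : (Fin r → ℤ_[ℓ]) →+ J) (hp : Function.Surjective p)
    (hk : ∀ v, p v = 0 ↔ ∃ w, v = w - σ w) (f : Module.End ℤ_[ℓ] (Fin r → ℤ_[ℓ])) (hf : Commute f σ) : J →+ J :=
  p.liftOfSurjective hp ⟨p.comp f.toAddMonoidHom, fun v hv => by
    rw [AddMonoidHom.mem_ker] at hv ⊢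
    obtain ⟨w, rfl⟩ := (hk v).1 hv
    refine (hk _).2 ⟨f w, ?_⟩
    have h1 := LinearMap.congr_fun hf.eq w
    rw [Module.End.mul_apply, Module.End.mul_apply] at h1
    rw [← h1]
    exact map_sub f w (σ w)⟩

private lemma kerBar_apply (p : (Fin r → ℤ_[ℓ]) →+ J) (hp : Function.Surjective p)
    (hk : ∀ v, p v = 0 ↔ ∃ w, v = w - σ w) (f : Module.End ℤ_[ℓ] (Fin r → ℤ_[ℓ])) (hf : Commute f σ) (v : Fin r → ℤ_[ℓ]) :
    kerBar p hp hk f hf (p v) = p (f v) :=
  AddMonoidHom.liftOfRightInverse_comp_apply p (Function.surjInv hp)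
    (Function.rightInverse_surjInv hp) ⟨p.comp f.toAddMonoidHom, _⟩ v

end

/-- The endomorphism given by an element of the group. -/
private noncomputable def kerE (a : H →* ((Fin r → ℤ_[ℓ]) ≃ₗ[ℤ_[ℓ]] (Fin r → ℤ_[ℓ]))) :
    H →* Module.End ℤ_[ℓ] (Fin r → ℤ_[ℓ]) where
  toFun s := (a s : (Fin r → ℤ_[ℓ]) →ₗ[ℤ_[ℓ]] (Fin r → ℤ_[ℓ]))
  map_one' := by
    rw [map_one]
    rfl
  map_mul' s t := by
    rw [map_mul]
    rfl

private lemma kerE_apply (a : H →* ((Fin r → ℤ_[ℓ]) ≃ₗ[ℤ_[ℓ]] (Fin r → ℤ_[ℓ]))) (s : H) (v : Fin r → ℤ_[ℓ]) :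
    kerE a s v = a s v := rfl

/-- The main argument, for a group `J` isomorphic to the image of `p`. -/
private lemma ker_core [Finite H] (hX : 5 ≤ Fintype.card X) (h : Lft σ a q p) {J : Type} [AddCommGroup J]
    [Module (ZMod ℓ) J] [Finite J] (ι : J →+ (X → ZMod ℓ) ⧸ Cst ℓ X) (hι : Function.Injective ι)
    (p' : (Fin r → ℤ_[ℓ]) →+ J) (hps : Function.Surjective p') (hp' : ∀ v, ι (p' v) = p v) {g : H} (hg : q g = 1) :
    ∃ i : ℕ, ∀ v, a g v = (σ ^ i) v := by
  have hL : ℓ.Prime := Fact.out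
  have hpk : ∀ v, p' v = 0 ↔ ∃ w, v = w - σ w := by
    intro v
    rw [← h.ker v, ← hp', map_eq_zero_iff ι hι]
  have hmf : Module.Finite (ZMod ℓ) J := Module.Finite.of_finite
  have hrank : Module.finrank (ZMod ℓ) J < Fintype.card X := by
    have h1 : Nat.card J = ℓ ^ Module.finrank (ZMod ℓ) J := by
      have h2 := Module.natCard_eq_pow_finrank (K := ZMod ℓ) (V := J)
      rwa [Nat.card_zmod] at h2
    have h3 : Nat.card J ≤ Nat.card ((X → ZMod ℓ) ⧸ Cst ℓ X) :=
      Nat.card_le_card_of_injective _ hι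
    have h4 := AddSubgroup.card_eq_card_quotient_mul_card_addSubgroup (Cst ℓ X)
    rw [Nat.card_fun, Nat.card_zmod, Nat.card_eq_fintype_card] at h4
    have hXne : Nonempty X := Fintype.card_pos_iff.1 (by omega)
    have h5 : 1 < Nat.card (Cst ℓ X) := by
      have : Nontrivial (Cst ℓ X) := by
        refine ⟨⟨⟨fun _ => 0, 0, fun _ => rfl⟩, ⟨fun _ => 1, 1, fun _ => rfl⟩, fun h0 => ?_⟩⟩
        have h6 := congrFun (Subtype.ext_iff.1 h0) hXne.some
        exact zero_ne_one h6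
      exact Finite.one_lt_card
    have h6 : 0 < Nat.card ((X → ZMod ℓ) ⧸ Cst ℓ X) := Nat.card_pos
    have h7 : ℓ ^ Module.finrank (ZMod ℓ) J < ℓ ^ Fintype.card X := by
      rw [← h1, h4]
      nlinarith
    exact (Nat.pow_lt_pow_iff_right hL.one_lt).1 h7
  let bar : (f : Module.End ℤ_[ℓ] (Fin r → ℤ_[ℓ])) → Commute f σ → Module.End (ZMod ℓ) J := fun f hf =>
    (kerBar p' hps hpk f hf).toZModLinearMap ℓ
  have hbar : ∀ f hf v, bar f hf (p' v) = p' (f v) := fun f hf v => kerBar_apply p' hps hpk f hf v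
  have hbe : ∀ {s t : Module.End (ZMod ℓ) J}, (∀ v, s (p' v) = t (p' v)) → s = t := by
    intro s t hst
    ext1 x
    obtain ⟨v, rfl⟩ := hps x
    exact hst v
  have haσ : ∀ s, Commute (kerE a s) σ := fun s => LinearMap.ext fun v => h.comm s v
  let ρ : H →* Module.End (ZMod ℓ) J :=
    { toFun := fun s => bar (kerE a s) (haσ s)
      map_one' := hbe fun v => by
        rw [hbar, map_one]
        rfl
      map_mul' := fun s t => hbe fun v => by
        rw [hbar, Module.End.mul_apply, hbar, hbar, map_mul]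
        rfl }
  have hρ : ∀ s v, ρ s (p' v) = p' (a s v) := fun s v => hbar _ _ v
  -- irreducibility
  have hirr : ∀ B : Submodule (ZMod ℓ) J, (∀ s, ∀ b ∈ B, ρ s b ∈ B) → B = ⊥ ∨ B = ⊤ := by
    intro B hB
    by_cases hB0 : B = ⊥
    · exact Or.inl hB0
    right
    obtain ⟨y, hy, hy0⟩ := (Submodule.ne_bot_iff _).1 hB0
    let M : AddSubgroup (X → ZMod ℓ) :=
      { carrier := {f | ∃ y ∈ B, ι y = cl ℓ X f}
        zero_mem' := ⟨0, B.zero_mem, by rw [map_zero, map_zero]⟩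
        add_mem' := by
          rintro f f' ⟨y1, h2, h3⟩ ⟨y1', h2', h3'⟩
          refine ⟨y1 + y1', B.add_mem h2 h2', ?_⟩
          rw [map_add, h3, h3', map_add]
        neg_mem' := by
          rintro f ⟨y1, h2, h3⟩
          refine ⟨-y1, B.neg_mem h2, ?_⟩
          rw [map_neg, h3, map_neg] }
    obtain ⟨v, hv⟩ := hps y
    obtain ⟨f, hf, hfy⟩ := (h.ran (ι y)).1 ⟨v, by rw [← hp', hv]⟩
    have hfC : f ∉ Cst ℓ X := by
      intro hc
      apply hy0
      apply hι
      rw [map_zero, ← hfy]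
      exact cl_eq_zero.2 hc
    have hall := heart_irreducible hX M (by
      rintro s hs f ⟨y1, h2, h3⟩
      obtain ⟨t, ht⟩ := h.surj ⟨s, hs⟩
      refine ⟨ρ t y1, hB t y1 h2, ?_⟩
      obtain ⟨w, rfl⟩ := hps y1
      rw [hρ, hp']
      have h4 := h.act t w f (by rw [← hp', h3])
      rw [ht] at h4
      exact h4) (f := f) ⟨y, hy, hfy.symm⟩ hfC
    rw [eq_top_iff]
    intro z _
    obtain ⟨w, hw⟩ := hps z
    obtain ⟨f', hf', hfz⟩ := (h.ran (ι z)).1 ⟨w, by rw [← hp', hw]⟩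
    obtain ⟨z', hz', hz⟩ := hall f' hf'
    rw [hfz] at hz
    rwa [← hι hz]
  -- the idempotents
  have hex : ∀ k : H, q k = 1 → ∃ E : ℕ → Module.End ℤ_[ℓ] (Fin r → ℤ_[ℓ]), (∀ i, E i * E i = E i) ∧
      (∑ i ∈ Finset.range ℓ, E i = 1) ∧ (∀ i, kerE a k * E i = σ ^ i * E i) ∧
      ∀ i, (ℓ : ℤ_[ℓ]) • E i = kerS σ (kerE a k) i := by
    intro k hk
    refine exists_idms h.cyc (haσ k) ?_ (fun v => triv_of h hk v)
    rw [← map_pow, pow_l_ker h hk, map_one]
  let E : H × ℕ → Module.End ℤ_[ℓ] (Fin r → ℤ_[ℓ]) := fun k =>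
    if hk : q k.1 = 1 then (hex k.1 hk).choose k.2 else 0
  have hE : ∀ k : H, q k = 1 → (∀ i, E (k, i) * E (k, i) = E (k, i)) ∧
      (∑ i ∈ Finset.range ℓ, E (k, i) = 1) ∧ (∀ i, kerE a k * E (k, i) = σ ^ i * E (k, i)) ∧
      ∀ i, (ℓ : ℤ_[ℓ]) • E (k, i) = kerS σ (kerE a k) i := by
    intro k hk
    have h1 : ∀ i, E (k, i) = (hex k hk).choose i := fun i => dif_pos hk
    simp only [h1]
    exact (hex k hk).choose_spec
  have hE0 : ∀ k : H, q k ≠ 1 → ∀ i, E (k, i) = 0 := fun k hk i => dif_neg hk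
  have hconj : ∀ s k : H, q (s * k * s⁻¹) = 1 ↔ q k = 1 := by
    intro s k
    rw [map_mul, map_mul, map_inv]
    constructor
    · intro h1
      have h2 := congrArg (fun t => (q s)⁻¹ * t * q s) h1
      simpa [mul_assoc] using h2
    · intro h1
      rw [h1, mul_one, mul_inv_cancel]
  have hEσ : ∀ k, Commute (E k) σ := by
    rintro ⟨k, i⟩
    by_cases hk : q k = 1
    · have h1 : σ * E (k, i) = E (k, i) * σ :=
        ker_semi ((hE k hk).2.2.2 i) ((hE k hk).2.2.2 i)
          (kerS_semi (Commute.refl σ) (haσ k).eq.symm i)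
      exact h1.symm
    · rw [hE0 k hk]
      exact Commute.zero_left _
  have hEc : ∀ (s k : H) (i : ℕ), E (s * k * s⁻¹, i) * kerE a s = kerE a s * E (k, i) := by
    intro s k i
    by_cases hk : q k = 1
    · refine (ker_semi ((hE k hk).2.2.2 i) ((hE _ ((hconj s k).2 hk)).2.2.2 i)
        (kerS_semi (haσ s) ?_ i)).symm
      rw [← map_mul, ← map_mul]
      congr 1
      group
    · rw [hE0 k hk, hE0 _ (fun h1 => hk ((hconj s k).1 h1)), zero_mul, mul_zero]
  have hKc : ∀ s k : H, q s = 1 → q k = 1 → s * k * s⁻¹ = k := by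
    intro s k hs hk
    rw [ker_comm h hs hk, mul_inv_cancel_right]
  have hcomm : ∀ k k', Commute (E k) (E k') := by
    rintro ⟨k, i⟩ ⟨k', i'⟩
    by_cases hk : q k = 1
    · by_cases hk' : q k' = 1
      · have h1 : E (k', i') * kerE a k = kerE a k * E (k', i') := by
          have h2 := hEc k k' i'
          rwa [hKc k k' hk hk'] at h2
        have h3 : E (k', i') * E (k, i) = E (k, i) * E (k', i') :=
          ker_semi ((hE k hk).2.2.2 i) ((hE k hk).2.2.2 i) (kerS_semi (hEσ (k', i')) h1 i)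
        exact h3.symm
      · rw [hE0 k' hk']
        exact Commute.zero_right _
    · rw [hE0 k hk]
      exact Commute.zero_left _
  have hee : ∀ k, E k * E k = E k := by
    rintro ⟨k, i⟩
    by_cases hk : q k = 1
    · exact (hE k hk).1 i
    · rw [hE0 k hk, mul_zero]
  have key := ker_aux hX q h.surj hrank ρ hirr (fun k => bar (E k) (hEσ k))
    (fun k => hbe fun v => by
      rw [Module.End.mul_apply, hbar, hbar, ← Module.End.mul_apply, hee])
    (fun k k' => hbe fun v => by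
      rw [Module.End.mul_apply, Module.End.mul_apply, hbar, hbar, hbar, hbar, ← Module.End.mul_apply,
        ← Module.End.mul_apply, (hcomm k k').eq])
    (fun s k i => hbe fun v => by
      have h1 := LinearMap.congr_fun (hEc s k i) v
      rw [Module.End.mul_apply, Module.End.mul_apply] at h1
      rw [Module.End.mul_apply, Module.End.mul_apply, hρ, hbar, hbar, hρ]
      exact congrArg p' h1)
    (fun s hs k i => by
      by_cases hk : q k = 1
      · rw [hKc s k hs hk]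
      · refine hbe fun v => ?_
        rw [hbar, hbar, hE0 k hk, hE0 _ (fun h1 => hk ((hconj s k).1 h1))])
  obtain ⟨-, h2, h3, -⟩ := hE g hg
  by_cases hall : ∀ i ∈ Finset.range ℓ, bar (E (g, i)) (hEσ (g, i)) = 0
  · -- `J = 0`
    have h4 : ∀ v, p' v = 0 := by
      intro v
      have h5 : p' ((∑ i ∈ Finset.range ℓ, E (g, i)) v) = 0 := by
        rw [LinearMap.sum_apply, map_sum]
        refine Finset.sum_eq_zero fun i hi => ?_
        rw [← hbar _ (hEσ (g, i)), hall i hi, LinearMap.zero_apply]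
      rwa [h2, Module.End.one_apply] at h5
    have h6 := sep h.cyc ⊤ (fun v _ => by
      obtain ⟨w, hw⟩ := (hpk v).1 (h4 v)
      exact ⟨w, AddSubgroup.mem_top w, hw⟩)
    have h7 : ∀ v : Fin r → ℤ_[ℓ], v = 0 := fun v => by
      have h8 : v ∈ (⊤ : AddSubgroup (Fin r → ℤ_[ℓ])) := AddSubgroup.mem_top v
      rw [h6] at h8
      exact AddSubgroup.mem_bot.1 h8
    exact ⟨0, fun v => by rw [h7 (a g v), h7 ((σ ^ 0) v)]⟩
  · push Not at hall
    obtain ⟨i, hi, hi0⟩ := hall
    have h4 : bar (E (g, i)) (hEσ (g, i)) = 1 := (key (g, i)).resolve_left hi0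
    have h5 : ∀ v, ∃ w, (1 - E (g, i)) v = w - σ w := by
      intro v
      refine (hpk _).1 ?_
      rw [LinearMap.sub_apply, Module.End.one_apply, map_sub, ← hbar _ (hEσ (g, i)), h4, Module.End.one_apply, sub_self]
    have h6 := sep h.cyc (LinearMap.range (1 - E (g, i))).toAddSubgroup (by
      rintro _ ⟨v, rfl⟩
      obtain ⟨w, hw⟩ := h5 v
      refine ⟨(1 - E (g, i)) w, ⟨w, rfl⟩, ?_⟩
      have h7 : (1 - E (g, i)) ((1 - E (g, i)) v) = (1 - E (g, i)) v := by
        rw [← Module.End.mul_apply]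
        congr 1
        rw [sub_mul, mul_sub, mul_sub, hee, mul_one, one_mul, mul_one, sub_self, sub_zero]
      have h8 : σ ((1 - E (g, i)) w) = (1 - E (g, i)) (σ w) := by
        have h9 : Commute (1 - E (g, i)) σ := (Commute.one_left σ).sub_left (hEσ (g, i))
        have h10 := LinearMap.congr_fun h9.eq w
        rw [Module.End.mul_apply, Module.End.mul_apply] at h10
        exact h10.symm
      rw [h8, ← map_sub, ← hw, h7])
    have h7 : ∀ v, E (g, i) v = v := by
      intro v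
      have h8 : (1 - E (g, i)) v ∈ (LinearMap.range (1 - E (g, i))).toAddSubgroup := ⟨v, rfl⟩
      rw [h6, AddSubgroup.mem_bot, LinearMap.sub_apply, Module.End.one_apply, sub_eq_zero] at h8
      exact h8.symm
    refine ⟨i, fun v => ?_⟩
    have h8 := LinearMap.congr_fun (h3 i) v
    rw [Module.End.mul_apply, Module.End.mul_apply, h7, kerE_apply] at h8
    exact h8

/-- The elements of the kernel act as powers of `σ`. Proof (compare `ker_small` in `Xs/Ker.lean`): let `J` be the group of the classes of the functions of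
sum `0`, a vector space over `ZMod ℓ` of dimension `< card X` (`card X` is divisible by `ℓ` is not needed: the dimension of the functions of sum `0`
is `card X - 1`), equal to the image of `p` (`ran`), on which the group `H` acts (`act`) through `q`; it is irreducible by `heart_irreducible`. For `k` in
the kernel of `q` let `E k i`, `i < ℓ`, be the idempotents of `exists_idms` (`pow_l_ker`, `triv_of`, `comm`). They commute with `σ` and with each
other (`ker_comm`; after multiplication by `ℓ`), and `a h (E k i) (a h)⁻¹ = E (h k h⁻¹) i`; the induced endomorphisms `f (k, i)` of `J` (`f = 0` for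
`k` not in the kernel, or `i ≥ ℓ`) satisfy the hypotheses of `ker_aux`. So each `f (g, i)` is `0` or `1`; as their sum is `1`, and if
`J ≠ 0`, one of them is `1`, so the image of `1 - E g i` is in `(1 - σ) M`, and by `sep` (for the range of the idempotent `1 - E g i`, which commutes with
`σ`) `E g i = 1`. So `a g = σ ^ i`. (If `J = 0` then `M = (1 - σ) M` is `0` by `sep`.) -/
theorem ker_small [Finite H] (hX : 5 ≤ Fintype.card X) (h : Lft σ a q p) {g : H} (hg : q g = 1) :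
    ∃ i : ℕ, ∀ v, a g v = (σ ^ i) v := by
  have hlx : ∀ x : p.range, ℓ • x = 0 := by
    rintro ⟨_, v, rfl⟩
    apply Subtype.ext
    change ℓ • p v = 0
    rw [← map_nsmul]
    obtain ⟨w, hw⟩ := l_smul h.cyc v
    refine (h.ker _).2 ⟨w, ?_⟩
    rw [← hw, Nat.cast_smul_eq_nsmul]
  let mod : Module (ZMod ℓ) p.range := AddCommGroup.zmodModule hlx
  exact ker_core hX h p.range.subtype p.range.subtype_injective p.rangeRestrict p.rangeRestrict_surjective
    (fun v => rfl) hg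

end Pool.Agent.Lib.MP_89bcae_ag.Ep
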