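import Mathlib
import Pool.Agent.Lib.MP_89bcae_ag.Ep.Ker

/-!
# The involutions of a lift of the heart
-/

open scoped Classical

namespace Pool.Agent.Lib.MP_89bcae_ag.Ep

variable {ℓ : ℕ} [Fact ℓ.Prime] {X : Type} [Fintype X] {H : Type} [Group H] {r : ℕ}
  {σ : Module.End ℤ_[ℓ] (Fin r → ℤ_[ℓ])} {a : H →* ((Fin r → ℤ_[ℓ]) ≃ₗ[ℤ_[ℓ]] (Fin r → ℤ_[ℓ]))}
  {q : H →* alternatingGroup X} {p : (Fin r → ℤ_[ℓ]) →+ (X → ZMod ℓ) ⧸ Cst ℓ X}

private lemma lif_odd (hℓ : ℓ ≠ 2) : ∃ m : ℕ, ℓ = 2 * m + 1 :=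
  (Fact.out : ℓ.Prime).odd_of_ne_two hℓ

/-- The number `2` is invertible. -/
private lemma lif_half (hℓ : ℓ ≠ 2) : ∃ u : ℤ_[ℓ], u * 2 = 1 := by
  have h1 : IsUnit (2 : ℤ_[ℓ]) := by
    by_contra hcon
    have h2 := PadicInt.not_isUnit_iff.1 hcon
    have h3 : ((2 : ℕ) : ℤ_[ℓ]) = 2 := by norm_num
    rw [← h3, PadicInt.norm_natCast_lt_one_iff] at h2
    exact hℓ ((Nat.prime_dvd_prime_iff_eq Fact.out Nat.prime_two).1 h2)
  exact h1.exists_left_inv

/-- Proof: by `surj` take `g` with `q g = s`; `g ^ 2` is in the kernel, so `(g ^ 2) ^ ℓ = 1` (`pow_l_ker`), and `c = g ^ ℓ` satisfies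
`c * c = 1` and `q c = s ^ ℓ = s` as `ℓ` is odd. -/
theorem exists_inv [Finite H] (hℓ : ℓ ≠ 2) (h : Lft σ a q p) {s : Equiv.Perm X} (hs : s ∈ Inv2 X) :
    ∃ c : H, c * c = 1 ∧ (q c : Equiv.Perm X) = s := by
  obtain ⟨g, hg⟩ := h.surj ⟨s, hs.1⟩
  have hs2 : (⟨s, hs.1⟩ : alternatingGroup X) * ⟨s, hs.1⟩ = 1 := Subtype.ext hs.2
  have h2 : q (g ^ 2) = 1 := by rw [map_pow, hg, pow_two, hs2]
  have h3 := pow_l_ker h h2
  obtain ⟨m, hm⟩ := lif_odd hℓ
  refine ⟨g ^ ℓ, ?_, ?_⟩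
  · rw [← pow_two, ← pow_mul, mul_comm, pow_mul, h3]
  · rw [map_pow, hg]
    have h4 : (⟨s, hs.1⟩ : alternatingGroup X) ^ ℓ = ⟨s, hs.1⟩ := by
      rw [hm, pow_succ, pow_mul, pow_two, hs2, one_pow, one_mul]
    rw [h4]

/-- Proof: `c * d⁻¹ = k` is in the kernel, so it commutes with `d` (`ker_small`: `a k` is a power of `σ`, which commutes with `a d` by
`comm`; and `inj`). So `1 = c * c = k ^ 2 * d ^ 2 = k ^ 2`, and `k ^ ℓ = 1` (`pow_l_ker`), `ℓ` odd: `k = 1`. -/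
theorem inv_unique [Finite H] (hX : 5 ≤ Fintype.card X) (hℓ : ℓ ≠ 2) (h : Lft σ a q p) {c d : H} (hc : c * c = 1)
    (hd : d * d = 1) (hq : q c = q d) : c = d := by
  have hk : q (c * d⁻¹) = 1 := by rw [map_mul, map_inv, hq, mul_inv_cancel]
  obtain ⟨k, hkd⟩ : ∃ k, k = c * d⁻¹ := ⟨_, rfl⟩
  rw [← hkd] at hk
  have hck : c = k * d := by rw [hkd, inv_mul_cancel_right]
  have hcom : k * d = d * k := by
    obtain ⟨i, hi⟩ := ker_small hX h hk
    have hpow : ∀ (j : ℕ) (v : Fin r → ℤ_[ℓ]), a d ((σ ^ j) v) = (σ ^ j) (a d v) := by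
      intro j
      induction j with
      | zero => intro v; simp
      | succ j ih =>
        intro v
        rw [pow_succ, Module.End.mul_apply, Module.End.mul_apply, ih, h.comm]
    have h1 : a (k * d) = a (d * k) := by
      ext1 v
      rw [map_mul, map_mul, LinearEquiv.mul_apply, LinearEquiv.mul_apply, hi, hi, hpow]
    have h2 : a (k * d * (d * k)⁻¹) = 1 := by rw [map_mul, h1, ← map_mul, mul_inv_cancel, map_one]
    have h3 : q (k * d * (d * k)⁻¹) = 1 := by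
      rw [map_mul, map_inv, map_mul, map_mul, hk, one_mul, mul_one, mul_inv_cancel]
    exact mul_inv_eq_one.1 (h.inj _ h2 h3)
  have hkk : k * k = 1 := by
    have h1 : k * d * (k * d) = k * k * (d * d) := by
      calc k * d * (k * d) = k * (d * k) * d := by group
        _ = k * (k * d) * d := by rw [← hcom]
        _ = k * k * (d * d) := by group
    rw [← hck, hc, hd, mul_one] at h1
    exact h1.symm
  obtain ⟨m, hm⟩ := lif_odd hℓ
  have hk1 : k = 1 := by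
    have h1 := pow_l_ker h hk
    rw [hm, pow_succ, pow_mul, pow_two, hkk, one_pow, one_mul] at h1
    exact h1
  rw [hck, hk1, one_mul]

/-- The action of the even involutions. Proof: `C s = a c` for the element `c` of `exists_inv` (and `0`, or `1`, if `s ∉ Inv2 X`). The relations
`mul` (for commuting `s`, `t` the commutator is `1`: `d c d⁻¹ = c` by `inv_unique`, so `c * d` is an involution over `s * t`) and `conj`
(`c * d * c` is an involution over `s * t * s`) follow from `inv_unique`; `tf`: `ℤ_ℓ` has characteristic `0`; `half`: `2` is invertible in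
`ℤ_ℓ`; `pi_inj`, `sep`: `Ep/Pi.lean`; `act`: `s⁻¹ = s`. -/
theorem exists_sys [Finite H] (hX : 5 ≤ Fintype.card X) (hℓ : ℓ ≠ 2) (h : Lft σ a q p) :
    ∃ C : Equiv.Perm X → (Fin r → ℤ_[ℓ]) →+ (Fin r → ℤ_[ℓ]), Sys ℓ X (Fin r → ℤ_[ℓ]) (σ : (Fin r → ℤ_[ℓ]) →+ (Fin r → ℤ_[ℓ])) p C := by
  choose c hc1 hc2 using fun (s : Equiv.Perm X) (hs : s ∈ Inv2 X) => exists_inv hℓ h hs
  have key : ∀ (s : Equiv.Perm X) (hs : s ∈ Inv2 X) (e : H), e * e = 1 → (q e : Equiv.Perm X) = s → e = c s hs :=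
    fun s hs e he1 he2 => inv_unique hX hℓ h he1 (hc1 s hs) (Subtype.ext (he2.trans (hc2 s hs).symm))
  let C : Equiv.Perm X → (Fin r → ℤ_[ℓ]) →+ (Fin r → ℤ_[ℓ]) := fun s =>
    if hs : s ∈ Inv2 X then ((a (c s hs) : (Fin r → ℤ_[ℓ]) →ₗ[ℤ_[ℓ]] (Fin r → ℤ_[ℓ])) : (Fin r → ℤ_[ℓ]) →+ (Fin r → ℤ_[ℓ]))
    else 0
  have hC : ∀ (s : Equiv.Perm X) (hs : s ∈ Inv2 X) (v : Fin r → ℤ_[ℓ]), C s v = a (c s hs) v := by
    intro s hs v
    simp only [C, dif_pos hs]
    rfl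
  have hinv : ∀ (s : Equiv.Perm X), s ∈ Inv2 X → s⁻¹ = s := fun s hs => inv_eq_of_mul_eq_one_left hs.2
  have hcomm : ∀ (s : Equiv.Perm X) (hs : s ∈ Inv2 X) (t : Equiv.Perm X) (ht : t ∈ Inv2 X), s * t = t * s →
      c s hs * c t ht = c t ht * c s hs := by
    intro s hs t ht hst
    have h1 : c t ht * c s hs * (c t ht)⁻¹ = c s hs := by
      refine key s hs _ ?_ ?_
      · calc c t ht * c s hs * (c t ht)⁻¹ * (c t ht * c s hs * (c t ht)⁻¹)
            = c t ht * (c s hs * c s hs) * (c t ht)⁻¹ := by group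
          _ = 1 := by rw [hc1, mul_one, mul_inv_cancel]
      · rw [map_mul, map_mul, map_inv, Subgroup.coe_mul, Subgroup.coe_mul, Subgroup.coe_inv, hc2, hc2, ← hst,
          mul_inv_cancel_right]
    rw [mul_inv_eq_iff_eq_mul] at h1
    exact h1.symm
  have hmem1 : ∀ (s : Equiv.Perm X) (_ : s ∈ Inv2 X) (t : Equiv.Perm X) (_ : t ∈ Inv2 X), s * t = t * s →
      s * t ∈ Inv2 X := by
    intro s hs t ht hst
    refine ⟨mul_mem hs.1 ht.1, ?_⟩
    calc s * t * (s * t) = s * (t * s) * t := by group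
      _ = s * (s * t) * t := by rw [← hst]
      _ = (s * s) * (t * t) := by group
      _ = 1 := by rw [hs.2, ht.2, one_mul]
  have hmem2 : ∀ (s : Equiv.Perm X) (_ : s ∈ Inv2 X) (t : Equiv.Perm X) (_ : t ∈ Inv2 X), s * t * s ∈ Inv2 X := by
    intro s hs t ht
    refine ⟨mul_mem (mul_mem hs.1 ht.1) hs.1, ?_⟩
    calc s * t * s * (s * t * s) = s * t * (s * s) * t * s := by group
      _ = s * (t * t) * s := by rw [hs.2]; group
      _ = 1 := by rw [ht.2, mul_one, hs.2]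
  refine ⟨C, ?_, ?_, ?_, ?_, ?_, ?_, ?_, ?_, ?_, ?_, ?_, ?_⟩
  · intro n v hn hv
    funext i
    have h1 := congrFun hv i
    rw [Pi.smul_apply, nsmul_eq_mul, Pi.zero_apply, mul_eq_zero, Nat.cast_eq_zero] at h1
    exact h1.resolve_left hn
  · intro v
    obtain ⟨u, hu⟩ := lif_half hℓ
    refine ⟨u • v, ?_⟩
    rw [← add_smul, ← mul_two, hu, one_smul]
  · exact fun v hv => pi_inj h.cyc hv
  · exact fun N hN => sep h.cyc N hN
  · exact fun v hv => (h.ker v).1 hv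
  · intro v
    obtain ⟨f, hf, hcl⟩ := (h.ran (p v)).1 ⟨v, rfl⟩
    exact ⟨f, hf, hcl.symm⟩
  · exact fun f hf => (h.ran (cl ℓ X f)).2 ⟨f, hf, rfl⟩
  · intro s hs v
    rw [hC s hs, hC s hs]
    exact h.comm _ v
  · intro s hs v
    rw [hC s hs, hC s hs, ← LinearEquiv.mul_apply, ← map_mul, hc1, map_one, LinearEquiv.coe_one, id]
  · intro s hs t ht hst v
    rw [hC s hs, hC t ht, hC (s * t) (hmem1 s hs t ht hst), ← LinearEquiv.mul_apply, ← map_mul,
      key (s * t) (hmem1 s hs t ht hst) (c s hs * c t ht) ?_ ?_]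
    · calc c s hs * c t ht * (c s hs * c t ht) = c s hs * (c t ht * c s hs) * c t ht := by group
        _ = c s hs * (c s hs * c t ht) * c t ht := by rw [← hcomm s hs t ht hst]
        _ = (c s hs * c s hs) * (c t ht * c t ht) := by group
        _ = 1 := by rw [hc1, hc1, one_mul]
    · rw [map_mul, Subgroup.coe_mul, hc2, hc2]
  · intro s hs t ht v
    rw [hC s hs, hC t ht, hC s hs, hC (s * t * s) (hmem2 s hs t ht), ← LinearEquiv.mul_apply, ← LinearEquiv.mul_apply,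
      ← map_mul, ← map_mul, key (s * t * s) (hmem2 s hs t ht) (c s hs * c t ht * c s hs) ?_ ?_]
    · calc c s hs * c t ht * c s hs * (c s hs * c t ht * c s hs)
          = c s hs * c t ht * (c s hs * c s hs) * c t ht * c s hs := by group
        _ = c s hs * (c t ht * c t ht) * c s hs := by rw [hc1]; group
        _ = 1 := by rw [hc1, mul_one, hc1]
    · rw [map_mul, map_mul, Subgroup.coe_mul, Subgroup.coe_mul, hc2, hc2]
  · intro s hs v f hf
    rw [hC s hs, h.act _ v f hf, hc2, hinv s hs]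

end Pool.Agent.Lib.MP_89bcae_ag.Ep
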