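import Mathlib
import Pool.Agent.Lib.MP_89bcae_ag.Ep.Lif
import Pool.Agent.Lib.MP_89bcae_ag.Ep.Cnt

/-!
# The heart does not lift
-/

open scoped Classical

namespace Pool.Agent.Lib.MP_89bcae_ag.Ep

private lemma nol_comp {ℓ : ℕ} {X : Type} (g : Equiv.Perm X) {f f' : X → ZMod ℓ}
    (h : cl ℓ X f = cl ℓ X f') : cl ℓ X (fun x => f (g x)) = cl ℓ X fun x => f' (g x) := by
  obtain ⟨c, hc⟩ := cl_eq.1 h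
  exact cl_eq.2 ⟨c, fun x => hc (g x)⟩

/-- the group of the pairs `(γ, g)`, where `γ` lifts `g` -/
private def nol_grp {ℓ : ℕ} [Fact ℓ.Prime] {X : Type} [Fintype X] {r : ℕ}
    (Γ : Subgroup ((Fin r → ℤ_[ℓ]) ≃ₗ[ℤ_[ℓ]] (Fin r → ℤ_[ℓ])))
    (p : (Fin r → ℤ_[ℓ]) →+ (X → ZMod ℓ) ⧸ Cst ℓ X) :
    Subgroup (((Fin r → ℤ_[ℓ]) ≃ₗ[ℤ_[ℓ]] (Fin r → ℤ_[ℓ])) × alternatingGroup X) where
  carrier := {h | h.1 ∈ Γ ∧ ∀ v (f : X → ZMod ℓ), p v = cl ℓ X f →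
      p (h.1 v) = cl ℓ X fun x => f (((h.2 : Equiv.Perm X)⁻¹ : Equiv.Perm X) x)}
  one_mem' := ⟨Γ.one_mem, fun v f h => h⟩
  mul_mem' := by
    rintro ⟨γ, g⟩ ⟨γ', g'⟩ ⟨h1, h2⟩ ⟨h1', h2'⟩
    refine ⟨Γ.mul_mem h1 h1', fun v f h => ?_⟩
    have := h2 (γ' v) _ (h2' v f h)
    refine this.trans ?_
    congr 1
  inv_mem' := by
    rintro ⟨γ, g⟩ ⟨h1, h2⟩
    refine ⟨Γ.inv_mem h1, fun v f h => ?_⟩
    obtain ⟨f', hf'⟩ := cl_surjective ℓ X (p (γ⁻¹ v))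
    have h3 := h2 (γ⁻¹ v) f' hf'.symm
    have h4 : γ (γ⁻¹ v) = v := LinearEquiv.apply_symm_apply γ v
    rw [show ((γ, g).1 : (Fin r → ℤ_[ℓ]) ≃ₗ[ℤ_[ℓ]] (Fin r → ℤ_[ℓ])) = γ from rfl, h4, h] at h3
    have h5 := nol_comp (g : Equiv.Perm X) h3
    refine (hf'.symm.trans ?_)
    have h6 : (fun x => f (((((γ, g)⁻¹ : _ × alternatingGroup X).2 : Equiv.Perm X)⁻¹ : Equiv.Perm X) x)) =
        fun x => f ((g : Equiv.Perm X) x) := by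
      funext x
      congr 1
    rw [h6, h5]
    congr 1
    funext x
    simp

private lemma nol_lft {ℓ : ℕ} [Fact ℓ.Prime] {X : Type} [Fintype X] {r : ℕ}
    {σ : Module.End ℤ_[ℓ] (Fin r → ℤ_[ℓ])} (hσ : ∑ i ∈ Finset.range ℓ, σ ^ i = 0)
    (Γ : Subgroup ((Fin r → ℤ_[ℓ]) ≃ₗ[ℤ_[ℓ]] (Fin r → ℤ_[ℓ]))) (hcomm : ∀ g ∈ Γ, ∀ v, g (σ v) = σ (g v))
    (p : (Fin r → ℤ_[ℓ]) →+ (X → ZMod ℓ) ⧸ Cst ℓ X) (hker : ∀ v, p v = 0 ↔ ∃ w, v = w - σ w)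
    (hran : ∀ y, (∃ v, p v = y) ↔ ∃ f : X → ZMod ℓ, ∑ x, f x = 0 ∧ cl ℓ X f = y)
    (hact : ∀ g ∈ alternatingGroup X, ∃ γ ∈ Γ, ∀ v (f : X → ZMod ℓ), p v = cl ℓ X f →
      p (γ v) = cl ℓ X fun x => f (g⁻¹ x)) :
    Lft σ ((MonoidHom.fst _ _).comp (nol_grp Γ p).subtype) ((MonoidHom.snd _ _).comp (nol_grp Γ p).subtype) p where
  surj := by
    rintro ⟨g, hg⟩
    obtain ⟨γ, hγ, h⟩ := hact g hg
    exact ⟨⟨(γ, ⟨g, hg⟩), hγ, h⟩, rfl⟩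
  inj := fun h h1 h2 => Subtype.ext (Prod.ext h1 h2)
  cyc := hσ
  comm := fun h v => hcomm _ h.2.1 v
  ker := hker
  ran := hran
  act := fun h v f hf => h.2.2 v f hf

private lemma nol_finite {ℓ : ℕ} [Fact ℓ.Prime] {X : Type} [Fintype X] {r : ℕ}
    (Γ : Subgroup ((Fin r → ℤ_[ℓ]) ≃ₗ[ℤ_[ℓ]] (Fin r → ℤ_[ℓ]))) [Finite Γ]
    (p : (Fin r → ℤ_[ℓ]) →+ (X → ZMod ℓ) ⧸ Cst ℓ X) : Finite (nol_grp Γ p) := by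
  refine Finite.of_injective (β := Γ × alternatingGroup X)
    (fun h => (⟨h.1.1, h.2.1⟩, h.1.2)) fun h h' e => ?_
  have h1 := congrArg Prod.fst e
  have h2 := congrArg Prod.snd e
  exact Subtype.ext (Prod.ext (congrArg Subtype.val h1) h2)

/-- The heart does not lift. Proof (compare `nolGrp`, `nol_hlift`, `nol_finite` in `Xs/Nol.lean`): let `H` be the group of the pairs `(γ, g)`, `γ ∈ Γ`, `g` even,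
such that `p (γ v) = cl (f (g⁻¹ x))` if `p v = cl f`; it is finite and it is a lift `Lft`; `exists_sys` and `no_sys`. -/
theorem no_lift {ℓ : ℕ} [Fact ℓ.Prime] (hℓ : ℓ ≠ 2) {X : Type} [Fintype X] (hX : 9 ≤ Fintype.card X)
    (hX' : ℓ ∣ Fintype.card X) {r : ℕ} {σ : Module.End ℤ_[ℓ] (Fin r → ℤ_[ℓ])} (hσ : ∑ i ∈ Finset.range ℓ, σ ^ i = 0)
    (Γ : Subgroup ((Fin r → ℤ_[ℓ]) ≃ₗ[ℤ_[ℓ]] (Fin r → ℤ_[ℓ]))) [Finite Γ] (hcomm : ∀ g ∈ Γ, ∀ v, g (σ v) = σ (g v))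
    (p : (Fin r → ℤ_[ℓ]) →+ (X → ZMod ℓ) ⧸ Cst ℓ X) (hker : ∀ v, p v = 0 ↔ ∃ w, v = w - σ w)
    (hran : ∀ y, (∃ v, p v = y) ↔ ∃ f : X → ZMod ℓ, ∑ x, f x = 0 ∧ cl ℓ X f = y)
    (hact : ∀ g ∈ alternatingGroup X, ∃ γ ∈ Γ, ∀ v (f : X → ZMod ℓ), p v = cl ℓ X f →
      p (γ v) = cl ℓ X fun x => f (g⁻¹ x)) : False := by
  have hH := nol_finite Γ p
  obtain ⟨C, hC⟩ := exists_sys (by omega) hℓ (nol_lft hσ Γ hcomm p hker hran hact)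
  exact no_sys hC hℓ hX hX'

end Pool.Agent.Lib.MP_89bcae_ag.Ep
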