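import Mathlib


/-!
# The automorphisms which fix the roots of unity
-/

open Polynomial IsDedekindDomain

open scoped Classical

namespace Pool.Agent.Lib.MP_89bcae_ag.Ep

variable {k F : Type} [Field k] [Field F] [Algebra k F]

/-- Two automorphisms commute on the `ℓ`-th roots of unity. Proof: the roots of unity `c ^ ℓ = 1` form a finite cyclic group, `σ` and `τ` induce
endomorphisms of it, `c ↦ c ^ a` and `c ↦ c ^ b` (write `σ ζ = ζ ^ a`, `τ ζ = ζ ^ b` for a generator `ζ` of `rootsOfUnity ℓ F`, `IsCyclic`; or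
`rootsOfUnity.integer_power_of_ringEquiv`, or `map_rootsOfUnity_eq_pow_self`). -/
theorem comm_roots {ℓ : ℕ} (hℓ : ℓ ≠ 0) (σ τ : F ≃ₐ[k] F) {c : F} (hc : c ^ ℓ = 1) : σ (τ c) = τ (σ c) := by
  have : NeZero ℓ := ⟨hℓ⟩
  obtain ⟨ζ, hζ⟩ := IsCyclic.exists_generator (α := rootsOfUnity ℓ F)
  obtain ⟨a, ha⟩ := map_rootsOfUnity_eq_pow_self σ ζ
  obtain ⟨b, hb⟩ := map_rootsOfUnity_eq_pow_self τ ζ
  obtain ⟨n, hn⟩ := (mem_powers_iff_mem_zpowers (x := ζ)).2 (hζ (rootsOfUnity.mkOfPowEq c hc))
  have hn' : c = ((ζ : Fˣ) : F) ^ n := by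
    have h1 := congrArg (fun z : rootsOfUnity ℓ F => ((z : Fˣ) : F)) hn
    simp only [rootsOfUnity.coe_mkOfPowEq, Subgroup.coe_pow, Units.val_pow_eq_pow_val] at h1
    exact h1.symm
  rw [hn']
  simp only [map_pow, ha, hb]
  rw [← pow_mul, ← pow_mul, ← pow_mul, ← pow_mul]
  congr 1
  ring

/-- If all the even permutations of the roots are induced by automorphisms, they are induced by automorphisms which fix the `ℓ`-th roots of unity.
Proof: the set of the permutations of the roots induced by automorphisms which fix the roots of unity is closed under products, and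
contains the commutators of the even permutations (`comm_roots`: `σ τ σ⁻¹ τ⁻¹` fixes the roots of unity). Each `3`-cycle
of `a, b, c` is a commutator of even permutations: of two `3`-cycles with one common point, for `5` points: `[(a b d), (a c e)]` is a
`3`-cycle, and every `3`-cycle is conjugate to it by an even permutation (or compute directly). The `3`-cycles generate the alternating group
(`Equiv.Perm.closure_three_cycles_eq_alternating`, `Subgroup.closure_induction`). -/
theorem induces_fix {ℓ : ℕ} (hℓ : ℓ ≠ 0) {p : k[X]} (hp : 5 ≤ Fintype.card (p.rootSet F))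
    (h : ∀ g : Equiv.Perm (p.rootSet F), g ∈ alternatingGroup (p.rootSet F) →
      ∃ σ : F ≃ₐ[k] F, ∀ s : p.rootSet F, σ (s : F) = g s) (g : Equiv.Perm (p.rootSet F))
    (hg : g ∈ alternatingGroup (p.rootSet F)) :
    ∃ σ : F ≃ₐ[k] F, (∀ c : F, c ^ ℓ = 1 → σ c = c) ∧ ∀ s : p.rootSet F, σ (s : F) = g s := by
  have hsymm : ∀ (σ : F ≃ₐ[k] F) (e : Equiv.Perm (p.rootSet F)), (∀ s : p.rootSet F, σ (s : F) = e s) →
      ∀ s : p.rootSet F, σ.symm (s : F) = ((e⁻¹ s : p.rootSet F) : F) := by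
    intro σ e he s
    rw [AlgEquiv.symm_apply_eq, he (e⁻¹ s)]
    simp
  let H : Subgroup (alternatingGroup (p.rootSet F)) :=
    { carrier := {x | ∃ σ : F ≃ₐ[k] F, (∀ c : F, c ^ ℓ = 1 → σ c = c) ∧
        ∀ s : p.rootSet F, σ (s : F) = ((x : Equiv.Perm (p.rootSet F)) s : F)}
      one_mem' := ⟨AlgEquiv.refl, fun c _ => rfl, fun s => rfl⟩
      mul_mem' := by
        rintro x y ⟨σ, h1, h2⟩ ⟨τ, h3, h4⟩
        refine ⟨τ.trans σ, fun c hc => ?_, fun s => ?_⟩
        · change σ (τ c) = c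
          rw [h3 c hc, h1 c hc]
        · change σ (τ s) = _
          rw [h4 s, h2]
          rfl
      inv_mem' := by
        rintro x ⟨σ, h1, h2⟩
        refine ⟨σ.symm, fun c hc => ?_, fun s => ?_⟩
        · rw [AlgEquiv.symm_apply_eq, h1 c hc]
        · exact hsymm σ _ h2 s }
  have hle : commutator (alternatingGroup (p.rootSet F)) ≤ H := by
    rw [commutator_def, Subgroup.commutator_le]
    intro x _ y _
    obtain ⟨σ, hσ⟩ := h x x.2
    obtain ⟨τ, hτ⟩ := h y y.2
    refine ⟨((τ.symm.trans σ.symm).trans τ).trans σ, fun c hc => ?_, fun s => ?_⟩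
    · change σ (τ (σ.symm (τ.symm c))) = c
      have hc' : (τ.symm c) ^ ℓ = 1 := by rw [← map_pow, hc, map_one]
      rw [comm_roots hℓ τ σ.symm hc', AlgEquiv.apply_symm_apply, AlgEquiv.apply_symm_apply]
    · change σ (τ (σ.symm (τ.symm (s : F)))) = _
      rw [hsymm τ _ hτ, hsymm σ _ hσ, hτ, hσ]
      rfl
  have h5 : 5 ≤ Nat.card (p.rootSet F) := by
    rw [Nat.card_eq_fintype_card]
    exact hp
  rw [commutator_alternatingGroup_eq_top h5] at hle
  exact hle (Subgroup.mem_top (⟨g, hg⟩ : alternatingGroup (p.rootSet F)))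

end Pool.Agent.Lib.MP_89bcae_ag.Ep
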