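import Mathlib
import Pool.Agent.Lib.MP_89bcae_ag.El.NrmB

/-!
# The norm of an element with a given value on the second component
-/

open Polynomial IsDedekindDomain

open scoped Classical

namespace Pool.Agent.Lib.MP_89bcae_ag.Ep

open Pool.Agent.Lib.MP_89bcae_ag.Ze Pool.Agent.Lib.MP_89bcae_ag.El

variable {k F L : Type} [Field k] [Field F] [Algebra k F] [Field L] [Algebra F[X] L] [IsFractionRing F[X] L]
  {p q : k[X]} {g : k[X][X]}

/-- Proof: as `norm_point` in `El/NrmB.lean` (`norm_formula`, `nrmb_exists`, `gL_map` evaluated at `0`): the product over the roots `σ` of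
`e σ (c p(s) ^ j) = c (p(σ)) ^ j` is `c ^ m (∏ p(σ)) ^ j`, and `∏ p(σ) = (-1) ^ m g(t, 0)`, `m = deg q` (`RS_card`). -/
theorem norm_pow [NeZero q.natDegree] (h : IsLine p q g) (hd : derivative q ≠ 0) {u : AdjoinRoot (poly F L (surf g))}
    {c : F} {j : ℕ} (hu : pi0 F L h u = algebraMap F[X] L (C c * pF F p ^ j)) :
    Algebra.norm L u = pi1 F L g u * (algebraMap F[X] L (C (c ^ q.natDegree * (-1) ^ (q.natDegree * j))) *
      (gL F L g).eval 0 ^ j) := by
  obtain ⟨ι, -⟩ : ∃ ι : L →+* AlgebraicClosure L, ι = algebraMap L (AlgebraicClosure L) := ⟨_, rfl⟩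
  obtain ⟨e, he, he'⟩ := nrmb_exists (F := F) (q := q) ι
  apply ι.injective
  rw [norm_formula ι h hd he he' u, map_mul, hu]
  congr 1
  have h1 : ι ((gL F L g).eval 0) = ((gL F L g).map ι).eval 0 := by
    rw [eval_map, ← map_zero ι, eval₂_hom]
  have h2 : ι ((gL F L g).eval 0) =
      (-1) ^ q.natDegree * ((RS F ι q).map fun σ => (pF F p).eval₂ (kap F ι) σ).prod := by
    rw [h1, gL_map h hd, eval_multiset_prod, Multiset.map_map, ← RS_card (F := F) (ι := ι) (q := q),
      ← Multiset.card_map (fun σ => (pF F p).eval₂ (kap F ι) σ) (RS F ι q), ← Multiset.prod_map_neg, Multiset.map_map]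
    congr 1
    refine Multiset.map_congr rfl fun σ _ => ?_
    rw [Function.comp_apply, Function.comp_apply, eval_sub, eval_X, eval_C, zero_sub]
  have h3 : ((RS F ι q).map fun σ => e σ (algebraMap F[X] L (C c * pF F p ^ j))) =
      (RS F ι q).map fun σ => kap F ι c * (pF F p).eval₂ (kap F ι) σ ^ j := by
    refine Multiset.map_congr rfl fun σ hσ => ?_
    rw [he σ hσ, eval₂_mul, eval₂_C, eval₂_pow]
  have h4 : ((RS F ι q).map fun σ => (pF F p).eval₂ (kap F ι) σ).prod = (-1) ^ q.natDegree * ι ((gL F L g).eval 0) := by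
    rw [h2, ← mul_assoc, ← mul_pow, neg_one_mul, neg_neg, one_pow, one_mul]
  have h5 : ι (algebraMap F[X] L (C (c ^ q.natDegree * (-1) ^ (q.natDegree * j)))) =
      kap F ι c ^ q.natDegree * (-1) ^ (q.natDegree * j) := by
    change kap F ι (c ^ q.natDegree * (-1) ^ (q.natDegree * j)) = _
    rw [map_mul, map_pow, map_pow, map_neg, map_one]
  rw [h3, Multiset.prod_map_mul, Multiset.map_const', Multiset.prod_replicate, RS_card, Multiset.prod_map_pow, h4, map_mul,
    map_pow, h5, mul_pow, ← pow_mul, mul_assoc]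

end Pool.Agent.Lib.MP_89bcae_ag.Ep
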