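import Mathlib
import Pool.Agent.Lib.MP_89bcae_ag.Xs.Ord
import Pool.Agent.Lib.MP_89bcae_ag.Xs.Inf

/-!
# The powers in F(t), and the valuation ring at infinity
-/

open Polynomial IsDedekindDomain

open scoped Classical

namespace Pool.Agent.Lib.MP_89bcae_ag.Ep

open Pool.Agent.Lib.MP_89bcae_ag.Xs (ord)

variable {F L : Type} [Field F] [Field L] [Algebra F[X] L] [IsFractionRing F[X] L]

/-- A polynomial all root multiplicities of which are divisible by `ℓ` is an `ℓ`-th power. -/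
private lemma pw_poly [IsAlgClosed F] {ℓ : ℕ} (hℓ : 0 < ℓ) {q : F[X]} (h : ∀ r : F, ℓ ∣ q.rootMultiplicity r) :
    ∃ y : F[X], q = y ^ ℓ := by
  obtain ⟨c, hc⟩ := IsAlgClosed.exists_pow_nat_eq q.leadingCoeff hℓ
  refine ⟨C c * ∏ m ∈ q.roots.toFinset, (X - C m) ^ (q.roots.count m / ℓ), ?_⟩
  rw [mul_pow, ← C_pow, hc, ← Finset.prod_pow]
  conv_lhs => rw [(IsAlgClosed.splits q).eq_prod_roots, Finset.prod_multiset_map_count]
  congr 1
  apply Finset.prod_congr rfl
  intro m _
  rw [← pow_mul, Nat.div_mul_cancel]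
  rw [count_roots]
  exact h m

/-- Proof: as `exists_sq` in `Xs/Ord.lean` (the case `ℓ = 2`); or: `x = P / Q`, the orders of `P Q ^ (ℓ - 1)` are divisible by `ℓ`, so
`P Q ^ (ℓ - 1) = c ∏ (X - r) ^ (ℓ n_r)` is an `ℓ`-th power in `F[X]`, and `x = P Q ^ (ℓ - 1) / Q ^ ℓ`. -/
theorem exists_pow {ℓ : ℕ} (hℓ : ℓ.Prime) [IsAlgClosed F] {x : L} (hx : x ≠ 0) (h : ∀ r : F, (ℓ : ℤ) ∣ ord r x) :
    ∃ y : L, x = y ^ ℓ := by
  obtain ⟨p, q, hq, rfl⟩ := IsFractionRing.div_surjective (A := F[X]) x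
  have hq0 : q ≠ 0 := nonZeroDivisors.ne_zero hq
  have hp0 : p ≠ 0 := by
    rintro rfl
    apply hx
    rw [map_zero, zero_div]
  have hp1 : algebraMap F[X] L p ≠ 0 := fun h0 => hp0 ((IsFractionRing.to_map_eq_zero_iff).mp h0)
  have hq1 : algebraMap F[X] L q ≠ 0 := fun h0 => hq0 ((IsFractionRing.to_map_eq_zero_iff).mp h0)
  obtain ⟨n, rfl⟩ : ∃ n, ℓ = n + 1 := ⟨ℓ - 1, by have := hℓ.pos; omega⟩
  obtain ⟨y, hy⟩ := pw_poly (q := p * q ^ n) hℓ.pos (fun r => by
    have h1 := h r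
    rw [div_eq_mul_inv, Xs.ord_mul r hp1 (inv_ne_zero hq1), Xs.ord_inv, Xs.ord_algebraMap r hp0,
      Xs.ord_algebraMap r hq0] at h1
    have h2 : (((n + 1 : ℕ) : ℤ)) ∣ (((p * q ^ n).rootMultiplicity r : ℕ) : ℤ) := by
      rw [rootMultiplicity_mul (mul_ne_zero hp0 (pow_ne_zero n hq0)), ← count_roots (q ^ n), roots_pow,
        Multiset.count_nsmul, count_roots]
      have h3 : (((p.rootMultiplicity r + n * q.rootMultiplicity r : ℕ)) : ℤ) =
          ((p.rootMultiplicity r : ℤ) + -(q.rootMultiplicity r : ℤ)) +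
            ((n + 1 : ℕ) : ℤ) * (q.rootMultiplicity r : ℤ) := by
        push_cast
        ring
      rw [h3]
      exact dvd_add h1 (dvd_mul_right _ _)
    exact_mod_cast h2)
  refine ⟨algebraMap F[X] L y / algebraMap F[X] L q, ?_⟩
  rw [div_pow, ← map_pow, ← hy, map_mul, map_pow]
  field_simp
  ring

private lemma pw_intVal (r : F) {q : F[X]} (hq : q ≠ 0) :
    (Sup.plc r).intValuation q = WithZero.exp (-(q.rootMultiplicity r : ℤ)) := by
  obtain ⟨p, hp, hpr⟩ := exists_eq_pow_rootMultiplicity_mul_and_not_dvd q hq r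
  have e1 : (Sup.plc r).intValuation (X - C r) = WithZero.exp (-1 : ℤ) :=
    (Sup.plc r).intValuation_singleton (X_sub_C_ne_zero r) rfl
  have e2 : (Sup.plc r).intValuation p = 1 := by
    rw [HeightOneSpectrum.intValuation_eq_one_iff]
    change p ∉ Ideal.span {X - C r}
    rw [Ideal.mem_span_singleton]
    exact hpr
  have h1 : (Sup.plc r).intValuation q = (Sup.plc r).intValuation ((X - C r) ^ q.rootMultiplicity r * p) :=
    congrArg _ hp
  rw [h1, map_mul, map_pow, e1, e2, mul_one, ← WithZero.exp_nsmul]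
  congr 1
  simp

private lemma pw_ord (r : F) {p q : F[X]} (hp : p ≠ 0) (hq : q ≠ 0) :
    ord r (algebraMap F[X] L p / algebraMap F[X] L q) = p.rootMultiplicity r - q.rootMultiplicity r := by
  unfold ord
  rw [map_div₀, HeightOneSpectrum.valuation_of_algebraMap, HeightOneSpectrum.valuation_of_algebraMap,
    pw_intVal r hp, pw_intVal r hq, ← WithZero.exp_sub, WithZero.log_exp]
  ring

private lemma pw_sum [IsAlgClosed F] {p : F[X]} {S : Finset F} (h : ∀ r ∈ p.roots, r ∈ S) :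
    ∑ r ∈ S, (p.rootMultiplicity r : ℤ) = p.natDegree := by
  have h1 := Multiset.sum_count_eq_card h
  rw [IsAlgClosed.card_roots_eq_natDegree] at h1
  rw [← h1]
  push_cast
  refine Finset.sum_congr rfl fun r _ => ?_
  rw [count_roots]

/-- Proof: as `exists_inf` in `Xs/Inf.lean` (the case `ℓ = 2`; the private lemmas can be copied). -/
theorem exists_inf (F L : Type) [Field F] [Field L] [Algebra F[X] L] [IsFractionRing F[X] L] [IsAlgClosed F] (ℓ : ℕ) :
    ∃ O : ValuationSubring L, (∀ c : F, algebraMap F[X] L (C c) ∈ O) ∧ O.valuation ((algebraMap F[X] L X)⁻¹) < 1 ∧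
      ∀ (x : L), x ≠ 0 → ∀ T : Finset F, (∀ r ∉ T, (ℓ : ℤ) ∣ ord r x) →
        (∃ w : Lˣ, O.valuation x = O.valuation ((w : L) ^ ℓ)) → (ℓ : ℤ) ∣ ∑ r ∈ T, ord r x := by
  let e : L ≃ₐ[F[X]] RatFunc F := IsLocalization.algEquiv (nonZeroDivisors F[X]) L (RatFunc F)
  let v : Valuation L (WithZero (Multiplicative ℤ)) := (RatFunc.inftyValuation F).comap (e : L →+* RatFunc F)
  have hv : ∀ p : F[X], p ≠ 0 → v (algebraMap F[X] L p) = WithZero.exp (p.natDegree : ℤ) := by
    intro p hp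
    have h1 : v (algebraMap F[X] L p) = RatFunc.inftyValuation F (e (algebraMap F[X] L p)) := rfl
    rw [h1, e.commutes, RatFunc.inftyValuation_apply, RatFunc.inftyValuation.polynomial F hp]
  have hequiv := Valuation.isEquiv_valuation_valuationSubring v
  refine ⟨v.valuationSubring, fun c => ?_, ?_, ?_⟩
  · rw [Valuation.mem_valuationSubring_iff]
    by_cases hc : c = 0
    · rw [hc, C_0, map_zero, map_zero]
      exact zero_le_one
    · rw [hv _ (C_ne_zero.2 hc), natDegree_C]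
      simp
  · rw [← hequiv.lt_one_iff_lt_one, map_inv₀, hv _ X_ne_zero, natDegree_X, ← WithZero.exp_neg, ← WithZero.exp_zero,
      WithZero.exp_lt_exp]
    norm_num
  · intro x hx T hT hw
    obtain ⟨w, hw⟩ := hw
    have h1 : v x = v ((w : L) ^ ℓ) := hequiv.eq_iff.2 hw
    have hvw : v (w : L) ≠ 0 := (Valuation.ne_zero_iff v).2 w.ne_zero
    obtain ⟨p, q, hq, rfl⟩ := IsFractionRing.div_surjective (A := F[X]) x
    have hq0 : q ≠ 0 := nonZeroDivisors.ne_zero hq
    have hp0 : p ≠ 0 := by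
      rintro rfl
      apply hx
      rw [map_zero, zero_div]
    have h2 : (p.natDegree : ℤ) - q.natDegree = ℓ * WithZero.log (v (w : L)) := by
      have h3 := congrArg WithZero.log h1
      rw [map_div₀, hv p hp0, hv q hq0, ← WithZero.exp_sub, WithZero.log_exp, map_pow, WithZero.log_pow] at h3
      rw [h3]
      simp
    let S : Finset F := T ∪ (p.roots.toFinset ∪ q.roots.toFinset)
    have hTS : T ⊆ S := Finset.subset_union_left
    have hpS : ∀ r ∈ p.roots, r ∈ S := fun r hr =>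
      Finset.mem_union_right _ (Finset.mem_union_left _ (Multiset.mem_toFinset.2 hr))
    have hqS : ∀ r ∈ q.roots, r ∈ S := fun r hr =>
      Finset.mem_union_right _ (Finset.mem_union_right _ (Multiset.mem_toFinset.2 hr))
    have h4 : ∑ r ∈ S, ord r (algebraMap F[X] L p / algebraMap F[X] L q) = p.natDegree - q.natDegree := by
      rw [Finset.sum_congr rfl fun r _ => pw_ord r hp0 hq0, Finset.sum_sub_distrib, pw_sum hpS, pw_sum hqS]
    have h5 := Finset.sum_sdiff hTS (f := fun r => ord r (algebraMap F[X] L p / algebraMap F[X] L q))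
    have h6 : (ℓ : ℤ) ∣ ∑ r ∈ S \ T, ord r (algebraMap F[X] L p / algebraMap F[X] L q) :=
      Finset.dvd_sum fun r hr => hT r (Finset.mem_sdiff.1 hr).2
    have h7 : (ℓ : ℤ) ∣ ∑ r ∈ S, ord r (algebraMap F[X] L p / algebraMap F[X] L q) := by
      rw [h4, h2]
      exact dvd_mul_right _ _
    rw [← h5] at h7
    exact (dvd_add_right h6).1 h7

end Pool.Agent.Lib.MP_89bcae_ag.Ep
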