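import Mathlib
import Pool.Agent.Lib.MP_89bcae_ag.El.RkB
import Pool.Agent.Lib.MP_89bcae_ag.Ep.RkA
import Pool.Agent.Lib.MP_89bcae_ag.Ep.NrmC

/-!
# The group points
-/

open Polynomial IsDedekindDomain

open scoped Classical

namespace Pool.Agent.Lib.MP_89bcae_ag.Ep

open Pool.Agent.Lib.MP_89bcae_ag.Ze Pool.Agent.Lib.MP_89bcae_ag.El

open Pool.Agent.Lib.MP_89bcae_ag.Xs (ord ord_mul ord_pow ord_algebraMap)

variable {ℓ : ℕ} [Fact ℓ.Prime] {k F L : Type} [Field k] [Field F] [Algebra k F] [Field L] [Algebra F[X] L] [IsFractionRing F[X] L]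
  [IsAlgClosed F] {p q : k[X]} {g : k[X][X]} [NeZero q.natDegree]

omit [Fact ℓ.Prime] [IsAlgClosed F] in
private lemma rkb_pi0_ne (h : IsLine p q g) (u : (AdjoinRoot (poly F L (surf g)))ˣ) : pi0 F L h u ≠ 0 :=
  (u.isUnit.map (pi0 F L h)).ne_zero

omit [Fact ℓ.Prime] [IsAlgClosed F] [NeZero q.natDegree] in
private lemma rkb_pi1_ne (u : (AdjoinRoot (poly F L (surf g)))ˣ) : pi1 F L g u ≠ 0 :=
  (u.isUnit.map (pi1 F L g)).ne_zero

omit [Fact ℓ.Prime] [IsAlgClosed F] [NeZero q.natDegree] in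
private lemma rkb_mem (hp : p ≠ 0) (s : F) : s ∈ p.rootSet F ↔ (pF F p).eval s = 0 := by
  rw [mem_rootSet, pF, eval_map_algebraMap]
  exact ⟨fun h => h.2, fun h => ⟨hp, h⟩⟩

omit [Fact ℓ.Prime] in
private lemma rkb_const (F : Type) [Field F] [IsAlgClosed F] (n : ℕ) (hn : 0 < n) : ∃ a : F, a ≠ 0 ∧ a ^ n ≠ 1 := by
  obtain ⟨a, ha⟩ := Infinite.exists_notMem_finset ((nthRoots n (1 : F)).toFinset ∪ {0})
  rw [Finset.mem_union, Finset.mem_singleton, Multiset.mem_toFinset, mem_nthRoots hn, not_or] at ha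
  exact ⟨a, ha.2, ha.1⟩

omit [Fact ℓ.Prime] [IsAlgClosed F] [NeZero q.natDegree] in
private lemma rkb_monic (h : IsLine p q g) {a : F} (ha : a ≠ 0) {n : ℕ} (ha1 : a ≠ 1) :
    ∃ c : F, c ≠ 0 ∧ (C (algebraMap F[X] L (C c))⁻¹ * (C (algebraMap F[X] L (C a)) * X ^ n - gL F L g)).Monic := by
  have hinj : ∀ c : F, algebraMap F[X] L (C c) = 0 → c = 0 := fun c hc =>
    C_eq_zero.1 ((injective_iff_map_eq_zero _).1 (IsFractionRing.injective F[X] L) _ hc)
  have hA : algebraMap F[X] L (C a) ≠ 0 := fun h0 => ha (hinj a h0)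
  have hdn : (C (algebraMap F[X] L (C a)) * X ^ n : L[X]).degree = n := degree_C_mul_X_pow n hA
  have hdg : (gL F L g).degree = q.natDegree := by
    rw [degree_eq_natDegree (gL_monic h).ne_zero, gL_natDegree h]
  have key : ∃ c : F, c ≠ 0 ∧ (C (algebraMap F[X] L (C a)) * X ^ n - gL F L g).leadingCoeff = algebraMap F[X] L (C c) := by
    rcases lt_trichotomy n q.natDegree with h1 | h1 | h1
    · refine ⟨-1, neg_ne_zero.2 one_ne_zero, ?_⟩
      rw [leadingCoeff_sub_of_degree_lt' (by rw [hdn, hdg]; exact_mod_cast h1), (gL_monic h).leadingCoeff, C_neg, C_1,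
        map_neg, map_one]
    · refine ⟨a - 1, sub_ne_zero.2 ha1, ?_⟩
      have h2 : (C (algebraMap F[X] L (C a)) * X ^ n : L[X]).leadingCoeff ≠ (gL F L g).leadingCoeff := by
        rw [leadingCoeff_C_mul_X_pow, (gL_monic h).leadingCoeff]
        intro h3
        have h4 : algebraMap F[X] L (C (a - 1)) = 0 := by rw [C_sub, C_1, map_sub, map_one, h3, sub_self]
        exact ha1 (sub_eq_zero.1 (hinj _ h4))
      rw [leadingCoeff_sub_of_degree_eq (by rw [hdn, hdg, h1]) h2, leadingCoeff_C_mul_X_pow, (gL_monic h).leadingCoeff, C_sub,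
        C_1, map_sub, map_one]
    · refine ⟨a, ha, ?_⟩
      rw [leadingCoeff_sub_of_degree_lt (by rw [hdn, hdg]; exact_mod_cast h1), leadingCoeff_C_mul_X_pow]
  obtain ⟨c, hc, hlc⟩ := key
  refine ⟨c, hc, ?_⟩
  have hc' : algebraMap F[X] L (C c) ≠ 0 := fun h0 => hc (hinj c h0)
  rw [Monic, leadingCoeff_mul, leadingCoeff_C, hlc, inv_mul_cancel₀ hc']

/-- Proof: as `mem_of_even` in `El/RkB.lean` (the case `ℓ = 2`), with `exists_pow` of `Ep/Pw.lean` and `rel` of `Ep/RkA.lean`. -/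
theorem mem_of_dvd (h : IsLine p q g) (hd : derivative q ≠ 0) (hp : p ≠ 0) {u : (AdjoinRoot (poly F L (surf g)))ˣ}
    (hN : ∃ v : L, Algebra.norm L (u : AdjoinRoot (poly F L (surf g))) = v ^ ℓ)
    (he : ∀ r : F, (ℓ : ℤ) ∣ ord r (pi0 F L h u)) : u ∈ points ℓ (poly F L (surf g)) := by
  have h1 : ∀ r : F, (ℓ : ℤ) ∣ ord r (pi1 F L g u) := fun r =>
    (Int.dvd_iff_dvd_of_dvd_add (rel h hd hN r)).2 (Finset.dvd_sum fun b _ => he b)
  have hℓ : ℓ.Prime := Fact.out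
  obtain ⟨y, hy⟩ := exists_pow hℓ (rkb_pi0_ne h u) he
  obtain ⟨z, hz⟩ := exists_pow hℓ (rkb_pi1_ne u) h1
  obtain ⟨w, hw1, hw0⟩ := pi_surjective (F := F) (L := L) h hp z y
  have hw : w ^ ℓ = u := by
    rw [← sub_eq_zero]
    apply pi_injective h hp
    · rw [map_sub, map_pow, hw1, hz, sub_self]
    · rw [map_sub, map_pow, hw0, hy, sub_self]
  have hwu : IsUnit w := by
    have h3 : IsUnit (w ^ ℓ) := hw ▸ u.isUnit
    exact (isUnit_pow_iff hℓ.ne_zero).1 h3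
  refine Subgroup.subset_closure (Or.inl ⟨hwu.unit, Units.ext ?_⟩)
  rw [Units.val_pow_eq_pow_val, IsUnit.unit_spec, hw]

/-- The point `x = 0`. Compare `exists_point` in `El/RkB.lean`. Choose `a : F` with `a ≠ 0`, `a ^ ℓ ≠ 1` (`F` is infinite). The polynomial
`H0 = C (a ^ ℓ) * X ^ (ℓ - 1) - gL F L g` is not `0` and its leading coefficient is a constant `c ∈ F`, `c ≠ 0` (`a ^ ℓ`, `- 1` or `a ^ ℓ - 1`, according
to the degrees `ℓ - 1` and `m`); `H = c⁻¹ H0` is monic and divides `(a X) ^ ℓ - X * gL F L g = X * H0`. `pi1 (mk H) = - c⁻¹ g(t, 0)` if `ℓ > 1`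
(`ℓ - 1 ≥ 1`), `pi0 (mk H) = c⁻¹ a ^ ℓ p(s) ^ (ℓ - 1)`, both are not `0` (`gL_eval_zero`, `pF_ne_zero`), so `mk H` is a unit, and the norm is
a constant times `g(t, 0) ^ ℓ` (`norm_pow`), an `ℓ`-th power since `F` is algebraically closed. -/
theorem exists_point (h : IsLine p q g) (hd : derivative q ≠ 0) (hp : p ≠ 0) :
    ∃ u ∈ points ℓ (poly F L (surf g)), (∃ c : F, c ≠ 0 ∧ pi0 F L h u = algebraMap F[X] L (C c * pF F p ^ (ℓ - 1))) ∧
      ∃ v : L, Algebra.norm L (u : AdjoinRoot (poly F L (surf g))) = v ^ ℓ := by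
  have hℓ : ℓ.Prime := Fact.out
  obtain ⟨a, ha, ha1⟩ := rkb_const F ℓ hℓ.pos
  obtain ⟨c, hc, hmon⟩ := rkb_monic (L := L) h (pow_ne_zero ℓ ha) (n := ℓ - 1) ha1
  have hinj : ∀ c : F, c ≠ 0 → algebraMap F[X] L (C c) ≠ 0 := fun c hc0 h0 =>
    hc0 (C_eq_zero.1 ((injective_iff_map_eq_zero _).1 (IsFractionRing.injective F[X] L) _ h0))
  have hex : ∀ d : F, ex F L q (algebraMap F[X] L (C d)) = algebraMap F[X] L (C d) := fun d => by
    rw [ex_algebraMap, C_comp]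
  have hℓ1 : ℓ - 1 ≠ 0 := by have := hℓ.two_le; omega
  have hci : (algebraMap F[X] L (C c))⁻¹ = algebraMap F[X] L (C c⁻¹) := by
    apply inv_eq_of_mul_eq_one_right
    rw [← map_mul, ← C_mul, mul_inv_cancel₀ hc, C_1, map_one]
  obtain ⟨H, hH⟩ : ∃ H : L[X], H = C (algebraMap F[X] L (C c))⁻¹ * (C (algebraMap F[X] L (C (a ^ ℓ))) * X ^ (ℓ - 1) - gL F L g) :=
    ⟨_, rfl⟩
  rw [← hH] at hmon
  have hdvd : H ∣ (C (algebraMap F[X] L (C a)) * X) ^ ℓ - poly F L (surf g) := ⟨C (algebraMap F[X] L (C c)) * X, by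
    have h1 : (C (algebraMap F[X] L (C c)) : L[X]) * C (algebraMap F[X] L (C c))⁻¹ = 1 := by
      rw [← C_mul, mul_inv_cancel₀ (hinj c hc), C_1]
    have h2 : (X : L[X]) ^ ℓ = X ^ (ℓ - 1) * X := by rw [← pow_succ, Nat.sub_add_cancel hℓ.one_le]
    rw [poly_surf, hH, mul_pow, h2, ← C_pow, ← map_pow, ← C_pow]
    linear_combination (-(C (algebraMap F[X] L (C (a ^ ℓ))) * X ^ (ℓ - 1) - gL F L g) * X) * h1⟩
  have e1 : pi1 F L g (AdjoinRoot.mk _ H) = -((algebraMap F[X] L (C c))⁻¹ * (gL F L g).eval 0) := by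
    rw [pi1_mk, hH, eval_mul, eval_C, eval_sub, eval_mul, eval_pow, eval_X, zero_pow hℓ1, mul_zero, zero_sub, mul_neg]
  have e0 : pi0 F L h (AdjoinRoot.mk _ H) = algebraMap F[X] L (C (c⁻¹ * a ^ ℓ) * pF F p ^ (ℓ - 1)) := by
    rw [pi0_mk, hH, eval₂_mul, eval₂_sub, gL_vanish h, sub_zero, eval₂_mul, eval₂_C, eval₂_C, eval₂_pow, eval₂_X, map_inv₀, hex,
      hex, hci, map_mul, C_mul, map_mul, map_pow (algebraMap F[X] L) (pF F p), mul_assoc]
  have hc2 : c⁻¹ * a ^ ℓ ≠ 0 := mul_ne_zero (inv_ne_zero hc) (pow_ne_zero _ ha)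
  have hne0 : pi0 F L h (AdjoinRoot.mk _ H) ≠ 0 := by
    rw [e0]
    exact (map_ne_zero_iff _ (IsFractionRing.injective F[X] L)).2
      (mul_ne_zero (C_ne_zero.2 hc2) (pow_ne_zero _ (pF_ne_zero hp)))
  have hne1 : pi1 F L g (AdjoinRoot.mk _ H) ≠ 0 := by
    rw [e1]
    exact neg_ne_zero.2 (mul_ne_zero (inv_ne_zero (hinj c hc)) (gL_eval_zero h hp))
  obtain ⟨w, hw1, hw0⟩ := pi_surjective (F := F) (L := L) h hp (pi1 F L g (AdjoinRoot.mk _ H))⁻¹
    (pi0 F L h (AdjoinRoot.mk _ H))⁻¹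
  have hmul : AdjoinRoot.mk _ H * w = 1 := by
    rw [← sub_eq_zero]
    apply pi_injective h hp
    · rw [map_sub, map_mul, hw1, mul_inv_cancel₀ hne1, map_one, sub_self]
    · rw [map_sub, map_mul, hw0, mul_inv_cancel₀ hne0, map_one, sub_self]
  refine ⟨Units.mkOfMulEqOne _ w hmul, Subgroup.subset_closure (Or.inr ⟨H, C (algebraMap F[X] L (C a)) * X, hmon, hdvd, rfl⟩),
    ⟨c⁻¹ * a ^ ℓ, hc2, e0⟩, ?_⟩
  obtain ⟨e, he⟩ := IsAlgClosed.exists_pow_nat_eq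
    (-(c⁻¹ * ((c⁻¹ * a ^ ℓ) ^ q.natDegree * (-1) ^ (q.natDegree * (ℓ - 1))))) hℓ.pos
  refine ⟨algebraMap F[X] L (C e) * (gL F L g).eval 0, ?_⟩
  have h5 := norm_pow h hd e0
  rw [e1] at h5
  have h6 : (gL F L g).eval 0 ^ ℓ = (gL F L g).eval 0 * (gL F L g).eval 0 ^ (ℓ - 1) := by
    rw [← pow_succ', Nat.sub_add_cancel hℓ.one_le]
  have h8 : algebraMap F[X] L (C e) ^ ℓ = -(algebraMap F[X] L (C c⁻¹) *
      algebraMap F[X] L (C ((c⁻¹ * a ^ ℓ) ^ q.natDegree * (-1) ^ (q.natDegree * (ℓ - 1))))) := by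
    rw [← map_pow, ← C_pow, he, ← map_mul, ← map_neg, ← C_mul, C_neg]
  have h9 : Algebra.norm L (AdjoinRoot.mk (poly F L (surf g)) H) = (algebraMap F[X] L (C e) * (gL F L g).eval 0) ^ ℓ := by
    rw [h5, hci, mul_pow (algebraMap F[X] L (C e)), h8, h6]
    ring
  exact h9

/-- Compare `mem_points` in `El/RkB.lean`. Proof: let `n` be a natural number congruent modulo `ℓ` to `ord s (pi0 u)` for the roots `s` of `p`, and
`u0` be the unit of `exists_point`: `ord r (pi0 u0) = (ℓ - 1) ord r p`, where `ord r p` is `1` if `r` is a root of `p` (separable) and `0` otherwise. All the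
orders of `pi0 (u * u0 ^ n)` are divisible by `ℓ` (`dvd_pi0`), so `u * u0 ^ n` is in `points` by `mem_of_dvd`. -/
theorem mem_points (h : IsLine p q g) (hd : derivative q ≠ 0) (hs : p.Separable)
    {u : (AdjoinRoot (poly F L (surf g)))ˣ} (hu : u ∈ unramified ℓ F (poly F L (surf g)))
    (he : ∀ s s' : p.rootSet F, (ℓ : ℤ) ∣ ord (s : F) (pi0 F L h u) - ord (s' : F) (pi0 F L h u)) :
    u ∈ points ℓ (poly F L (surf g)) := by
  have hℓ : ℓ.Prime := Fact.out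
  have hp : p ≠ 0 := hs.ne_zero
  have hal : (pF F p).Separable := hs.map
  obtain ⟨u0, hu0, ⟨c, hc, h0⟩, v0, hv0⟩ := exists_point (ℓ := ℓ) (F := F) (L := L) h hd hp
  obtain ⟨n, hn⟩ : ∃ n : ℕ, ∀ s : F, (pF F p).eval s = 0 → (ℓ : ℤ) ∣ ord s (pi0 F L h u) - n := by
    by_cases h1 : Nonempty (p.rootSet F)
    · obtain ⟨s0⟩ := h1
      refine ⟨(ord (s0 : F) (pi0 F L h u) % ℓ).toNat, fun s hs0 => ?_⟩
      have h2 : (0 : ℤ) ≤ ord (s0 : F) (pi0 F L h u) % ℓ := Int.emod_nonneg _ (by exact_mod_cast hℓ.ne_zero)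
      rw [Int.toNat_of_nonneg h2]
      have h3 := he ⟨s, (rkb_mem hp s).2 hs0⟩ s0
      have h4 : (ℓ : ℤ) ∣ ord (s0 : F) (pi0 F L h u) - ord (s0 : F) (pi0 F L h u) % ℓ := Int.dvd_self_sub_emod
      have h5 := dvd_add h3 h4
      rwa [sub_add_sub_cancel] at h5
    · exact ⟨0, fun s hs0 => absurd ⟨⟨s, (rkb_mem hp s).2 hs0⟩⟩ h1⟩
  have h3 : u * u0 ^ n ∈ points ℓ (poly F L (surf g)) := by
    obtain ⟨v, hv⟩ := hu.1
    refine mem_of_dvd h hd hp ⟨v * v0 ^ n, by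
      rw [Units.val_mul, Units.val_pow_eq_pow_val, map_mul, map_pow, hv, hv0, mul_pow, ← pow_mul, ← pow_mul, mul_comm n]⟩
      fun r => ?_
    have hne : algebraMap F[X] L (C c) ≠ 0 := fun h0 =>
      hc (C_eq_zero.1 ((injective_iff_map_eq_zero _).1 (IsFractionRing.injective F[X] L) _ h0))
    have hpne : algebraMap F[X] L (pF F p) ≠ 0 := fun h0 =>
      pF_ne_zero hp ((injective_iff_map_eq_zero _).1 (IsFractionRing.injective F[X] L) _ h0)
    rw [Units.val_mul, Units.val_pow_eq_pow_val, map_mul, map_pow,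
      ord_mul r (rkb_pi0_ne h u) (pow_ne_zero _ (rkb_pi0_ne h u0)), ord_pow, h0, map_mul, map_pow,
      ord_mul r hne (pow_ne_zero _ hpne), ord_pow, ord_algebraMap r (C_ne_zero.2 hc), ord_algebraMap r hal.ne_zero,
      rootMultiplicity_C, Nat.cast_zero, zero_add]
    by_cases hr : (pF F p).eval r = 0
    · have h4 : (pF F p).rootMultiplicity r = 1 := by
        have h5 := rootMultiplicity_le_one_of_separable hal r
        have h6 := (rootMultiplicity_pos hal.ne_zero).2 hr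
        omega
      rw [h4, Nat.cast_one, mul_one, Nat.cast_sub hℓ.one_le, Nat.cast_one]
      have h5 := dvd_add (hn r hr) (Dvd.intro (n : ℤ) rfl : (ℓ : ℤ) ∣ ℓ * n)
      have h6 : ord r (pi0 F L h u) + (n : ℤ) * ((ℓ : ℤ) - 1) = ord r (pi0 F L h u) - n + ℓ * n := by ring
      rw [h6]
      exact h5
    · rw [rootMultiplicity_eq_zero hr, Nat.cast_zero, mul_zero, mul_zero, add_zero]
      exact dvd_pi0 h hu hr
  have h4 := mul_mem h3 (inv_mem (pow_mem hu0 n))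
  rwa [mul_assoc, mul_inv_cancel, mul_one] at h4

end Pool.Agent.Lib.MP_89bcae_ag.Ep
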