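import Mathlib
import Pool.Agent.Lib.MP_89bcae_ag.Ep.RkB
import Pool.Agent.Lib.MP_89bcae_ag.Ep.Gal
import Pool.Agent.Lib.MP_89bcae_ag.Ep.Brn
import Pool.Agent.Lib.MP_89bcae_ag.Ep.Perf
import Pool.Agent.Lib.MP_89bcae_ag.Ep.Nol
import Pool.Agent.Lib.MP_89bcae_ag.Ze.Gal
import Pool.Agent.Lib.MP_89bcae_ag.Ze.Fin

/-!
# The criterion for the surfaces `y ^ ℓ = x g(t, x)`, `ℓ` odd
-/

open Polynomial IsDedekindDomain

open scoped Classical

namespace Pool.Agent.Lib.MP_89bcae_ag.Ep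

open Pool.Agent.Lib.MP_89bcae_ag.Ze

open Pool.Agent.Lib.MP_89bcae_ag.El (IsLine surf pi0 pi1 pF)

open Pool.Agent.Lib.MP_89bcae_ag.Xs (ord Or ord_mul)

section

/-- The curve `g(t, x) = 0` is the embedded line `t = q(s)`, `x = p(s)`, `ℓ` divides `e` and does not divide `deg q + 1`, the degree of
`p` is `e deg q` and at least `8`, the derivative of `q` is not `0`, `p` has no multiple roots, and all the even permutations of its
roots in `F` are induced by automorphisms of `F` over `k`. -/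
structure IsExample (ℓ : ℕ) {k : Type} [Field k] (F : Type) [Field F] [Algebra k F] (p q : k[X]) (g : k[X][X]) : Prop where
  line : IsLine p q g
  deriv : derivative q ≠ 0
  coprime : (q.natDegree + 1).Coprime ℓ
  dvd : ∃ e : ℕ, ℓ ∣ e ∧ p.natDegree = e * q.natDegree
  eight_le : 8 ≤ p.natDegree
  separable : p.Separable
  galois : ∀ g : Equiv.Perm (p.rootSet F), g ∈ alternatingGroup (p.rootSet F) →
    ∃ σ : F ≃ₐ[k] F, ∀ s : p.rootSet F, σ (s : F) = g s

variable {ℓ : ℕ} [Fact ℓ.Prime] {k F L : Type} [Field k] [Field F] [Algebra k F] [Field L] [Algebra F[X] L] [IsFractionRing F[X] L]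
  {p q : k[X]} {g : k[X][X]} [NeZero q.natDegree]

omit [NeZero q.natDegree] [Fact ℓ.Prime] in
lemma p_ne_zero (hE : IsExample ℓ F p q g) : p ≠ 0 := by
  rintro rfl
  have h := hE.eight_le
  rw [natDegree_zero] at h
  omega

omit [NeZero q.natDegree] [Fact ℓ.Prime] in
/-- The number of the nodes. -/
lemma card_rootSet [IsAlgClosed F] (hE : IsExample ℓ F p q g) : Fintype.card (p.rootSet F) = p.natDegree :=
  card_rootSet_eq_natDegree hE.separable (IsAlgClosed.splits _)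

omit [NeZero q.natDegree] [Fact ℓ.Prime] in
lemma dvd_natDegree (hE : IsExample ℓ F p q g) : ℓ ∣ p.natDegree := by
  obtain ⟨e, he, h⟩ := hE.dvd
  rw [h]
  exact he.mul_right _

omit [NeZero q.natDegree] in
lemma nine_le (hℓ : ℓ ≠ 2) (hE : IsExample ℓ F p q g) : 9 ≤ p.natDegree := by
  have h8 := hE.eight_le
  by_contra h9
  have h8' : p.natDegree = 8 := by omega
  have h1 : ℓ ∣ 2 ^ 3 := by
    have h2 : ℓ ∣ p.natDegree := dvd_natDegree hE
    rw [h8'] at h2
    exact h2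
  exact hℓ ((Nat.prime_dvd_prime_iff_eq Fact.out Nat.prime_two).1 ((Fact.out : ℓ.Prime).dvd_of_dvd_pow h1))

/-- The orders at the nodes, modulo `ℓ`. -/
noncomputable def par (ℓ : ℕ) (hl : IsLine p q g) (u : (AdjoinRoot (poly F L (surf g)))ˣ) (s : p.rootSet F) : ZMod ℓ :=
  ((ord (s : F) (pi0 F L hl u) : ℤ) : ZMod ℓ)

lemma cast_eq_zero {m : ℤ} : ((m : ℤ) : ZMod ℓ) = 0 ↔ (ℓ : ℤ) ∣ m := ZMod.intCast_zmod_eq_zero_iff_dvd _ _

lemma cast_eq_cast {m n : ℤ} : ((m : ℤ) : ZMod ℓ) = n ↔ (ℓ : ℤ) ∣ m - n := by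
  rw [← sub_eq_zero, ← Int.cast_sub, cast_eq_zero]

lemma pi0_unit_ne_zero (hl : IsLine p q g) (u : (AdjoinRoot (poly F L (surf g)))ˣ) : pi0 F L hl u ≠ 0 :=
  (u.isUnit.map (pi0 F L hl)).ne_zero

lemma par_mul (hl : IsLine p q g) (u v : (AdjoinRoot (poly F L (surf g)))ˣ) : par ℓ hl (u * v) = par ℓ hl u + par ℓ hl v := by
  funext s
  show ((ord (s : F) (pi0 F L hl ((u * v : (AdjoinRoot (poly F L (surf g)))ˣ) : AdjoinRoot _)) : ℤ) : ZMod ℓ) = _
  rw [Units.val_mul, map_mul, ord_mul _ (pi0_unit_ne_zero hl u) (pi0_unit_ne_zero hl v), Int.cast_add]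
  rfl

lemma par_one (hl : IsLine p q g) : par ℓ hl (1 : (AdjoinRoot (poly F L (surf g)))ˣ) = 0 := by
  have h := par_mul (ℓ := ℓ) hl (1 : (AdjoinRoot (poly F L (surf g)))ˣ) 1
  rw [mul_one] at h
  exact left_eq_add.1 h

lemma par_div (hl : IsLine p q g) (u v : (AdjoinRoot (poly F L (surf g)))ˣ) : par ℓ hl (u / v) = par ℓ hl u - par ℓ hl v := by
  have h := par_mul (ℓ := ℓ) hl (u / v) v
  rw [div_mul_cancel] at h
  rw [h, add_sub_cancel_right]

lemma par_inv (hl : IsLine p q g) (u : (AdjoinRoot (poly F L (surf g)))ˣ) : par ℓ hl u⁻¹ = -par ℓ hl u := by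
  have h := par_div (ℓ := ℓ) hl 1 u
  rwa [one_div, par_one, zero_sub] at h

variable [IsAlgClosed F]

lemma par_sum (hE : IsExample ℓ F p q g) {u : (AdjoinRoot (poly F L (surf g)))ˣ}
    (hu : u ∈ unramified ℓ F (poly F L (surf g))) : ∑ s, par ℓ hE.line u s = 0 := by
  obtain ⟨e, he, he'⟩ := hE.dvd
  have h8 := hE.eight_le
  have h := sum_dvd hE.line hE.deriv (by omega) he' he hu
  unfold par
  rw [← Int.cast_sum]
  exact cast_eq_zero.2 h

lemma mem_points_of_par (hE : IsExample ℓ F p q g) {u : (AdjoinRoot (poly F L (surf g)))ˣ}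
    (hu : u ∈ unramified ℓ F (poly F L (surf g))) (h : par ℓ hE.line u ∈ Cst ℓ (p.rootSet F)) :
    u ∈ points ℓ (poly F L (surf g)) := by
  obtain ⟨c, hc⟩ := h
  exact mem_points hE.line hE.deriv hE.separable hu fun s s' => cast_eq_cast.1 ((hc s).trans (hc s').symm)

private lemma mem_alternating {X : Type} [Fintype X] {d d' : DecidableEq X} {τ : Equiv.Perm X}
    (hg : τ ∈ @alternatingGroup X _ d) : τ ∈ @alternatingGroup X _ d' := by
  have h : d = d' := Subsingleton.elim d d'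
  rw [← h]
  exact hg

omit [Fact ℓ.Prime] in
lemma exists_par_galois (hℓ : ℓ ≠ 0) (hE : IsExample ℓ F p q g) {d : DecidableEq (p.rootSet F)}
    {τ : Equiv.Perm (p.rootSet F)} (hg : τ ∈ @alternatingGroup (p.rootSet F) _ d) :
    ∃ γ ∈ galois ℓ k F (poly F L (surf g)), ∀ u : (AdjoinRoot (poly F L (surf g)))ˣ,
      par ℓ hE.line (Units.map ((γ : AdjoinRoot (poly F L (surf g)) ≃+* AdjoinRoot (poly F L (surf g))) :
        AdjoinRoot (poly F L (surf g)) →* AdjoinRoot (poly F L (surf g))) u) = fun s => par ℓ hE.line u (τ⁻¹ s) := by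
  have h5 : 5 ≤ Fintype.card (p.rootSet F) := by
    have := card_rootSet hE
    have := hE.eight_le
    omega
  obtain ⟨σ, hσ', hσ⟩ := induces_fix hℓ h5 hE.galois τ (mem_alternating hg)
  obtain ⟨γ, hγ, h⟩ := exists_galois (L := L) hE.line σ hσ'
  refine ⟨γ, hγ, fun u => ?_⟩
  funext s
  have h1 := h u ((τ⁻¹ s : p.rootSet F) : F)
  have h2 : τ (τ⁻¹ s) = s := τ.apply_symm_apply s
  rw [hσ, h2] at h1
  exact congrArg (fun m : ℤ => (m : ZMod ℓ)) h1

omit [Fact ℓ.Prime] [IsAlgClosed F] in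
lemma const_comp {X : Type} {f : X → ZMod ℓ} (hf : f ∈ Cst ℓ X) (τ : X → X) : (fun x => f (τ x)) ∈ Cst ℓ X := by
  obtain ⟨c, hc⟩ := hf
  exact ⟨c, fun x => hc _⟩

/-- The image of a stable group. -/
lemma all_par (hE : IsExample ℓ F p q g) {N : Subgroup (AdjoinRoot (poly F L (surf g)))ˣ}
    (hst : ∀ γ ∈ galois ℓ k F (poly F L (surf g)), ∀ u ∈ N,
      Units.map ((γ : AdjoinRoot (poly F L (surf g)) ≃+* AdjoinRoot (poly F L (surf g))) :
        AdjoinRoot (poly F L (surf g)) →* AdjoinRoot (poly F L (surf g))) u ∈ N)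
    {u : (AdjoinRoot (poly F L (surf g)))ˣ} (hu : u ∈ N) (hu' : par ℓ hE.line u ∉ Cst ℓ (p.rootSet F))
    (f : p.rootSet F → ZMod ℓ) (hf : ∑ s, f s = 0) : ∃ v ∈ N, par ℓ hE.line v = f := by
  have h4 : 8 ≤ p.natDegree := hE.eight_le
  have hℓ : ℓ ≠ 0 := (Fact.out : ℓ.Prime).ne_zero
  have hcard := card_rootSet hE
  let M : AddSubgroup (p.rootSet F → ZMod ℓ) :=
    { carrier := {f | ∃ v ∈ N, par ℓ hE.line v = f}
      zero_mem' := ⟨1, N.one_mem, par_one hE.line⟩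
      add_mem' := by
        rintro f τ ⟨v, hv, rfl⟩ ⟨w, hw, rfl⟩
        exact ⟨v * w, N.mul_mem hv hw, par_mul hE.line v w⟩
      neg_mem' := by
        rintro f ⟨v, hv, rfl⟩
        exact ⟨v⁻¹, N.inv_mem hv, par_inv hE.line v⟩ }
  refine heart_irreducible (by rw [hcard]; omega) M ?_ (f := par ℓ hE.line u) ⟨u, hu, rfl⟩ hu' f hf
  rintro τ hg f ⟨v, hv, rfl⟩
  obtain ⟨γ, hγ, h⟩ := exists_par_galois (L := L) hℓ hE hg
  exact ⟨_, hst γ hγ v hv, h v⟩

omit [IsAlgClosed F] [NeZero q.natDegree] [Fact ℓ.Prime] in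
lemma isFixed_surf (g : k[X][X]) : IsFixed k F (poly F L (surf g)) := fun σ => poly_map _ σ

theorem isRigid_surf (hℓ : ℓ ≠ 2) (hE : IsExample ℓ F p q g) :
    IsRigid ℓ (galois ℓ k F (poly F L (surf g))) (unramified ℓ F (poly F L (surf g)))
      (points ℓ (poly F L (surf g))) := by
  have hℓp : ℓ.Prime := Fact.out
  have hB : IsBranch ℓ F L (surf g) := isBranch_surf hE.line hE.deriv hE.coprime (p_ne_zero hE)
  have hd : (poly F L (surf g)).degree ≠ 0 := hB.degree_ne_zero hℓp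
  have h4 : 9 ≤ p.natDegree := nine_le hℓ hE
  have hcard := card_rootSet hE
  intro N hVN hNU hst r _
  refine Or.inr (Or.inr ?_)
  rintro ⟨n, σ, Γ, π, hL⟩
  have hVU : points ℓ (poly F L (surf g)) ≤ unramified ℓ F (poly F L (surf g)) := hVN.le.trans hNU
  have hVst : ∀ γ ∈ galois ℓ k F (poly F L (surf g)), ∀ u ∈ points ℓ (poly F L (surf g)),
      Units.map ((γ : AdjoinRoot (poly F L (surf g)) ≃+* AdjoinRoot (poly F L (surf g))) :
        AdjoinRoot (poly F L (surf g)) →* AdjoinRoot (poly F L (surf g))) u ∈ points ℓ (poly F L (surf g)) :=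
    fun γ hγ u hu => points_stable (isFixed_surf g) hd hγ hu
  -- an element of `N` with the same parities as an element of `V` is in `V`
  have hsame : ∀ u ∈ N, ∀ v ∈ points ℓ (poly F L (surf g)), par ℓ hE.line u - par ℓ hE.line v ∈ Cst ℓ (p.rootSet F) →
      u ∈ points ℓ (poly F L (surf g)) := by
    intro u hu v hv h
    rw [← par_div] at h
    have h1 := mem_points_of_par hE (Subgroup.div_mem _ (hNU hu) (hVU hv)) h
    have h2 := Subgroup.mul_mem _ h1 hv
    rwa [div_mul_cancel] at h2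
  -- the parities of the elements of `V` are constant
  have hV : ∀ v ∈ points ℓ (poly F L (surf g)), par ℓ hE.line v ∈ Cst ℓ (p.rootSet F) := by
    intro v hv
    by_contra hv'
    refine hVN.not_ge fun u hu => ?_
    obtain ⟨w, hw, hwu⟩ := all_par hE hVst hv hv' (par ℓ hE.line u) (par_sum hE (hNU hu))
    exact hsame u hu w hw (by rw [hwu, sub_self]; exact (Cst ℓ _).zero_mem)
  -- all the parities are attained in `N`
  obtain ⟨u₀, hu₀, hu₀'⟩ := SetLike.exists_of_lt hVN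
  have hu₀c : par ℓ hE.line u₀ ∉ Cst ℓ (p.rootSet F) := fun h => hu₀' (mem_points_of_par hE (hNU hu₀) h)
  have hN : ∀ f : p.rootSet F → ZMod ℓ, ∑ s, f s = 0 → ∃ v ∈ N, par ℓ hE.line v = f :=
    fun f hf => all_par hE hst hu₀ hu₀c f hf
  have hπN : ∀ v, π v ∈ N := fun v => (hL.range _).2 ⟨v, by rw [div_self']; exact Subgroup.one_mem _⟩
  -- the homomorphism to the heart
  let pr : (Fin n → ℤ_[ℓ]) →+ (p.rootSet F → ZMod ℓ) ⧸ Cst ℓ (p.rootSet F) :=
    AddMonoidHom.mk' (fun v => cl ℓ _ (par ℓ hE.line (π v))) fun v w => by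
      rw [← map_add, ← par_mul, ← sub_eq_zero, ← map_sub, ← par_div, cl_eq_zero]
      exact hV _ (hL.add v w)
  have hp : ∀ v, pr v = cl ℓ _ (par ℓ hE.line (π v)) := fun _ => rfl
  have hcl : ∀ a b : p.rootSet F → ZMod ℓ, a - b ∈ Cst ℓ (p.rootSet F) → cl ℓ _ a = cl ℓ _ b := by
    intro a b hab
    rw [← sub_eq_zero, ← map_sub, cl_eq_zero]
    exact hab
  have hcl' : ∀ a b : p.rootSet F → ZMod ℓ, cl ℓ _ a = cl ℓ _ b → a - b ∈ Cst ℓ (p.rootSet F) := by
    intro a b hab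
    rw [← sub_eq_zero, ← map_sub, cl_eq_zero] at hab
    exact hab
  have hfin : Finite Γ := hL.finite
  refine no_lift (X := p.rootSet F) hℓ (by rw [hcard]; exact h4) (by rw [hcard]; exact dvd_natDegree hE) hL.cyclotomic Γ
    hL.comm pr ?_ ?_ ?_
  · intro v
    rw [hp, cl_eq_zero]
    constructor
    · intro h
      exact (hL.kernel v).1 (mem_points_of_par hE (hNU (hπN v)) h)
    · intro h
      exact hV _ ((hL.kernel v).2 h)
  · intro y
    constructor
    · rintro ⟨v, rfl⟩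
      exact ⟨_, par_sum hE (hNU (hπN v)), rfl⟩
    · rintro ⟨f, hf, rfl⟩
      obtain ⟨u, hu, rfl⟩ := hN f hf
      obtain ⟨v, hv⟩ := (hL.range u).1 hu
      refine ⟨v, ?_⟩
      rw [hp]
      refine (hcl _ _ ?_).symm
      rw [← par_div]
      exact hV _ hv
  · intro τ hg
    obtain ⟨γ, hγ, h⟩ := exists_par_galois (L := L) hℓp.ne_zero hE hg
    obtain ⟨g', hg', h'⟩ := hL.lift γ hγ
    refine ⟨g', hg', fun v f hv => ?_⟩
    rw [hp] at hv
    rw [hp]
    have h0 := hcl' _ _ hv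
    have h1 := hV _ (h' v)
    rw [par_div, h] at h1
    refine (hcl _ _ ?_)
    have h2 := const_comp h0 fun s => τ⁻¹ s
    have h3 := (Cst ℓ (p.rootSet F)).sub_mem h2 h1
    refine Eq.mp (congrArg (· ∈ Cst ℓ (p.rootSet F)) ?_) h3
    funext s
    show par ℓ hE.line (π v) (τ⁻¹ s) - f (τ⁻¹ s) - (par ℓ hE.line (π v) (τ⁻¹ s) - par ℓ hE.line (π (g' v)) s) =
      par ℓ hE.line (π (g' v)) s - f (τ⁻¹ s)
    ring

end

end Pool.Agent.Lib.MP_89bcae_ag.Ep
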