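import Mathlib
import Pool.Agent.Lib.MP_89bcae_ag.Ep.AmG
import Pool.Agent.Lib.MP_89bcae_ag.Ep.Rig
import Pool.Agent.Lib.MP_89bcae_ag.Zt.MainE

/-!
# The surfaces `y ^ ℓ = x g(t, x)`: the stable groups of endomorphisms
-/

open Polynomial IsDedekindDomain

open scoped Classical

namespace Pool.Agent.Lib.MP_89bcae_ag.Ep

open Pool.Agent.Lib.MP_89bcae_ag.Ze

open Pool.Agent.Lib.MP_89bcae_ag.Zt (IsAmpleE)

open Pool.Agent.Lib.MP_89bcae_ag.El (IsLine surf)

section

variable {ℓ : ℕ} [Fact ℓ.Prime] {k F L : Type} [Field k] [Field F] [Algebra k F] [Field L] [Algebra F[X] L] [IsFractionRing F[X] L]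
  [IsAlgClosed F] {p q : k[X]} {g : k[X][X]} [NeZero q.natDegree]

private lemma mem_alt {X : Type} [Fintype X] {d d' : DecidableEq X} {τ : Equiv.Perm X}
    (hg : τ ∈ @alternatingGroup X _ d) : τ ∈ @alternatingGroup X _ d' := by
  have h : d = d' := Subsingleton.elim d d'
  rw [← h]
  exact hg

/-- The groups of endomorphisms of the stable subgroups of `unramified / points` contain injective ones. -/
theorem isAmple_surf (hE : IsExample ℓ F p q g)
    (hn : Even p.natDegree)
    (hVU : points ℓ (poly F L (surf g)) ≤ unramified ℓ F (poly F L (surf g))) :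
    IsAmpleE (galois ℓ k F (poly F L (surf g))) (unramified ℓ F (poly F L (surf g)))
      (points ℓ (poly F L (surf g))) := by
  intro hG
  have h4 : 8 ≤ p.natDegree := hE.eight_le
  have hcard := card_rootSet hE
  -- the class is determined by the parities
  have hcls : ∀ u ∈ unramified ℓ F (poly F L (surf g)), ∀ v ∈ unramified ℓ F (poly F L (surf g)),
      par ℓ hE.line u - par ℓ hE.line v ∈ Cst ℓ (p.rootSet F) →
      (QuotientGroup.mk u : (AdjoinRoot (poly F L (surf g)))ˣ ⧸ points ℓ (poly F L (surf g))) = QuotientGroup.mk v := by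
    intro u hu v hv h
    rw [← par_div] at h
    rw [QuotientGroup.eq_iff_div_mem]
    exact mem_points_of_par hE (Subgroup.div_mem _ hu hv) h
  -- the action of the permutations
  have hperm : ∀ τ ∈ alternatingGroup (p.rootSet F), ∃ γ : galois ℓ k F (poly F L (surf g)),
      ∀ u : (AdjoinRoot (poly F L (surf g)))ˣ,
        par ℓ hE.line (Units.map (((γ : AdjoinRoot (poly F L (surf g)) ≃+* AdjoinRoot (poly F L (surf g)))) :
          AdjoinRoot (poly F L (surf g)) →* AdjoinRoot (poly F L (surf g))) u) = fun s => par ℓ hE.line u (τ⁻¹ s) := by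
    intro τ hτ
    obtain ⟨γ, hγ, h⟩ := exists_par_galois (L := L) (Fact.out : ℓ.Prime).ne_zero hE hτ
    exact ⟨⟨γ, hγ⟩, h⟩
  -- the functions
  let φ : Subgroup (AdjoinRoot (poly F L (surf g)))ˣ → (p.rootSet F → ZMod ℓ) →
      Additive ((AdjoinRoot (poly F L (surf g)))ˣ ⧸ points ℓ (poly F L (surf g))) := fun N f =>
    if h : ∃ u ∈ N, par ℓ hE.line u = f then Additive.ofMul (QuotientGroup.mk (Classical.choose h)) else 0
  have hφ : ∀ N ≤ unramified ℓ F (poly F L (surf g)), ∀ u ∈ N, φ N (par ℓ hE.line u) = Additive.ofMul (QuotientGroup.mk u) := by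
    intro N hN u hu
    have h : ∃ v ∈ N, par ℓ hE.line v = par ℓ hE.line u := ⟨u, hu, rfl⟩
    have h1 := Classical.choose_spec h
    have h2 : φ N (par ℓ hE.line u) = Additive.ofMul (QuotientGroup.mk (Classical.choose h)) := dif_pos h
    rw [h2]
    refine congrArg Additive.ofMul (hcls _ (hN h1.1) _ (hN hu) ?_)
    rw [h1.2, sub_self]
    exact (Cst ℓ _).zero_mem
  refine @ZInj.Ample.mk (galois ℓ k F (poly F L (surf g)))
    (Additive ((AdjoinRoot (poly F L (surf g)))ˣ ⧸ points ℓ (poly F L (surf g)))) _ _ (actV _ hG)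
    (quo (points ℓ (poly F L (surf g))) (unramified ℓ F (poly F L (surf g)))) ?_ fun N hNU hN A hne hA => ?_
  · have h1 : ((quo (points ℓ (poly F L (surf g))) (unramified ℓ F (poly F L (surf g))) :
        AddSubgroup (Additive ((AdjoinRoot (poly F L (surf g)))ˣ ⧸ points ℓ (poly F L (surf g))))) : Set _) ⊆
        Set.range (φ (unramified ℓ F (poly F L (surf g)))) := by
      rintro _ ⟨u, hu, rfl⟩
      exact ⟨par ℓ hE.line u, hφ _ le_rfl u hu⟩
    exact (Set.finite_range _).subset h1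
  -- the preimage of `N`
  let N' : Subgroup (AdjoinRoot (poly F L (surf g)))ˣ :=
    (AddSubgroup.toSubgroup N).comap (QuotientGroup.mk' (points ℓ (poly F L (surf g))))
  have hN' : ∀ u, u ∈ N' ↔ Additive.ofMul (QuotientGroup.mk u) ∈ N := fun u => Iff.rfl
  have hN'U : N' ≤ unramified ℓ F (poly F L (surf g)) := by
    intro u hu
    obtain ⟨v, hv, hvu⟩ := hNU ((hN' u).1 hu)
    have h1 : (QuotientGroup.mk v : (AdjoinRoot (poly F L (surf g)))ˣ ⧸ points ℓ (poly F L (surf g))) =
        QuotientGroup.mk u := hvu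
    rw [QuotientGroup.eq_iff_div_mem] at h1
    have h2 := Subgroup.mul_mem _ (Subgroup.inv_mem _ (hVU h1)) hv
    rwa [inv_div, div_mul_cancel] at h2
  have hst : ∀ γ ∈ galois ℓ k F (poly F L (surf g)), ∀ u ∈ N',
      Units.map ((γ : AdjoinRoot (poly F L (surf g)) ≃+* AdjoinRoot (poly F L (surf g))) :
        AdjoinRoot (poly F L (surf g)) →* AdjoinRoot (poly F L (surf g))) u ∈ N' :=
    fun γ hγ u hu => hN ⟨γ, hγ⟩ _ hu
  have hne' := ZInj.ne_bot_of N A hne
  -- all the parities are attained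
  have hall : ∀ f : p.rootSet F → ZMod ℓ, ∑ s, f s = 0 → ∃ v ∈ N', par ℓ hE.line v = f := by
    obtain ⟨⟨x, hx⟩, hx0⟩ := AddSubgroup.ne_bot_iff_exists_ne_zero.1 hne'
    obtain ⟨u, hu⟩ := QuotientGroup.mk_surjective x.toMul
    have h1 : x = Additive.ofMul (QuotientGroup.mk u) := (congrArg Additive.ofMul hu).symm
    have h2 : u ∈ N' := by
      rw [hN', ← h1]
      exact hx
    refine fun f hf => all_par hE hst h2 (fun h3 => ?_) f hf
    have h4 := mem_points_of_par hE (hN'U h2) h3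
    rw [← QuotientGroup.eq_one_iff] at h4
    apply hx0
    apply Subtype.ext
    change x = 0
    rw [h1, h4]
    rfl
  let _ : DistribMulAction (galois ℓ k F (poly F L (surf g)))
    (Additive ((AdjoinRoot (poly F L (surf g)))ˣ ⧸ points ℓ (poly F L (surf g)))) := actV _ hG
  have hgen : ∀ τ ∈ alternatingGroup (p.rootSet F), ∃ γ : galois ℓ k F (poly F L (surf g)),
      ∀ f ∈ Amp.S0 ℓ (p.rootSet F), γ • φ N' f = φ N' (f ∘ τ) := by
    intro τ hτ
    obtain ⟨γ, hγ⟩ := hperm τ⁻¹ ((alternatingGroup (p.rootSet F)).inv_mem hτ)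
    refine ⟨γ, fun f hf => ?_⟩
    obtain ⟨u, hu, rfl⟩ := hall f hf
    have h1 := hγ u
    rw [inv_inv] at h1
    have h2 : par ℓ hE.line u ∘ τ = fun s => par ℓ hE.line u (τ s) := rfl
    rw [h2, ← h1, hφ N' hN'U _ (hst _ γ.2 u hu), hφ N' hN'U _ hu]
    rfl
  have hamp : @ZInj.Ample (galois ℓ k F (poly F L (surf g)))
      (Additive ((AdjoinRoot (poly F L (surf g)))ˣ ⧸ points ℓ (poly F L (surf g)))) _ _ (actV _ hG) N := by
    refine @Amp.ample_of_perm ℓ _ (p.rootSet F) _ (galois ℓ k F (poly F L (surf g)))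
      (Additive ((AdjoinRoot (poly F L (surf g)))ˣ ⧸ points ℓ (poly F L (surf g)))) _ _ (actV _ hG)
      (by rw [hcard]; exact h4) (by rw [hcard]; exact hn) (by rw [hcard]; exact dvd_natDegree hE) N (φ N') ?_ ?_ ?_ ?_ ?_
    · intro f hf τ hg
      obtain ⟨u, hu, rfl⟩ := hall f hf
      obtain ⟨v, hv, rfl⟩ := hall τ hg
      rw [← par_mul, hφ N' hN'U _ (Subgroup.mul_mem _ hu hv), hφ N' hN'U _ hu, hφ N' hN'U _ hv]
      rfl
    · intro f hf
      obtain ⟨u, hu, rfl⟩ := hall f hf
      rw [hφ N' hN'U _ hu]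
      exact hu
    · intro x hx
      obtain ⟨u, hu⟩ := QuotientGroup.mk_surjective x.toMul
      have h1 : x = Additive.ofMul (QuotientGroup.mk u) := (congrArg Additive.ofMul hu).symm
      have h2 : u ∈ N' := by
        rw [hN', ← h1]
        exact hx
      exact ⟨par ℓ hE.line u, par_sum hE (hN'U h2), by rw [hφ N' hN'U _ h2, h1]⟩
    · rintro f ⟨c, hc⟩
      have hf0 : ∑ x, f x = 0 := by
        obtain ⟨m, hm⟩ := dvd_natDegree hE
        simp only [hc, Finset.sum_const, Finset.card_univ, nsmul_eq_mul]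
        rw [hcard, hm, Nat.cast_mul, ZMod.natCast_self, zero_mul, zero_mul]
      obtain ⟨u, hu, h1⟩ := hall f hf0
      rw [← h1, hφ N' hN'U _ hu]
      have h2 := mem_points_of_par hE (hN'U hu) (by rw [h1]; exact ⟨c, hc⟩)
      rw [← QuotientGroup.eq_one_iff] at h2
      rw [h2]
      rfl
    · exact fun τ hτ => hgen τ (mem_alt hτ)
  exact @ZInj.Ample.inj (galois ℓ k F (poly F L (surf g)))
    (Additive ((AdjoinRoot (poly F L (surf g)))ˣ ⧸ points ℓ (poly F L (surf g)))) _ _ (actV _ hG) N hamp N le_rfl hN A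
    hne hA

end

end Pool.Agent.Lib.MP_89bcae_ag.Ep
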