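import Mathlib
import Pool.Agent.Lib.MP_89bcae_ag.El.Exa

/-!
# The examples over `ℚ`, for all primes `ℓ`
-/

open Polynomial

open scoped Classical

namespace Pool.Agent.Lib.MP_89bcae_ag.Ep

open Pool.Agent.Lib.MP_89bcae_ag.El

lemma natDegree_rat {m d : ℕ} (h : 8 ≤ m * d) : ((1 - X ^ d : ℚ[X]).comp (X ^ m) + X).natDegree = d * m := by
  rw [alpha_rat, natDegree_neg, sub_sub, natDegree_sub_eq_left_of_natDegree_lt, natDegree_X_pow, mul_comm]
  rw [natDegree_X_pow]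
  refine lt_of_le_of_lt (natDegree_add_le _ _) ?_
  rw [natDegree_X, natDegree_one]
  omega

lemma isLine_rat {m : ℕ} (d : ℕ) (hm : m ≠ 0) :
    IsLine ((1 - X ^ d : ℚ[X]).comp (X ^ m) + X) (X ^ m) ((X - C (1 - X ^ d : ℚ[X])) ^ m - C X) := by
  have h1 := isLine_curve (1 - X ^ d : ℚ[X]) (q := X ^ m) (monic_X_pow m) (by rwa [natDegree_X_pow])
  rwa [curve_X_pow] at h1

lemma derivative_rat {m : ℕ} (hm : m ≠ 0) : derivative (X ^ m : ℚ[X]) ≠ 0 := by
  rw [derivative_X_pow]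
  refine mul_ne_zero ?_ (pow_ne_zero _ X_ne_zero)
  rw [Ne, C_eq_zero]
  exact_mod_cast hm

lemma separable_rat {m d : ℕ} (h : 8 ≤ m * d) : ((1 - X ^ d : ℚ[X]).comp (X ^ m) + X).Separable := by
  rw [alpha_rat]
  have hirr : Irreducible (X ^ (m * d) - X - 1 : ℚ[X]) := X_pow_sub_X_sub_one_irreducible_rat (by omega)
  exact (Associated.neg_right (Associated.refl _)).separable hirr.separable

end Pool.Agent.Lib.MP_89bcae_ag.Ep
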