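import Mathlib
import Pool.Agent.Lib.MP_89bcae_ag.Ep.AmpS
import Pool.Agent.Lib.MP_89bcae_ag.El.Rig
import Pool.Agent.Lib.MP_89bcae_ag.Zt.FinE

/-!
# The Brauer classes of the surfaces `y ^ ℓ = x g(t, x)`, for all primes `ℓ`
-/

open Polynomial

open scoped Classical

namespace Pool.Agent.Lib.MP_89bcae_ag.Ep

open Pool.Agent.Lib.MP_89bcae_ag.Ze Pool.Agent.Lib.MP_89bcae_ag.Bra

open Pool.Agent.Lib.MP_89bcae_ag.Zs (IsCoverField)

open Pool.Agent.Lib.MP_89bcae_ag.Zt (BrauerInvariantsTrivialOne one_of_ample)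

open Pool.Agent.Lib.MP_89bcae_ag.El (IsLine surf natDegree_ne_zero_of_deriv)

lemma admissible_of_rigid {ℓ : ℕ} [Fact ℓ.Prime] {R : Type} [CommRing R] {G : Subgroup (R ≃+* R)} {U V : Subgroup Rˣ}
    (h : IsRigid ℓ G U V) : IsAdmissible ℓ G U V := by
  intro N h1 h2 h3 r hr
  rcases h N h1 h2 h3 r hr with h4 | h4 | h4
  · exact Or.inl h4
  · exact Or.inr (Or.inl h4)
  · exact Or.inr (Or.inr (Or.inr h4))

lemma isExample_two {k F : Type} [Field k] [Field F] [Algebra k F] {p q : k[X]} {g : k[X][X]} (hk : ((2 : ℕ) : k) ≠ 0)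
    (hE : IsExample 2 F p q g) : El.IsExample F p q g := by
  have hm' : Even q.natDegree := by
    rcases Nat.even_or_odd q.natDegree with h1 | h1
    · exact h1
    · exact absurd hE.coprime (by
        rw [Nat.coprime_two_right, Nat.not_odd_iff_even]
        exact h1.add_one)
  obtain ⟨e, he, hp⟩ := hE.dvd
  exact ⟨hE.line, by exact_mod_cast hk, hE.deriv, hm', ⟨e, (even_iff_two_dvd).2 he, hp⟩, hE.eight_le, hE.separable, hE.galois⟩

/-- The rigidity, for all primes `ℓ`. -/
theorem isRigid_surf_all {ℓ : ℕ} [Fact ℓ.Prime] {k F L : Type} [Field k] [Field F] [Algebra k F] [Field L] [Algebra F[X] L]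
    [IsFractionRing F[X] L] [IsAlgClosed F] {p q : k[X]} {g : k[X][X]} (hk : (ℓ : k) ≠ 0) (hE : IsExample ℓ F p q g) :
    IsRigid ℓ (galois ℓ k F (poly F L (surf g))) (unramified ℓ F (poly F L (surf g)))
      (points ℓ (poly F L (surf g))) := by
  have : NeZero q.natDegree := ⟨natDegree_ne_zero_of_deriv hE.deriv⟩
  by_cases hℓ2 : ℓ = 2
  · subst hℓ2
    exact El.isRigid_surf (isExample_two hk hE)
  · exact isRigid_surf hℓ2 hE

/-- No Brauer class is invariant. -/
theorem brauer_surf {ℓ : ℕ} [Fact ℓ.Prime] {k F : Type} [Field k] [Field F] [Algebra k F] [IsAlgClosure k F]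
    {p q : k[X]} {g : k[X][X]} (hk : (ℓ : k) ≠ 0) (hE : IsExample ℓ F p q g)
    (K S : Type) [Field K] [Algebra F K] [Field S] [Algebra K S] [IsAlgClosure K S] (t x y : K)
    (h : IsCoverField ℓ F (surf g) t x y) (k' : IntermediateField k F) (hk' : FiniteDimensional k k') :
    BrauerInvariantsTrivial ℓ S k' t x y := by
  have : IsAlgClosed F := IsAlgClosure.isAlgClosed k
  have : NeZero q.natDegree := ⟨natDegree_ne_zero_of_deriv hE.deriv⟩
  exact brauer_of_rigid (ℓ := ℓ) hk (isBranch_surf hE.line hE.deriv hE.coprime (p_ne_zero hE)) rfl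
    (admissible_of_rigid (isRigid_surf_all hk hE)) K S t x y h k' hk'

/-- If the degree of `p` is even, no Brauer class is fixed by a power of one automorphism. -/
theorem brauer_surf_one {ℓ : ℕ} [Fact ℓ.Prime] {k F : Type} [Field k] [Field F] [Algebra k F] [IsAlgClosure k F]
    {p q : k[X]} {g : k[X][X]} (hk : (ℓ : k) ≠ 0) (hE : IsExample ℓ F p q g) (hn : Even p.natDegree)
    (K S : Type) [Field K] [Algebra F K] [Field S] [Algebra K S] [IsAlgClosure K S] (t x y : K)
    (h : IsCoverField ℓ F (surf g) t x y) : BrauerInvariantsTrivialOne ℓ k F S t x y := by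
  have : IsAlgClosed F := IsAlgClosure.isAlgClosed k
  have : NeZero q.natDegree := ⟨natDegree_ne_zero_of_deriv hE.deriv⟩
  exact one_of_ample (ℓ := ℓ) hk (isBranch_surf hE.line hE.deriv hE.coprime (p_ne_zero hE)) rfl
    (fun hVU => ⟨isRigid_surf_all hk hE, isAmple_surf hE hn hVU⟩) K S t x y h

end Pool.Agent.Lib.MP_89bcae_ag.Ep
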